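import Pool.Agent.BLN.Defs

/-!
# Shortest exit paths in a set `U` of vertices all of whose neighbours have the other colour

`UTail G U v m t` : `v 1, …, v m` is a walk in `U` and `v m` is adjacent to `t`.
`Short …` : a shortest walk between the two ends of a pair of a relation `Al`, with its consequences in a
graph without cycles of length four: no chords, no vertex of `U` sees two of its vertices, and so on.
-/

set_option autoImplicit false

namespace Pool.Agent.BLN

open Finset Pool.Agent.IVT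

variable {V : Type} {G : SimpleGraph V} {U : Set V}

/-- `v 1, …, v m` is a walk in `U` and `v m` is adjacent to `t` -/
structure UTail (G : SimpleGraph V) (U : Set V) (v : ℕ → V) (m : ℕ) (t : V) : Prop where
  pos : 1 ≤ m
  mem : ∀ k, 1 ≤ k → k ≤ m → v k ∈ U
  adj : ∀ k, 1 ≤ k → k < m → G.Adj (v k) (v (k + 1))
  exit : G.Adj (v m) t

theorem bool_eq_of_ne {p q r : Bool} (h1 : p ≠ r) (h2 : q ≠ r) : p = q := by
  revert p q r; decide

namespace UTail

variable {v : ℕ → V} {m : ℕ} {t : V}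

/-- cut the end -/
theorem take (h : UTail G U v m t) {k : ℕ} (hk : 1 ≤ k) (hkm : k ≤ m) {t' : V} (ht : G.Adj (v k) t') :
    UTail G U v k t' where
  pos := hk
  mem := fun j h1 h2 => h.mem j h1 (by omega)
  adj := fun j h1 h2 => h.adj j h1 (by omega)
  exit := ht

/-- cut the beginning -/
theorem drop (h : UTail G U v m t) {q : ℕ} (hq : 1 ≤ q) (hqm : q ≤ m) :
    UTail G U (fun k => v (k + q - 1)) (m - q + 1) t where
  pos := by omega
  mem := fun j h1 h2 => h.mem _ (by omega) (by omega)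
  adj := fun j h1 h2 => by
    have := h.adj (j + q - 1) (by omega) (by omega)
    rwa [show j + 1 + q - 1 = j + q - 1 + 1 by omega]
  exit := by
    have := h.exit
    simpa [show m - q + 1 + q - 1 = m by omega] using this

/-- one vertex more at the beginning -/
theorem cons (h : UTail G U v m t) {w : V} (hw : w ∈ U) (ha : G.Adj w (v 1)) :
    UTail G U (fun k => if k ≤ 1 then w else v (k - 1)) (m + 1) t where
  pos := by omega
  mem := fun j h1 h2 => by
    by_cases hj : j ≤ 1
    · simpa [hj] using hw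
    · simpa [hj] using h.mem (j - 1) (by omega) (by omega)
  adj := fun j h1 h2 => by
    by_cases hj : j ≤ 1
    · have : j = 1 := by omega
      subst this
      simpa using ha
    · have h3 := h.adj (j - 1) (by omega) (by omega)
      simp only [hj, if_false, show ¬ (j + 1 ≤ 1) by omega]
      rwa [show j + 1 - 1 = j - 1 + 1 by omega]
  exit := by
    have h3 := h.exit
    have h4 := h.pos
    simpa [show ¬ (m + 1 ≤ 1) by omega] using h3

/-- one vertex alone -/
theorem single {w t : V} (hw : w ∈ U) (ht : G.Adj w t) : UTail G U (fun _ => w) 1 t where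
  pos := le_rfl
  mem := fun _ _ _ => hw
  adj := fun j h1 h2 => by omega
  exit := ht

/-- the vertices `v 1, …, v p` followed by another walk -/
theorem attach (hm : ∀ k, 1 ≤ k → k ≤ m → v k ∈ U)
    (ha : ∀ k, 1 ≤ k → k < m → G.Adj (v k) (v (k + 1))) {v' : ℕ → V} {n : ℕ} {t' : V}
    (h' : UTail G U v' n t') : ∀ p, 1 ≤ p → p ≤ m → G.Adj (v p) (v' 1) →
      ∃ u : ℕ → V, u 1 = v 1 ∧ UTail G U u (p + n) t' := by
  intro p
  induction p generalizing v' n with
  | zero => intro h; omega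
  | succ p ih =>
    intro h1 h2 h3
    have h4 := h'.cons (hm (p + 1) h1 h2) h3
    by_cases hp : p = 0
    · subst hp
      refine ⟨_, ?_, by simpa [add_comm] using h4⟩
      simp
    · obtain ⟨u, hu, hu'⟩ := ih h4 (by omega) (by omega) (by simpa using ha p (by omega) (by omega))
      refine ⟨u, hu, ?_⟩
      rwa [show p + 1 + n = p + (n + 1) by omega]

/-- replace the part between `v p` and `v q` by one vertex -/
theorem splice (h : UTail G U v m t) {w : V} (hw : w ∈ U) {p q : ℕ} (hp : 1 ≤ p) (hpm : p ≤ m) (hq : 1 ≤ q)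
    (hqm : q ≤ m) (h1 : G.Adj (v p) w) (h2 : G.Adj w (v q)) :
    ∃ u : ℕ → V, u 1 = v 1 ∧ UTail G U u (p + (m - q + 1 + 1)) t := by
  have h3 := (h.drop hq hqm).cons hw (by simpa using h2)
  exact attach h.mem h.adj h3 p hp hpm (by simpa using h1)

/-- jump from `v p` to `v q` -/
theorem jump (h : UTail G U v m t) {p q : ℕ} (hp : 1 ≤ p) (hpm : p ≤ m) (hq : 1 ≤ q)
    (hqm : q ≤ m) (h1 : G.Adj (v p) (v q)) :
    ∃ u : ℕ → V, u 1 = v 1 ∧ UTail G U u (p + (m - q + 1)) t :=
  attach h.mem h.adj (h.drop hq hqm) p hp hpm (by simpa using h1)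

/-- leave the walk at `v p` through one more vertex -/
theorem leave (h : UTail G U v m t) {w : V} (hw : w ∈ U) {p : ℕ} (hp : 1 ≤ p) (hpm : p ≤ m)
    (h1 : G.Adj (v p) w) {t' : V} (h2 : G.Adj w t') :
    ∃ u : ℕ → V, u 1 = v 1 ∧ UTail G U u (p + 1) t' :=
  attach h.mem h.adj (single hw h2) p hp hpm h1

end UTail

/-- a shortest walk through `U` between the ends of a pair of the relation `Al` -/
structure Short (G : SimpleGraph V) (U : Set V) (Al : V → V → Prop) (a : V) (v : ℕ → V) (m : ℕ) (t : V) :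
    Prop where
  tail : UTail G U v m t
  start : G.Adj a (v 1)
  al : Al a t
  min : ∀ a' t', Al a' t' → ∀ (v' : ℕ → V) (m' : ℕ), G.Adj a' (v' 1) → UTail G U v' m' t' → m ≤ m'

/-- a shortest walk exists if there is one -/
theorem exists_short {Al : V → V → Prop} {a t : V} {v : ℕ → V} {m : ℕ} (hal : Al a t) (hs : G.Adj a (v 1))
    (ht : UTail G U v m t) : ∃ a' t' v' m', m' ≤ m ∧ Short G U Al a' v' m' t' := by
  classical
  have h1 : ∃ m : ℕ, ∃ a t, Al a t ∧ ∃ v : ℕ → V, G.Adj a (v 1) ∧ UTail G U v m t := ⟨m, a, t, hal, v, hs, ht⟩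
  obtain ⟨a', t', ha, v', h2, h3⟩ := Nat.find_spec h1
  refine ⟨a', t', v', Nat.find h1, Nat.find_min' h1 ⟨a, t, hal, v, hs, ht⟩, h3, h2, ha, ?_⟩
  intro a'' t'' ha'' v'' m'' h4 h5
  exact Nat.find_min' h1 ⟨a'', t'', ha'', v'', h4, h5⟩

namespace Short

variable {Al : V → V → Prop} {a : V} {v : ℕ → V} {m : ℕ} {t : V} (h : Short G U Al a v m t)
include h

theorem pos : 1 ≤ m := h.tail.pos

theorem mem {k : ℕ} (h1 : 1 ≤ k) (h2 : k ≤ m) : v k ∈ U := h.tail.mem k h1 h2

theorem adj {k : ℕ} (h1 : 1 ≤ k) (h2 : k < m) : G.Adj (v k) (v (k + 1)) := h.tail.adj k h1 h2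

theorem exit : G.Adj (v m) t := h.tail.exit

/-- only the last vertex has an exit -/
theorem no_exit {k : ℕ} (h1 : 1 ≤ k) (h2 : k < m) {t' : V} (ht : Al a t') : ¬ G.Adj (v k) t' := by
  intro h3
  have := h.min a t' ht v k h.start (h.tail.take h1 h2.le h3)
  omega

/-- only the first vertex is adjacent to a start -/
theorem no_start {k : ℕ} (h1 : 2 ≤ k) (h2 : k ≤ m) {a' : V} (ha : Al a' t) : ¬ G.Adj a' (v k) := by
  intro h3
  have := h.min a' t ha _ _ (by simpa using h3) (h.tail.drop (by omega : 1 ≤ k) h2)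
  omega

/-- no chords -/
theorem no_chord {j k : ℕ} (h1 : 1 ≤ j) (h2 : j + 2 ≤ k) (h3 : k ≤ m) : ¬ G.Adj (v j) (v k) := by
  intro h4
  obtain ⟨u, hu, hu'⟩ := h.tail.jump h1 (by omega : j ≤ m) (by omega : 1 ≤ k) h3 h4
  have := h.min a t h.al u _ (by rw [hu]; exact h.start) hu'
  omega

/-- the vertices of the walk are distinct -/
theorem inj {j k : ℕ} (h1 : 1 ≤ j) (h2 : j < k) (h3 : k ≤ m) : v j ≠ v k := by
  intro h4
  by_cases hk : k = m
  · subst hk
    refine h.no_exit h1 h2 h.al ?_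
    rw [h4]
    exact h.exit
  · refine h.no_chord h1 (by omega : j + 2 ≤ k + 1) (by omega) ?_
    rw [h4]
    exact h.adj (by omega) (by omega)

theorem inj' {j k : ℕ} (h1 : 1 ≤ j) (h1' : j ≤ m) (h2 : 1 ≤ k) (h3 : k ≤ m) (h4 : v j = v k) : j = k := by
  rcases lt_trichotomy j k with h5 | h5 | h5
  · exact absurd h4 (h.inj h1 h5 h3)
  · exact h5
  · exact absurd h4.symm (h.inj h2 h5 h1')

/-- a vertex of `U` which sees the two ends of an allowed pair -/
theorem m_le_of_both {w : V} (hw : w ∈ U) {a' t' : V} (hal : Al a' t') (h1 : G.Adj a' w)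
    (h2 : G.Adj w t') : m ≤ 1 :=
  h.min a' t' hal _ _ h1 (UTail.single hw h2)

/-- a vertex of `U` which sees `v k` and a start: `k ≤ 2` -/
theorem le_two_of_start {w : V} (hw : w ∈ U) {a' : V} (ha : Al a' t) (h1 : G.Adj a' w) {k : ℕ} (hk : 1 ≤ k)
    (hkm : k ≤ m) (h2 : G.Adj w (v k)) : k ≤ 2 := by
  have h3 := (h.tail.drop hk hkm).cons hw (by simpa using h2)
  have := h.min a' t ha _ _ (by simpa using h1) h3
  omega

/-- a vertex of `U` which sees `v k` and an exit: `m ≤ k + 1` -/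
theorem le_of_exit {w : V} (hw : w ∈ U) {t' : V} (ht : Al a t') (h1 : G.Adj w t') {k : ℕ} (hk : 1 ≤ k)
    (hkm : k ≤ m) (h2 : G.Adj (v k) w) : m ≤ k + 1 := by
  obtain ⟨u, hu, hu'⟩ := h.tail.leave hw hk hkm h2 h1
  exact h.min a t' ht u _ (by rw [hu]; exact h.start) hu'

/-- a vertex of `U` which sees `v j` and `v k`: `k ≤ j + 2` -/
theorem le_of_two {w : V} (hw : w ∈ U) {j k : ℕ} (hj : 1 ≤ j) (hjk : j ≤ k) (hkm : k ≤ m)
    (h1 : G.Adj (v j) w) (h2 : G.Adj w (v k)) : k ≤ j + 2 := by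
  obtain ⟨u, hu, hu'⟩ := h.tail.splice hw hj (by omega) (by omega) hkm h1 h2
  have := h.min a t h.al u _ (by rw [hu]; exact h.start) hu'
  omega

section Col

variable {c : V → Bool} (hU : ∀ u ∈ U, ∀ w, G.Adj u w → c w ≠ c u)
include hU

theorem col_succ {k : ℕ} (h1 : 1 ≤ k) (h2 : k < m) : c (v (k + 1)) ≠ c (v k) :=
  hU _ (h.mem h1 h2.le) _ (h.adj h1 h2)

theorem col_t : c t ≠ c (v m) := hU _ (h.mem h.pos le_rfl) _ h.exit

theorem col_a : c a ≠ c (v 1) := hU _ (h.mem le_rfl h.pos) _ h.start.symm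

/-- the colours alternate -/
theorem col_eq {k : ℕ} (h1 : 1 ≤ k) (h2 : k ≤ m) : c (v k) = if k % 2 = 1 then c (v 1) else !c (v 1) := by
  induction k with
  | zero => omega
  | succ k ih =>
    by_cases hk : k = 0
    · subst hk; simp
    · have h3 := ih (by omega) (by omega)
      have h4 := h.col_succ hU (by omega : 1 ≤ k) (by omega)
      rw [h3] at h4
      rcases Nat.mod_two_eq_zero_or_one k with h5 | h5
      · rw [if_neg (by omega)] at h4
        rw [if_pos (by omega)]
        revert h4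
        cases c (v (k + 1)) <;> cases c (v 1) <;> simp
      · rw [if_pos h5] at h4
        rw [if_neg (by omega)]
        revert h4
        cases c (v (k + 1)) <;> cases c (v 1) <;> simp

/-- a vertex of `U` sees two vertices of the walk only if it is the vertex between them -/
theorem common {w : V} (hw : w ∈ U) {j k : ℕ} (hj : 1 ≤ j) (hjk : j < k) (hkm : k ≤ m)
    (h1 : G.Adj w (v j)) (h2 : G.Adj w (v k)) (h4 : C4Free G) : k = j + 2 ∧ w = v (j + 1) := by
  have h3 := h.le_of_two hw hj hjk.le hkm h1.symm h2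
  have h5 : k = j + 2 := by
    by_contra h6
    have h7 : k = j + 1 := by omega
    subst h7
    have h8 := h.col_succ hU hj (by omega)
    exact h8 (bool_eq_of_ne (hU w hw _ h2) (hU w hw _ h1))
  subst h5
  refine ⟨rfl, ?_⟩
  rcases h4 w (v j) (v (j + 1)) (v (j + 2)) h1 (h.adj hj (by omega)) (h.adj (by omega) (by omega)) h2.symm with h6 | h6
  · exact h6
  · exact absurd h6 (h.inj hj (by omega) hkm)

/-- a vertex of `U` which sees `v k` and the exit of the walk -/
theorem common_exit {w : V} (hw : w ∈ U) {k : ℕ} (hk : 1 ≤ k) (hkm : k ≤ m) (h1 : G.Adj w (v k))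
    (h2 : G.Adj w t) (h4 : C4Free G) (hTU : t ∉ U) : k + 1 = m ∧ w = v m := by
  have h3 := h.le_of_exit hw h.al h2 hk hkm h1.symm
  have h5 : k + 1 = m := by
    by_contra h6
    have h7 : k = m := by omega
    subst h7
    exact h.col_t hU (bool_eq_of_ne (hU w hw _ h2) (hU w hw _ h1))
  refine ⟨h5, ?_⟩
  rcases h4 w (v k) (v (k + 1)) t h1 (h.adj hk (by omega)) (by rw [h5]; exact h.exit) h2.symm with h6 | h6
  · rw [h6, h5]
  · exact absurd (h6 ▸ h.mem hk hkm : t ∈ U) hTU

/-- a vertex of `U` which sees `v k` and the start of the walk -/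
theorem common_start {w : V} (hw : w ∈ U) {k : ℕ} (hk : 1 ≤ k) (hkm : k ≤ m) (h1 : G.Adj w (v k))
    (h2 : G.Adj a w) (h4 : C4Free G) (hAU : a ∉ U) : k = 2 ∧ w = v 1 := by
  have h3 := h.le_two_of_start hw h.al h2 hk hkm h1
  have h5 : k = 2 := by
    by_contra h6
    have h7 : k = 1 := by omega
    subst h7
    exact h.col_a hU (bool_eq_of_ne (hU w hw _ h2.symm) (hU w hw _ h1))
  subst h5
  refine ⟨rfl, ?_⟩
  rcases h4 w a (v 1) (v 2) h2.symm h.start (h.adj le_rfl (by omega)) h1.symm with h6 | h6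
  · exact h6
  · exact absurd (h6 ▸ h.mem hk hkm : a ∈ U) hAU

end Col

end Short

end Pool.Agent.BLN
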