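import Pool.Agent.BLN.Table3
import Pool.Agent.BLN.Pth.Walk
import Pool.Agent.BLE.Match

/-!
# Regions of `U` without exits

`exit_or_region` : from a vertex of `U` there is a walk through `U` to `T`, or its component in `U` is a
finite set `D` whose outer neighbours are neither in `U` nor in `T`.
`three_kk` : three times the sum of the signs over a set of vertices of degree `3` without own neighbours
is the signed number of edges leaving the set.
`Star3.region` : a region which sees only the pair `a i`, `b i` gives a solution or a bridge `l i - x`.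
-/

set_option autoImplicit false
set_option linter.unusedSectionVars false

namespace Pool.Agent.BLN

open Finset Pool.Agent.IVT

variable {V : Type} [Fintype V] [DecidableEq V]

section Graph

variable {G : SimpleGraph V} [DecidableRel G.Adj]

omit [DecidableRel G.Adj] [DecidableEq V] in
/-- a walk to an exit or a closed region -/
theorem exit_or_region (U T : Set V) {u : V} (hu : u ∈ U) :
    (∃ t ∈ T, ∃ (v : ℕ → V) (m : ℕ), v 1 = u ∧ UTail G U v m t) ∨
      ∃ D : Finset V, u ∈ D ∧ (∀ y ∈ D, y ∈ U) ∧ (∀ y ∈ D, ∀ w, G.Adj y w → w ∈ D ∨ (w ∉ U ∧ w ∉ T)) := by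
  classical
  by_cases hex : ∃ t ∈ T, ∃ (v : ℕ → V) (m : ℕ), v 1 = u ∧ UTail G U v m t
  · exact Or.inl hex
  right
  let P : V → Prop := fun y => ∃ (v : ℕ → V) (m : ℕ), v 1 = u ∧ 1 ≤ m ∧ (∀ k, 1 ≤ k → k ≤ m → v k ∈ U) ∧
    (∀ k, 1 ≤ k → k < m → G.Adj (v k) (v (k + 1))) ∧ v m = y
  refine ⟨univ.filter P, ?_, ?_, ?_⟩
  · rw [mem_filter]
    exact ⟨mem_univ _, fun _ => u, 1, rfl, le_rfl, fun _ _ _ => hu, fun k h1 h2 => by omega, rfl⟩
  · intro y hy
    rw [mem_filter] at hy
    obtain ⟨v, m, _, h2, h3, _, rfl⟩ := hy.2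
    exact h3 m h2 le_rfl
  · intro y hy w hw
    rw [mem_filter] at hy
    obtain ⟨v, m, h1, h2, h3, h4, rfl⟩ := hy.2
    by_cases hwU : w ∈ U
    · left
      rw [mem_filter]
      refine ⟨mem_univ _, fun k => if k ≤ m then v k else w, m + 1, by simp [h2, h1], by omega, ?_, ?_, by simp⟩
      · intro k h5 h6
        by_cases h7 : k ≤ m
        · simpa [h7] using h3 k h5 h7
        · simpa [h7] using hwU
      · intro k h5 h6
        by_cases h7 : k < m
        · simpa [h7.le, show k + 1 ≤ m from h7] using h4 k h5 h7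
        · have h8 : k = m := by omega
          subst h8
          simpa using hw
    · right
      refine ⟨hwU, fun hwT => hex ⟨w, hwT, v, m, h1, h2, h3, h4, hw⟩⟩

/-- three times the sum of a region -/
theorem three_kk (c : V → Bool) (D : Finset V) (h3 : ∀ y ∈ D, G.degree y = 3)
    (hc : ∀ y ∈ D, ∀ w, G.Adj y w → c w ≠ c y) :
    3 * kk c D = ∑ y ∈ D, sg (c y) * ((univ.filter fun w => G.Adj y w ∧ w ∉ D).card : ℤ) := by
  have h1 : ∀ y ∈ D, (3 : ℤ) * sg (c y) = sg (c y) * ((univ.filter fun w => G.Adj y w ∧ w ∉ D).card : ℤ) +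
      ∑ w ∈ D, (if G.Adj y w then sg (c y) else 0) := by
    intro y hy
    have h2 : (univ.filter fun w => G.Adj y w ∧ w ∉ D).card + (D.filter fun w => G.Adj y w).card = 3 := by
      rw [← h3 y hy, ← Star3.card_nb G y, ← card_union_of_disjoint]
      · congr 1
        ext w
        simp only [mem_union, mem_filter, mem_univ, true_and]
        tauto
      · rw [disjoint_left]
        intro w h4 h5
        simp only [mem_filter] at h4 h5
        exact h4.2.2 h5.1
    have h4 : ∑ w ∈ D, (if G.Adj y w then sg (c y) else 0) = ((D.filter fun w => G.Adj y w).card : ℤ) * sg (c y) := by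
      rw [← sum_filter, sum_const, nsmul_eq_mul]
    rw [h4]
    have h5 : ((univ.filter fun w => G.Adj y w ∧ w ∉ D).card : ℤ) + ((D.filter fun w => G.Adj y w).card : ℤ) = 3 := by
      exact_mod_cast h2
    rw [← h5]
    ring
  have h2 : ∑ y ∈ D, ∑ w ∈ D, (if G.Adj y w then sg (c y) else 0) = (0 : ℤ) := by
    have h4 : ∑ y ∈ D, ∑ w ∈ D, (if G.Adj y w then sg (c y) else 0) =
        ∑ y ∈ D, ∑ w ∈ D, (if G.Adj y w then sg (c w) else (0 : ℤ)) := by
      rw [sum_comm]
      refine sum_congr rfl fun y _ => sum_congr rfl fun w _ => ?_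
      simp only [G.adj_comm w y]
    have h5 : ∑ y ∈ D, ∑ w ∈ D, (if G.Adj y w then sg (c y) else (0 : ℤ)) +
        ∑ y ∈ D, ∑ w ∈ D, (if G.Adj y w then sg (c w) else (0 : ℤ)) = 0 := by
      rw [← sum_add_distrib]
      refine sum_eq_zero fun y hy => ?_
      rw [← sum_add_distrib]
      refine sum_eq_zero fun w hw => ?_
      by_cases h6 : G.Adj y w
      · have h7 := hc y hy w h6
        simp only [h6, if_true]
        cases h8 : c y <;> cases h9 : c w <;> simp_all [sg]
      · simp [h6]
    rw [← h4] at h5
    linarith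
  rw [kk, mul_sum, sum_congr rfl h1, sum_add_distrib, h2, add_zero]

/-- a region which sees only a positive vertex `p` and a negative vertex `q` -/
theorem kk_region (c : V → Bool) (D : Finset V) (h3 : ∀ y ∈ D, G.degree y = 3)
    (hc : ∀ y ∈ D, ∀ w, G.Adj y w → c w ≠ c y) {p q : V} (hp : p ∉ D) (hq : q ∉ D) (cp : c p = true)
    (cq : c q = false) (hcl : ∀ y ∈ D, ∀ w, G.Adj y w → w ∈ D ∨ w = p ∨ w = q) :
    3 * kk c D = ((D.filter fun y => G.Adj y q).card : ℤ) - ((D.filter fun y => G.Adj y p).card : ℤ) := by
  rw [three_kk c D h3 hc]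
  have hpq : p ≠ q := by
    rintro rfl
    rw [cp] at cq
    exact absurd cq (by decide)
  have h1 : ∀ y ∈ D, sg (c y) * ((univ.filter fun w => G.Adj y w ∧ w ∉ D).card : ℤ) =
      (if G.Adj y q then 1 else 0) - (if G.Adj y p then (1 : ℤ) else 0) := by
    intro y hy
    by_cases h4 : G.Adj y p
    · have h5 : c y = false := by
        have := hc y hy p h4
        rw [cp] at this
        cases h6 : c y
        · rfl
        · exact absurd h6.symm this
      have h6 : ¬ G.Adj y q := fun h7 => hc y hy q h7 (by rw [cq, h5])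
      have h7 : (univ.filter fun w => G.Adj y w ∧ w ∉ D) = {p} := by
        ext w
        simp only [mem_filter, mem_univ, true_and, mem_singleton]
        constructor
        · rintro ⟨h8, h9⟩
          rcases hcl y hy w h8 with h10 | h10 | h10
          · exact absurd h10 h9
          · exact h10
          · exact absurd (h10 ▸ h8) h6
        · rintro rfl
          exact ⟨h4, hp⟩
      simp [h7, h4, h6, h5, sg]
    · by_cases h5 : G.Adj y q
      · have h6 : c y = true := by
          have := hc y hy q h5
          rw [cq] at this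
          cases h6 : c y
          · exact absurd h6.symm this
          · rfl
        have h7 : (univ.filter fun w => G.Adj y w ∧ w ∉ D) = {q} := by
          ext w
          simp only [mem_filter, mem_univ, true_and, mem_singleton]
          constructor
          · rintro ⟨h8, h9⟩
            rcases hcl y hy w h8 with h10 | h10 | h10
            · exact absurd h10 h9
            · exact absurd (h10 ▸ h8) h4
            · exact h10
          · rintro rfl
            exact ⟨h5, hq⟩
        simp [h7, h4, h5, h6, sg]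
      · have h7 : (univ.filter fun w => G.Adj y w ∧ w ∉ D) = ∅ := by
          rw [filter_eq_empty_iff]
          rintro w _ ⟨h8, h9⟩
          rcases hcl y hy w h8 with h10 | h10 | h10
          · exact h9 h10
          · exact h4 (h10 ▸ h8)
          · exact h5 (h10 ▸ h8)
        simp [h7, h4, h5]
  rw [sum_congr rfl h1, sum_sub_distrib, sum_boole, sum_boole]

end Graph

namespace Star3

variable {G : SimpleGraph V} [DecidableRel G.Adj] {c : V → Bool} {x : V} {l a b : Fin 3 → V}
  (st : Star3 G c x l a b)
include st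

/-- an ordinary vertex without own neighbours: nonspecial, degree `3`, no own neighbour in the rest -/
def Uo (G : SimpleGraph V) [DecidableRel G.Adj] (c : V → Bool) (x : V) (l a b : Fin 3 → V) : Set V :=
  {v | v ∈ rest x l ∧ (∀ i, v ≠ a i ∧ v ≠ b i) ∧ G.degree v = 3 ∧ ownIn G c (rest x l) v = 0}

theorem nb_rest {v w : V} (hv : v ∈ rest x l) (hs : ∀ i, v ≠ a i ∧ v ≠ b i) (h : G.Adj v w) :
    w ∈ rest x l := by
  rw [mem_rest]
  refine ⟨?_, fun i => ?_⟩
  · rintro rfl
    obtain ⟨j, hj⟩ := (st.nx v).1 h.symm
    exact (mem_rest.1 hv).2 j hj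
  · rintro rfl
    rcases (st.nl i v).1 h.symm with h4 | h4 | h4
    · exact (mem_rest.1 hv).1 h4
    · exact (hs i).1 h4
    · exact (hs i).2 h4

/-- neighbours of ordinary vertices without own neighbours -/
theorem Uo_nb {v w : V} (hv : v ∈ Uo G c x l a b) (h : G.Adj v w) : w ∈ rest x l ∧ c w ≠ c v := by
  obtain ⟨h1, h2, h3, h4⟩ := hv
  have h5 := st.nb_rest h1 h2 h
  refine ⟨h5, fun h6 => ?_⟩
  rw [ownIn, card_eq_zero, filter_eq_empty_iff] at h4
  exact h4 h5 ⟨h, h6⟩

theorem Uo_col {v : V} (hv : v ∈ Uo G c x l a b) (w : V) (h : G.Adj v w) : c w ≠ c v := (st.Uo_nb hv h).2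

theorem b_ne {i : Fin 3} (hi : a i ≠ x) : b i ≠ x := fun h => hi ((st.a_eq_iff i).2 h)

/-- the rest-neighbours of a special have the other colour -/
theorem sp_col {v w : V} (hv : v ∈ rest x l) {i : Fin 3} (hi : v = a i ∨ v = b i) (hw : w ∈ rest x l)
    (h : G.Adj v w) : c w ≠ c v := by
  have h1 := st.ownIn_special hv hi
  rw [ownIn, card_eq_zero, filter_eq_empty_iff] at h1
  exact fun h2 => h1 hw ⟨h, h2⟩

/-- a region which sees the pair `i` by exactly two edges gives a solution -/
theorem region_one {i : Fin 3} (hi : a i ≠ x) {D : Finset V} (hD : ∀ y ∈ D, y ∈ Uo G c x l a b)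
    (hcl : ∀ y ∈ D, ∀ w, G.Adj y w → w ∈ D ∨ w = a i ∨ w = b i)
    (ha : (D.filter fun y => G.Adj y (a i)).card = 1) (hb : (D.filter fun y => G.Adj y (b i)).card = 1)
    (hab : ¬ G.Adj (a i) (b i))
    (hoth : ∀ w ∈ rest x l, G.Adj (a i) w → w ∉ D → G.degree w = 3 ∧ ownIn G c (rest x l) w = 0) :
    ∃ d : V → Bool, Valid3 G d ∧ sgn true d = 0 := by
  have hbi := st.b_ne hi
  have haR := st.a_rest i hi
  have hbR := st.b_rest i hbi
  have haD : a i ∉ D := fun h => ((hD _ h).2.1 i).1 rfl
  have hbD : b i ∉ D := fun h => ((hD _ h).2.1 i).2 rfl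
  have hkk : kk c D = 0 := by
    have := kk_region c D (fun y hy => (hD y hy).2.2.1) (fun y hy w h => st.Uo_col (hD y hy) w h) haD hbD
      (st.ca i hi) (st.cb i hbi) hcl
    rw [ha, hb] at this
    omega
  have hS : insert (a i) D ⊆ rest x l := by
    intro y hy
    rcases mem_insert.1 hy with rfl | hy
    · exact haR
    · exact (hD y hy).1
  have hsp : ∀ j, a j ≠ x → j ≠ i → a j ∉ insert (a i) D := by
    intro j hj hji h
    rcases mem_insert.1 h with h | h
    · exact hji (st.a_inj j i h hj)
    · exact ((hD _ h).2.1 j).1 rfl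
  have hbS : ∀ j, b j ≠ x → b j ∉ insert (a i) D := by
    intro j hj h
    rcases mem_insert.1 h with h | h
    · exact st.a_ne_b' i hi j h.symm
    · exact ((hD _ h).2.1 j).2 rfl
  have hbS' : ∀ j, b j ∉ insert (a i) D := by
    intro j h
    by_cases hj : b j = x
    · exact st.x_notMem hS (hj ▸ h)
    · exact hbS j hj h
  refine ⟨_, st.table_local hS false ?_ ?_ ?_ ?_⟩
  · right
    have hbeta : beta a b (insert (a i) D) = 0 := by
      rw [beta, card_eq_zero, filter_eq_empty_iff]
      rintro j _ ⟨_, h2⟩
      exact hbS' j h2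
    refine ⟨rfl, by omega, ?_⟩
    rw [kk, sum_insert haD]
    have : kk c D = ∑ v ∈ D, sg (c v) := rfl
    rw [← this, hkk, hbeta, st.ca i hi]
    simp [sg]
  · intro v hv
    have hmS : ∀ y, y ∈ D → y ∈ insert (a i) D := fun y hy => mem_insert_of_mem hy
    rcases mem_insert.1 hv with rfl | hvD
    · obtain ⟨y, hy⟩ := card_pos.1 (by omega : 0 < (D.filter fun y => G.Adj y (a i)).card)
      rw [mem_filter] at hy
      refine st.cost_lt_of_one haR (Or.inl rfl) (hD y hy.1).1 hy.2.symm ?_
      have h1 := st.Uo_col (hD y hy.1) _ hy.2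
      simp only [flips, hv, hmS y hy.1, if_true]
      intro h2
      exact h1 (by simpa using h2.symm)
    · rw [(hD v hvD).2.2.1]
      have h1 : cost G c x l (insert (a i) D) v ≤ 1 := by
        rw [cost_eq, ownIn]
        refine (card_le_card (t := {b i}) fun w hw => ?_).trans (by simp)
        rw [mem_filter] at hw
        obtain ⟨h2, h3, h4⟩ := hw
        rw [mem_singleton]
        rcases hcl v hvD w h3 with h5 | h5 | h5
        · exfalso
          have h6 := st.Uo_col (hD v hvD) w h3
          simp only [flips, hv, hmS w h5, if_true] at h4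
          exact h6 (by simpa using h4)
        · exfalso
          have h6 := st.Uo_col (hD v hvD) w h3
          have h7 : w ∈ insert (a i) D := by rw [h5]; exact mem_insert_self _ _
          simp only [flips, hv, h7, if_true] at h4
          exact h6 (by simpa using h4)
        · exact h5
      omega
  · intro v hv hvS hex
    obtain ⟨w, hw, hvw⟩ := hex
    by_cases hvb : v = b i
    · subst hvb
      rw [st.deg_b i hbi]
      have h1 : cost G c x l (insert (a i) D) (b i) ≤ 1 := by
        rw [cost_eq, ownIn]
        refine le_trans (card_le_card (t := D.filter fun y => G.Adj y (b i)) fun w hw => ?_) hb.le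
        rw [mem_filter] at hw ⊢
        obtain ⟨h2, h3, h4⟩ := hw
        have h5 := st.sp_col hbR (Or.inr rfl) h2 h3
        by_cases h6 : w ∈ insert (a i) D
        · rcases mem_insert.1 h6 with h7 | h7
          · exact absurd (h7 ▸ h3.symm) hab
          · exact ⟨h7, h3.symm⟩
        · exfalso
          simp only [flips, hvS, h6, if_false] at h4
          exact h5 h4
      omega
    · have hvD : v ∉ D := fun h => hvS (mem_insert_of_mem h)
      have hva : v ≠ a i := fun h => hvS (by rw [h]; exact mem_insert_self _ _)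
      have hno : ∀ y ∈ D, ¬ G.Adj v y := by
        intro y hy h
        rcases hcl y hy v h.symm with h1 | h1 | h1
        · exact hvD h1
        · exact hva h1
        · exact hvb h1
      have hwa : w = a i := by
        rcases mem_insert.1 hw with h | h
        · exact h
        · exact absurd hvw (hno w h)
      subst hwa
      obtain ⟨h1, h2⟩ := hoth v hv hvw.symm hvD
      rw [h1]
      rw [ownIn, card_eq_zero, filter_eq_empty_iff] at h2
      have h3 : cost G c x l (insert (a i) D) v ≤ 1 := by
        rw [cost_eq, ownIn]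
        refine (card_le_card (t := {a i}) fun u hu => ?_).trans (by simp)
        rw [mem_filter] at hu
        rw [mem_singleton]
        obtain ⟨h4, h5, h6⟩ := hu
        by_cases h7 : u ∈ insert (a i) D
        · rcases mem_insert.1 h7 with h8 | h8
          · exact h8
          · exact absurd h5 (hno u h8)
        · exfalso
          simp only [flips, hvS, h7, if_false] at h6
          exact h2 h4 ⟨h5, h6⟩
      omega
  · intro j hj hji hex
    exfalso
    have hjne : j ≠ i := by
      rintro rfl
      exact hbS' j (hji.1 (mem_insert_self _ _))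
    have hjS := hsp j hj hjne
    have he : expo a b (insert (a i) D) false j = a j := by
      simp [expo, hjS]
    rw [he] at hex
    rcases hex with h | ⟨w, hw, h⟩
    · exact hjS h
    · rcases mem_insert.1 hw with h1 | h1
      · have h2 := st.own_a j hj w (h1 ▸ haR) h
        rw [h1, st.ca i hi] at h2
        exact absurd h2 (by decide)
      · rcases hcl w h1 (a j) h.symm with h2 | h2 | h2
        · exact hjS (mem_insert_of_mem h2)
        · exact hjne (st.a_inj j i h2 hj)
        · exact st.a_ne_b' j hj i h2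

/-- a region which sees all rest-neighbours of a pair, the other rest-neighbour being possibly the partner:
the edge `l i - x` is the only one leaving `{l i, a i, b i} ∪ D` -/
theorem region_cut {i : Fin 3} (hi : a i ≠ x) {D : Finset V} (hD : ∀ y ∈ D, y ∈ Uo G c x l a b)
    (hcl : ∀ y ∈ D, ∀ w, G.Adj y w → w ∈ D ∨ w = a i ∨ w = b i)
    (ha : ∀ w ∈ rest x l, G.Adj (a i) w → w ∈ D ∨ w = b i)
    (hb : ∀ w ∈ rest x l, G.Adj (b i) w → w ∈ D ∨ w = a i) :
    Pool.BLE.SoleCut G (insert (l i) (insert (a i) (insert (b i) D))) (l i) x := by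
  have hbi := st.b_ne hi
  have haR := st.a_rest i hi
  have hbR := st.b_rest i hbi
  have hout : ∀ v, (v = a i ∨ v = b i) → ∀ w, G.Adj v w → w = l i ∨ w ∈ rest x l := by
    intro v hv w h
    by_cases hw : w ∈ rest x l
    · exact Or.inr hw
    · left
      have hvR : v ∈ rest x l := by rcases hv with rfl | rfl <;> assumption
      rw [mem_rest] at hw
      have hwx : w ≠ x := by
        intro h6
        rw [h6] at h
        obtain ⟨j, hj⟩ := (st.nx v).1 h.symm
        exact (mem_rest.1 hvR).2 j hj
      have hwl : ∃ j, w = l j := by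
        by_contra h4
        exact hw ⟨hwx, fun j h5 => h4 ⟨j, h5⟩⟩
      obtain ⟨j, rfl⟩ := hwl
      have h4 := (st.nl j v).1 h.symm
      have hvx : v ≠ x := (mem_rest.1 hvR).1
      have h5 : v = a j ∨ v = b j := by
        rcases h4 with h4 | h4
        · exact absurd h4 hvx
        · exact h4
      rw [st.leaf_unique hvx hv h5]
  refine ⟨mem_insert_self _ _, ?_, ((st.nx _).2 ⟨i, rfl⟩).symm, ?_⟩
  · intro h
    rcases mem_insert.1 h with h | h
    · exact st.l_ne_x i h.symm
    rcases mem_insert.1 h with h | h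
    · exact hi h.symm
    rcases mem_insert.1 h with h | h
    · exact hbi h.symm
    · exact (mem_rest.1 (hD _ h).1).1 rfl
  · intro u hu v hv h
    simp only [mem_insert, not_or] at hv
    rcases mem_insert.1 hu with rfl | hu
    · rcases (st.nl i v).1 h with h1 | h1 | h1
      · exact ⟨rfl, h1⟩
      · exact absurd h1 hv.2.1
      · exact absurd h1 hv.2.2.1
    exfalso
    rcases mem_insert.1 hu with rfl | hu
    · rcases hout _ (Or.inl rfl) v h with h1 | h1
      · exact hv.1 h1
      · rcases ha v h1 h with h2 | h2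
        · exact hv.2.2.2 h2
        · exact hv.2.2.1 h2
    rcases mem_insert.1 hu with rfl | hu
    · rcases hout _ (Or.inr rfl) v h with h1 | h1
      · exact hv.1 h1
      · rcases hb v h1 h with h2 | h2
        · exact hv.2.2.2 h2
        · exact hv.2.1 h2
    · rcases hcl u hu v h with h1 | h1 | h1
      · exact hv.2.2.2 h1
      · exact hv.2.1 h1
      · exact hv.2.2.1 h1

/-- **Region lemma.** A nonempty region of ordinary vertices which sees only the pair `i`, and sees `a i`,
where the other rest-neighbour of `a i` has degree `3` and no own neighbour: solution or bridge. -/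
theorem region {i : Fin 3} (hi : a i ≠ x) {D : Finset V} (hD : ∀ y ∈ D, y ∈ Uo G c x l a b)
    (hcl : ∀ y ∈ D, ∀ w, G.Adj y w → w ∈ D ∨ w = a i ∨ w = b i) {u : V} (huD : u ∈ D) (hu : G.Adj u (a i))
    (hoth : ∀ w ∈ rest x l, G.Adj (a i) w → w ∉ D → G.degree w = 3 ∧ ownIn G c (rest x l) w = 0) :
    (∃ d : V → Bool, Valid3 G d ∧ sgn true d = 0) ∨
      Pool.BLE.SoleCut G (insert (l i) (insert (a i) (insert (b i) D))) (l i) x := by
  have hbi := st.b_ne hi
  have haR := st.a_rest i hi
  have hbR := st.b_rest i hbi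
  have haD : a i ∉ D := fun h => ((hD _ h).2.1 i).1 rfl
  have hbD : b i ∉ D := fun h => ((hD _ h).2.1 i).2 rfl
  have hkk := kk_region c D (fun y hy => (hD y hy).2.2.1) (fun y hy w h => st.Uo_col (hD y hy) w h) haD hbD
      (st.ca i hi) (st.cb i hbi) hcl
  have hle : ∀ v, (v = a i ∨ v = b i) → v ∈ rest x l → (D.filter fun y => G.Adj y v).card ≤ 2 := by
    intro v hv hvR
    rw [← st.deg_special hvR hv]
    refine card_le_card fun y hy => ?_
    rw [mem_filter] at hy ⊢
    exact ⟨(hD y hy.1).1, hy.2.symm⟩
  have h1 := hle _ (Or.inl rfl) haR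
  have h2 := hle _ (Or.inr rfl) hbR
  have h3 : 0 < (D.filter fun y => G.Adj y (a i)).card := card_pos.2 ⟨u, by simp [huD, hu]⟩
  have hfull : ∀ v, (v = a i ∨ v = b i) → v ∈ rest x l → (D.filter fun y => G.Adj y v).card = 2 →
      ∀ w ∈ rest x l, G.Adj v w → w ∈ D := by
    intro v hv hvR h4 w hw h5
    have h6 : (D.filter fun y => G.Adj y v) = (rest x l).filter fun w => G.Adj v w := by
      refine eq_of_subset_of_card_le (fun y hy => ?_) ?_
      · rw [mem_filter] at hy ⊢
        exact ⟨(hD y hy.1).1, hy.2.symm⟩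
      · rw [st.deg_special hvR hv, h4]
    have h7 : w ∈ D.filter fun y => G.Adj y v := by
      rw [h6, mem_filter]
      exact ⟨hw, h5⟩
    exact (mem_filter.1 h7).1
  by_cases hab : G.Adj (a i) (b i)
  · right
    -- both have the partner as neighbour
    have h4 : ∀ v v', ((v = a i ∧ v' = b i) ∨ (v = b i ∧ v' = a i)) → ∀ y ∈ D, G.Adj y v →
        ∀ w ∈ rest x l, G.Adj v w → w ∈ D ∨ w = v' := by
      intro v v' hvv y hy h5 w hw h6
      by_contra h7
      push Not at h7
      have hv : v = a i ∨ v = b i := by rcases hvv with ⟨h, _⟩ | ⟨h, _⟩ <;> simp [h]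
      have hvR : v ∈ rest x l := by rcases hv with h | h <;> rw [h] <;> assumption
      have hvR' : v' ∈ rest x l := by rcases hvv with ⟨_, h⟩ | ⟨_, h⟩ <;> rw [h] <;> assumption
      have hadj : G.Adj v v' := by
        rcases hvv with ⟨h, h'⟩ | ⟨h, h'⟩
        · rw [h, h']; exact hab
        · rw [h, h']; exact hab.symm
      have hv'D : v' ∉ D := by rcases hvv with ⟨_, h⟩ | ⟨_, h⟩ <;> rw [h] <;> assumption
      have h8 := st.deg_special hvR hv
      have h9 : ({y, w, v'} : Finset V) ⊆ (rest x l).filter fun w => G.Adj v w := by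
        intro z hz
        simp only [mem_insert, mem_singleton] at hz
        rw [mem_filter]
        rcases hz with rfl | rfl | rfl
        · exact ⟨(hD z hy).1, h5.symm⟩
        · exact ⟨hw, h6⟩
        · exact ⟨hvR', hadj⟩
      have h10 := card_le_card h9
      rw [card_insert_of_notMem, card_pair h7.2] at h10
      · omega
      · simp only [mem_insert, mem_singleton, not_or]
        exact ⟨fun h => h7.1 (h ▸ hy), fun h => hv'D (h ▸ hy)⟩
    have h5 : 0 < (D.filter fun y => G.Adj y (b i)).card := by
      by_contra h6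
      have h7 : (D.filter fun y => G.Adj y (b i)).card = 0 := by omega
      rw [h7] at hkk
      omega
    obtain ⟨y, hy⟩ := card_pos.1 h5
    rw [mem_filter] at hy
    exact st.region_cut hi hD hcl (h4 _ _ (Or.inl ⟨rfl, rfl⟩) u huD hu) (h4 _ _ (Or.inr ⟨rfl, rfl⟩) y hy.1 hy.2)
  · have h4 : ((D.filter fun y => G.Adj y (a i)).card = 1 ∧ (D.filter fun y => G.Adj y (b i)).card = 1) ∨
        ((D.filter fun y => G.Adj y (a i)).card = 2 ∧ (D.filter fun y => G.Adj y (b i)).card = 2) := by
      omega
    rcases h4 with ⟨h5, h6⟩ | ⟨h5, h6⟩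
    · exact Or.inl (st.region_one hi hD hcl h5 h6 hab hoth)
    · exact Or.inr (st.region_cut hi hD hcl (fun w hw h => Or.inl (hfull _ (Or.inl rfl) haR h5 w hw h))
        (fun w hw h => Or.inl (hfull _ (Or.inr rfl) hbR h6 w hw h)))

end Star3

end Pool.Agent.BLN
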