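import Pool.Agent.BLN.LabTools
import Pool.Agent.BLN.Pth.Region

/-!
# Least-energy stars

`LS G c x l a b` : a star whose two star colourings lie two edges below the critical energy.
`LS.swap` (exchange of the colours), `LS.perm`, `LS.fr` (the frame), `Fr.ls`, `LS.neutral`
(the neutral flip of an adjacent pair of non-special vertices with own neighbours, or of such a
vertex and a pendant) and `LS.pair_special` (adjacent specials of two different pairs).
-/

set_option autoImplicit false
set_option linter.unusedSectionVars false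

namespace Pool.Agent.BLN

open Finset Pool.Agent.IVT

variable {V : Type} [Fintype V] [DecidableEq V]

/-- A least-energy star. -/
structure LS (G : SimpleGraph V) [DecidableRel G.Adj] (c : V → Bool) (x : V) (l a b : Fin 3 → V) :
    Prop where
  star : Star3 G c x l a b
  en : ∃ h, Crit3 G h ∧ ∀ t, En G (starCol c x l t) + 4 = En G h

section

variable {G : SimpleGraph V} [DecidableRel G.Adj] {c : V → Bool} {x : V} {l a b : Fin 3 → V}

theorem starCol_neg (c : V → Bool) (x : V) (l : Fin 3 → V) (t : Bool) :
    starCol (neg c) x l t = neg (starCol c x l (!t)) := by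
  funext v
  by_cases h1 : v = x
  · simp [starCol, neg, h1]
  · by_cases h2 : ∃ i, v = l i
    · simp only [starCol, neg, if_neg h1, if_pos h2, Bool.not_not]
    · simp only [starCol, neg, if_neg h1, if_neg h2]

theorem starCol_perm (c : V → Bool) (x : V) (l : Fin 3 → V) (σ : Equiv.Perm (Fin 3)) (t : Bool) :
    starCol c x (l ∘ σ) t = starCol c x l t := by
  funext v
  have h : (∃ i, v = (l ∘ σ) i) ↔ ∃ i, v = l i :=
    ⟨fun ⟨i, h⟩ => ⟨σ i, h⟩, fun ⟨i, h⟩ => ⟨σ.symm i, by simpa using h⟩⟩
  unfold starCol
  simp only [h]

theorem LS.swap (h : LS G c x l a b) : LS G (neg c) x l b a where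
  star := h.star.neg
  en := by
    obtain ⟨d, hd, he⟩ := h.en
    refine ⟨d, hd, fun t => ?_⟩
    rw [starCol_neg, En_neg]
    exact he _

theorem LS.perm (h : LS G c x l a b) (σ : Equiv.Perm (Fin 3)) :
    LS G c x (l ∘ σ) (a ∘ σ) (b ∘ σ) where
  star := h.star.perm σ
  en := by
    obtain ⟨d, hd, he⟩ := h.en
    refine ⟨d, hd, fun t => ?_⟩
    rw [starCol_perm]
    exact he t

/-- The frame of a least-energy star. -/
theorem LS.fr (h : LS G c x l a b) : Fr G (starCol c x l false) x l a b := by
  obtain ⟨d, hd, he⟩ := h.en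
  refine ⟨h.star.congr (fun v hv => ?_), ?_, fun i => ?_, d, hd, he false⟩
  · rw [h.star.starCol_eq, sc_rest hv]
  · simp [starCol]
  · rw [h.star.starCol_eq, h.star.sc_l]
    rfl

/-- A frame is a least-energy star. -/
theorem Fr.ls {g : V → Bool} (h : Fr G g x l a b) : LS G g x l a b where
  star := h.star
  en := by
    obtain ⟨d, hd, he⟩ := h.en
    refine ⟨d, hd, fun t => ?_⟩
    have h1 := h.star.en_sc t (fun _ => !t)
    rw [h.eq_sc] at h1
    have h2 : nm t (fun _ => !t) = 0 := by cases t <;> decide
    rw [h2] at h1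
    rw [h.star.starCol_eq]
    push_cast at h1
    omega

theorem LS.of_congr {c' : V → Bool} (h : LS G c x l a b) (hc : ∀ v ∈ rest x l, c' v = c v) :
    LS G c' x l a b where
  star := h.star.congr hc
  en := by
    obtain ⟨d, hd, he⟩ := h.en
    refine ⟨d, hd, fun t => ?_⟩
    have h1 : starCol c' x l t = starCol c x l t := by
      funext v
      by_cases h1 : v = x
      · simp [starCol, h1]
      · by_cases h2 : ∃ i, v = l i
        · simp only [starCol, if_neg h1, if_pos h2]
        · simp only [starCol, if_neg h1, if_neg h2]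
          refine hc v (mem_rest.2 ⟨h1, fun i h3 => h2 ⟨i, h3⟩⟩)
    rw [h1]
    exact he t

/-- own neighbours of a vertex of the rest which is not special, in every star state -/
theorem Star3.bad_rest (st : Star3 G c x l a b) {d : V → Bool} (hd : ∀ w ∈ rest x l, d w = c w)
    {v : V} (hv : v ∈ rest x l) (hs : ∀ i, v ≠ a i ∧ v ≠ b i) :
    (bad G d v).card = ownIn G c (rest x l) v := by
  unfold ownIn
  congr 1
  ext w
  rw [mem_bad, mem_filter]
  constructor
  · rintro ⟨h1, h2⟩
    have hw : w ∈ rest x l := by
      rw [mem_rest]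
      refine ⟨?_, fun i => ?_⟩
      · rintro rfl
        obtain ⟨j, hj⟩ := (st.nx v).1 h1.symm
        exact (mem_rest.1 hv).2 j hj
      · rintro rfl
        rcases (st.nl i v).1 h1.symm with h4 | h4 | h4
        · exact (mem_rest.1 hv).1 h4
        · exact (hs i).1 h4
        · exact (hs i).2 h4
    exact ⟨hw, h1, by rw [← hd w hw, ← hd v hv, h2]⟩
  · rintro ⟨hw, h1, h2⟩
    exact ⟨h1, by rw [hd w hw, hd v hv, h2]⟩

/-- a vertex with an own neighbour in the rest, or a pendant, is not special -/
theorem Star3.ne_special (st : Star3 G c x l a b) {v : V} (hv : v ∈ rest x l)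
    (h : 1 ≤ ownIn G c (rest x l) v ∨ G.degree v = 1) (i : Fin 3) : v ≠ a i ∧ v ≠ b i := by
  by_contra hcon
  have h1 : v = a i ∨ v = b i := by tauto
  rcases h with h | h
  · rw [st.ownIn_special hv h1] at h
    omega
  · rw [st.special_deg hv h1] at h
    omega

/-- A colouring which has the colours of the specials, star colourings of at most the old energy, and the
right labels, gives the same star. -/
theorem Star3.of_lab (hG : Deg13 G) (hB : NoBal3 G) (hC : C4Free G) (st : Star3 G c x l a b)
    {h : V → Bool} (hh : Crit3 G h) {c' : V → Bool} (ca : ∀ i, a i ≠ x → c' (a i) = true)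
    (cb : ∀ i, b i ≠ x → c' (b i) = false) (hE : En G (starCol c' x l true) + 4 ≤ En G h)
    (hL : ∀ t, Lab3 G (!t) (starCol c' x l t)) :
    Star3 G c' x l a b ∧ En G (starCol c' x l true) + 4 = En G h := by
  have h01 : l 0 ≠ l 1 := fun h => by simpa using st.l_inj h
  have h02 : l 0 ≠ l 2 := fun h => by simpa using st.l_inj h
  have h12 : l 1 ≠ l 2 := fun h => by simpa using st.l_inj h
  have hx0 := st.l_ne_x 0
  have hx1 := st.l_ne_x 1
  have hx2 := st.l_ne_x 2
  -- colours of the star states of `c'`
  have hst : ∀ t, starCol c' x l t = sc c' x l t (fun _ => !t) := by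
    intro t
    funext v
    rcases st.cases v with rfl | ⟨j, rfl⟩ | hv
    · simp [starCol, sc]
    · have := st.l_ne_x j
      fin_cases j
      · simp [starCol, sc, hx0]
      · simp [starCol, sc, hx1, h01.symm]
      · simp [starCol, sc, hx2, h02.symm, h12.symm]
    · rw [sc_rest hv]
      have h1 := (mem_rest.1 hv).1
      have h2 : ¬ ∃ i, v = l i := fun ⟨i, h⟩ => (mem_rest.1 hv).2 i h
      simp [starCol, h1, h2]
  have scl : ∀ ξ m i, sc c' x l ξ m (l i) = m i := by
    intro ξ m i
    fin_cases i
    · simp [sc, hx0]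
    · simp [sc, hx1, h01.symm]
    · simp [sc, hx2, h02.symm, h12.symm]
  have fl : ∀ ξ m i, flip (sc c' x l ξ m) (l i) = sc c' x l ξ (Function.update m i (!m i)) := by
    intro ξ m i
    funext v
    rcases st.cases v with rfl | ⟨j, rfl⟩ | hv
    · rw [flip_ne _ (st.l_ne_x i).symm, sc_x, sc_x]
    · by_cases hj : j = i
      · subst hj
        rw [flip_same, scl, scl, Function.update_self]
      · rw [flip_ne _ (fun h => hj (st.l_inj h)), scl, scl, Function.update_of_ne hj]
    · rw [flip_ne _ ((mem_rest.1 hv).2 i), sc_rest hv, sc_rest hv]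
  have fx : ∀ ξ m, flip (sc c' x l ξ m) x = sc c' x l (!ξ) m := by
    intro ξ m
    funext v
    rcases st.cases v with rfl | ⟨j, rfl⟩ | hv
    · rw [flip_same, sc_x, sc_x]
    · rw [flip_ne _ (st.l_ne_x j), scl, scl]
    · rw [flip_ne _ (mem_rest.1 hv).1, sc_rest hv, sc_rest hv]
  have sca : ∀ ξ m i, a i ≠ x → sc c' x l ξ m (a i) = true := by
    intro ξ m i hi
    rw [sc_rest (st.a_rest i hi), ca i hi]
  have scb : ∀ ξ m i, a i ≠ x → sc c' x l ξ m (b i) = false := by
    intro ξ m i hi
    have hb : b i ≠ x := fun h => hi ((st.a_eq_iff i).2 h)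
    rw [sc_rest (st.b_rest i hb), cb i hb]
  have hlx : ∀ i, G.Adj (l i) x := fun i => (st.l_adj i).symm
  have hla : ∀ i, G.Adj (l i) (a i) := fun i => (st.nl i _).2 (Or.inr (Or.inl rfl))
  have hlb : ∀ i, G.Adj (l i) (b i) := fun i => (st.nl i _).2 (Or.inr (Or.inr rfl))
  -- costs of leaf flips
  have up : ∀ ξ m i, 1 ≤ (bad G (sc c' x l ξ m) (l i)).card ∨ G.degree (l i) = 1 := by
    intro ξ m i
    by_cases hi : a i = x
    · exact Or.inr (st.deg_pl i hi)
    · left
      cases hm : m i
      · exact own_ge_one (hlb i) (by rw [scl, scb _ _ _ hi, hm])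
      · exact own_ge_one (hla i) (by rw [scl, sca _ _ _ hi, hm])
  have dn : ∀ ξ m i, m i = ξ → Fp G (sc c' x l ξ m) (l i) := by
    intro ξ m i hm
    by_cases hi : a i = x
    · exact fp_of_two hG (Or.inr ⟨st.deg_pl i hi, own_ge_one (hlx i) (by rw [scl, sc_x, hm])⟩)
    · have hb : b i ≠ x := fun h => hi ((st.a_eq_iff i).2 h)
      refine fp_of_two hG (Or.inl ?_)
      cases hm' : m i
      · exact own_ge_two (hlx i) (hlb i) hb.symm (by rw [scl, sc_x, hm]) (by rw [scl, scb _ _ _ hi, hm'])
      · exact own_ge_two (hlx i) (hla i) (Ne.symm hi) (by rw [scl, sc_x, hm]) (by rw [scl, sca _ _ _ hi, hm'])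
  -- the saddle
  have e1 : flip (sc c' x l true (fun _ => false)) (l 0) = sc c' x l true ![true, false, false] := by
    rw [fl]
    congr 1
    funext i
    fin_cases i <;> simp [Function.update]
  have e2 : flip (sc c' x l true ![true, false, false]) (l 1) = sc c' x l true ![true, true, false] := by
    rw [fl]
    congr 1
    funext i
    fin_cases i <;> simp [Function.update]
  have e3 : flip (sc c' x l true ![true, true, false]) (l 1) = sc c' x l true ![true, false, false] := by
    rw [← e2, IVT.flip_flip]
  have e4 : flip (sc c' x l true ![true, false, false]) (l 0) = sc c' x l true (fun _ => false) := by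
    rw [← e1, IVT.flip_flip]
  have e5 : flip (sc c' x l true ![true, true, false]) x = sc c' x l false ![true, true, false] := fx _ _
  have e6 : flip (sc c' x l false ![true, true, false]) (l 2) = sc c' x l false (fun _ => true) := by
    rw [fl]
    congr 1
    funext i
    fin_cases i <;> simp [Function.update]
  have en1 : En G (sc c' x l true ![true, true, false]) ≤ En G h := by
    have h1 := en_up hG (d := sc c' x l true (fun _ => false)) (v := l 0) (up _ _ _).symm
    have h2 := en_up hG (d := sc c' x l true ![true, false, false]) (v := l 1) (up _ _ _).symm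
    rw [e1] at h1
    rw [e2] at h2
    rw [hst true] at hE
    simp only [Bool.not_true] at hE
    omega
  have hLt : Lab3 G false (sc c' x l true (fun _ => false)) := by
    have := hL true
    rw [hst true] at this
    simpa using this
  have hLf : Lab3 G true (sc c' x l false (fun _ => true)) := by
    have := hL false
    rw [hst false] at this
    simpa using this
  have f1 : Fp G (sc c' x l true ![true, true, false]) (l 1) := dn _ _ _ rfl
  have f2 : Fp G (sc c' x l true ![true, false, false]) (l 0) := dn _ _ _ rfl
  have f3 : Fp G (sc c' x l true ![true, true, false]) x :=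
    fp_of_two hG (Or.inl (own_ge_two (st.l_adj 0) (st.l_adj 1) h01 (by rw [scl, sc_x]; rfl)
      (by rw [scl, sc_x]; rfl)))
  have f4 : Fp G (sc c' x l false ![true, true, false]) (l 2) := dn _ _ _ rfl
  have f5 : Fp G (sc c' x l true ![true, true, false]) (l 0) := dn _ _ _ rfl
  have L1 : Lab3 G false (sc c' x l true ![true, true, false]) := by
    refine Lab3.of_reach G hLt ?_
    have r1 := Reach3.one G f1
    have r2 := Reach3.one G f2
    rw [e3] at r1
    rw [e4] at r2
    exact r1.trans G r2
  have L2 : Lab3 G true (sc c' x l true ![true, true, false]) := by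
    refine Lab3.of_reach G hLf ?_
    have r1 := Reach3.one G f3
    have r2 := Reach3.one G f4
    rw [e5] at r1
    rw [e6] at r2
    exact r1.trans G r2
  have hcr : Crit3 G (sc c' x l true ![true, true, false]) := hh.of G en1 true L2 L1
  obtain ⟨l', a', b', st', h0, h1, -⟩ := crit_at hG hB hC hcr f3 f5 f1 (st.l_adj 0) (st.l_adj 1) h01
  have hl2 : l' 2 = l 2 := by
    obtain ⟨i, hi⟩ := (st.nx (l' 2)).1 (st'.l_adj 2)
    fin_cases i
    · exfalso
      have h5 : l' 2 = l' 0 := by rw [h0]; exact hi
      simpa using st'.l_inj h5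
    · exfalso
      have h5 : l' 2 = l' 1 := by rw [h1]; exact hi
      simpa using st'.l_inj h5
    · exact hi
  have hl : l' = l := by
    funext i
    fin_cases i
    · exact h0
    · exact h1
    · exact hl2
  subst hl
  have hnb : ∀ i v, (v = x ∨ v = a' i ∨ v = b' i) ↔ (v = x ∨ v = a i ∨ v = b i) := by
    intro i v
    rw [← st'.nl i v, st.nl i v]
  have hab : ∀ i, a' i = a i ∧ b' i = b i := by
    intro i
    by_cases hi : a i = x
    · have hb : b i = x := (st.a_eq_iff i).1 hi
      have h5 := (hnb i (a' i)).1 (Or.inr (Or.inl rfl))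
      have h6 := (hnb i (b' i)).1 (Or.inr (Or.inr rfl))
      rw [hi, hb] at h5 h6 ⊢
      tauto
    · have hb : b i ≠ x := fun h => hi ((st.a_eq_iff i).2 h)
      have ha' : a' i ≠ x := by
        intro h5
        have hb' : b' i = x := (st'.a_eq_iff i).1 h5
        have h6 := (hnb i (a i)).2 (Or.inr (Or.inl rfl))
        rw [h5, hb'] at h6
        tauto
      have hb' : b' i ≠ x := fun h => ha' ((st'.a_eq_iff i).2 h)
      have k1 := sca true ![true, true, false] i hi
      have k2 := scb true ![true, true, false] i hi
      have k3 := st'.ca i ha'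
      have k4 := st'.cb i hb'
      have h5 := (hnb i (a i)).2 (Or.inr (Or.inl rfl))
      have h6 := (hnb i (b i)).2 (Or.inr (Or.inr rfl))
      constructor
      · rcases h5 with h5 | h5 | h5
        · exact absurd h5 hi
        · exact h5.symm
        · rw [h5, k4] at k1
          exact absurd k1 (by decide)
      · rcases h6 with h6 | h6 | h6
        · exact absurd h6 hb
        · rw [h6, k3] at k2
          exact absurd k2 (by decide)
        · exact h6.symm
  have ha' : a' = a := funext fun i => (hab i).1
  have hb' : b' = b := funext fun i => (hab i).2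
  subst ha' hb'
  have st2 : Star3 G c' x l' a' b' := st'.congr fun v hv => (sc_rest hv).symm
  refine ⟨st2, ?_⟩
  have h5 := hcr.En_eq G hh
  have h6 := st2.en_sc true ![true, true, false]
  have h7 := st2.en_sc true (fun _ => false)
  have h8 : nm true ![true, true, false] = 2 := by decide
  have h9 : nm true (fun _ : Fin 3 => false) = 0 := by decide
  rw [h8] at h6
  rw [h9] at h7
  rw [hst true]
  simp only [Bool.not_true]
  push_cast at h6 h7
  omega

/-- The same for least-energy stars. -/
theorem LS.of_lab (hG : Deg13 G) (hB : NoBal3 G) (hC : C4Free G) (h : LS G c x l a b)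
    {c' : V → Bool} (ca : ∀ i, a i ≠ x → c' (a i) = true)
    (cb : ∀ i, b i ≠ x → c' (b i) = false)
    (hE : En G (starCol c' x l true) ≤ En G (starCol c x l true))
    (hL : ∀ t, Lab3 G (!t) (starCol c' x l t)) : LS G c' x l a b := by
  obtain ⟨d, hd, he⟩ := h.en
  have h1 := he true
  obtain ⟨st, h2⟩ := h.star.of_lab hG hB hC hd ca cb (by omega) hL
  refine ⟨st, d, hd, fun t => ?_⟩
  have h3 := st.en_sc t (fun _ => !t)
  have h4 := st.en_sc true (fun _ => false)
  have h5 : nm t (fun _ => !t) = 0 := by cases t <;> decide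
  have h6 : nm true (fun _ : Fin 3 => false) = 0 := by decide
  rw [h5] at h3
  rw [h6] at h4
  rw [st.starCol_eq] at h2 ⊢
  simp only [Bool.not_true] at h2
  push_cast at h3 h4
  omega

/-- **Neutral flip.** -/
theorem LS.neutral (hG : Deg13 G) (hB : NoBal3 G) (hC : C4Free G) (h : LS G c x l a b) {t r : V}
    (ht : t ∈ rest x l) (hr : r ∈ rest x l) (hadj : G.Adj t r) (hne : c t ≠ c r)
    (h1 : 1 ≤ ownIn G c (rest x l) t)
    (h2 : 1 ≤ ownIn G c (rest x l) r ∨ G.degree r = 1) : LS G (flips {t, r} c) x l a b := by
  have hst := h.star.ne_special ht (Or.inl h1)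
  have hsr := h.star.ne_special hr h2
  have hfl : ∀ s, starCol (flips {t, r} c) x l s = flip (flip (starCol c x l s) t) r := by
    intro s
    funext v
    have htx := mem_rest.1 ht
    have hrx := mem_rest.1 hr
    by_cases h3 : v = x
    · rw [flip_ne _ (by rw [h3]; exact hrx.1.symm), flip_ne _ (by rw [h3]; exact htx.1.symm)]
      simp [starCol, h3]
    · by_cases h4 : ∃ i, v = l i
      · obtain ⟨i, hi⟩ := h4
        rw [flip_ne _ (by rw [hi]; exact (hrx.2 i).symm), flip_ne _ (by rw [hi]; exact (htx.2 i).symm)]
        simp only [starCol, if_neg h3, if_pos (⟨i, hi⟩ : ∃ i, v = l i)]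
      · have h5 : ∀ d : V → Bool, starCol d x l s v = d v := by
          intro d
          simp only [starCol, if_neg h3, if_neg h4]
        rw [h5]
        by_cases h6 : v = r
        · subst h6
          rw [flip_same, flip_ne _ hadj.ne.symm, h5, flips_mem (by simp)]
        · rw [flip_ne _ h6]
          by_cases h7 : v = t
          · subst h7
            rw [flip_same, h5, flips_mem (by simp)]
          · rw [flip_ne _ h7, h5, flips_ne (by simp [h6, h7])]
  -- own neighbours in the star states
  have hb : ∀ s, ∀ v ∈ rest x l, (∀ i, v ≠ a i ∧ v ≠ b i) →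
      (bad G (starCol c x l s) v).card = ownIn G c (rest x l) v := by
    intro s v hv hs
    refine h.star.bad_rest (fun w hw => ?_) hv hs
    rw [h.star.starCol_eq, sc_rest hw]
  have hcol : ∀ s, ∀ v ∈ rest x l, starCol c x l s v = c v := by
    intro s v hv
    rw [h.star.starCol_eq, sc_rest hv]
  obtain ⟨d, hd, he⟩ := h.en
  have lab0 : ∀ s, Lab3 G (!s) (starCol c x l s) := by
    intro s
    have hv := h.star.valid_sc s
    have hs := h.star.sgn_sc s (fun _ => !s)
    rw [h.star.starCol_eq]
    refine Lab3.of_valid G hv ?_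
    cases s
    · simp only [Bool.not_false] at hs ⊢
      rw [hs]; simp [sg]
    · have : sgn (!true) (sc c x l true fun _ => !true) = - sgn true (sc c x l true fun _ => !true) :=
        sgn_not true _
      rw [this, hs]
      simp [sg]
  have step1 : ∀ s, En G (flip (starCol c x l s) t) ≤ En G (starCol c x l s) + 2 := fun s =>
    en_up hG (Or.inr (by rw [hb s t ht hst]; exact h1))
  have step2 : ∀ s, En G (flip (flip (starCol c x l s) t) r) + 2 ≤ En G (flip (starCol c x l s) t) := by
    intro s
    have h5 := card_bad_flip_adj_diff G (starCol c x l s) hadj.symm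
      (by rw [hcol s t ht, hcol s r hr]; exact fun h => hne h.symm)
    refine en_down hG ?_
    rcases h2 with h2 | h2
    · left
      have := hb s r hr hsr
      omega
    · right
      exact ⟨h2, by omega⟩
  refine h.of_lab hG hB hC (fun i hi => ?_) (fun i hi => ?_) ?_ (fun s => ?_)
  · rw [flips_ne (by simp [(hst i).1.symm, (hsr i).1.symm])]
    exact h.star.ca i hi
  · rw [flips_ne (by simp [(hst i).2.symm, (hsr i).2.symm])]
    exact h.star.cb i hi
  · rw [hfl]
    have := step1 true
    have := step2 true
    omega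
  · rw [hfl]
    have h5 := he s
    have h6 := step1 s
    have h7 := step2 s
    refine lab_low hG hB hd (by omega) (by omega) (lab_low hG hB hd (by omega) (by omega) (lab0 s))

end

end Pool.Agent.BLN
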