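import Pool.Agent.BLN.Pth.LSH

/-!
# Criteria for clean sets

`Star3.out_lt` : a vertex outside `S` of degree three without own neighbours which sees at most one vertex
of `S`. `Star3.out_lt_mate` : a vertex outside `S` with an own neighbour in `S`.
`Star3.clean` : the table lemma with these criteria.
-/

set_option autoImplicit false
set_option linter.unusedSectionVars false

namespace Pool.Agent.BLN

open Finset Pool.Agent.IVT

variable {V : Type} [Fintype V] [DecidableEq V]

namespace Star3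

variable {G : SimpleGraph V} [DecidableRel G.Adj] {c : V → Bool} {x : V} {l a b : Fin 3 → V}

theorem out_lt {S : Finset V} {v : V} (hv : v ∉ S) (hd : G.degree v = 3)
    (ho : ownIn G c (rest x l) v = 0) (hu : ∀ w ∈ S, ∀ w' ∈ S, G.Adj v w → G.Adj v w' → w = w') :
    2 * cost G c x l S v < G.degree v := by
  rw [cost_eq, hd]
  have h1 : ownIn G (flips S c) (rest x l) v ≤ 1 := by
    unfold ownIn
    rw [card_le_one]
    have key : ∀ w, w ∈ (rest x l).filter (fun w => G.Adj v w ∧ flips S c w = flips S c v) →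
        w ∈ S ∧ G.Adj v w := by
      intro w hw
      rw [mem_filter] at hw
      obtain ⟨h2, h3, h4⟩ := hw
      refine ⟨?_, h3⟩
      by_contra h5
      rw [flips_ne h5, flips_ne hv] at h4
      rw [ownIn, card_eq_zero, filter_eq_empty_iff] at ho
      exact ho h2 ⟨h3, h4⟩
    intro w hw w' hw'
    obtain ⟨h2, h3⟩ := key w hw
    obtain ⟨h4, h5⟩ := key w' hw'
    exact hu w h2 w' h4 h3 h5
  omega

/-- a vertex outside `S` which sees no vertex of `S` -/
theorem out_zero {S : Finset V} {v : V} (hv : v ∉ S) (ho : ownIn G c (rest x l) v = 0)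
    (hu : ∀ w ∈ S, ¬ G.Adj v w) : cost G c x l S v = 0 := by
  rw [cost_far hv hu, ho]

theorem out_lt_mate (st : Star3 G c x l a b) {S : Finset V} {v m : V} (hvr : v ∈ rest x l) (hv : v ∉ S)
    (hd : G.degree v = 3) (hm : m ∈ S) (hmr : m ∈ rest x l) (hvm : G.Adj v m) (hcm : c m = c v)
    (hu : ∀ w ∈ S, ∀ w' ∈ S, G.Adj v w → G.Adj v w' → c w ≠ c v → c w' ≠ c v → w = w') :
    2 * cost G c x l S v < G.degree v := by
  rw [cost_eq, hd]
  have h1 : ownIn G (flips S c) (rest x l) v ≤ 1 := by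
    unfold ownIn
    rw [card_le_one]
    have hown := st.own v hvr
    rw [hd] at hown
    have key : ∀ w, w ∈ (rest x l).filter (fun w => G.Adj v w ∧ flips S c w = flips S c v) →
        w ∈ S ∧ G.Adj v w ∧ c w ≠ c v := by
      intro w hw
      rw [mem_filter] at hw
      obtain ⟨h2, h3, h4⟩ := hw
      by_cases h5 : w ∈ S
      · refine ⟨h5, h3, fun h6 => ?_⟩
        rw [flips_mem h5, flips_ne hv, h6] at h4
        revert h4
        cases c v <;> decide
      · exfalso
        rw [flips_ne h5, flips_ne hv] at h4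
        have h6 : w ≠ m := fun h => h5 (h ▸ hm)
        have h7 : ({w, m} : Finset V) ⊆ (rest x l).filter (fun w => G.Adj v w ∧ c w = c v) := by
          intro z hz
          simp only [mem_insert, mem_singleton] at hz
          rcases hz with rfl | rfl
          · simp [h2, h3, h4]
          · simp [hmr, hvm, hcm]
        have h8 := card_le_card h7
        rw [card_pair h6] at h8
        omega
    intro w hw w' hw'
    obtain ⟨h2, h3, h4⟩ := key w hw
    obtain ⟨h5, h6, h7⟩ := key w' hw'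
    exact hu w h2 w' h5 h3 h6 h4 h7
  omega

/-- **Clean sets.** The table lemma with the usual criteria. Inside `S`: a special has one, another vertex
of degree three has two rest-neighbours of the other new colour, a pendant has one. Outside `S`: see
`out_lt`, `out_lt_mate`; the exposed specials of the pairs which are not flipped see nothing of `S`. -/
theorem clean (st : Star3 G c x l a b) {S : Finset V} (hS : S ⊆ rest x l) {ξ : Bool}
    (hval : Val c a b S ξ)
    (hin : ∀ v ∈ S, ∃ w ∈ rest x l, G.Adj v w ∧ flips S c w ≠ flips S c v ∧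
      ((∃ i, v = a i ∨ v = b i) ∨ G.degree v = 1 ∨
        (G.degree v = 3 ∧ ∃ w' ∈ rest x l, w ≠ w' ∧ G.Adj v w' ∧ flips S c w' ≠ flips S c v)))
    (hout : ∀ v ∈ rest x l, v ∉ S → (∃ w ∈ S, G.Adj v w) → G.degree v = 3 ∧
      ((ownIn G c (rest x l) v = 0 ∧ ∀ w ∈ S, ∀ w' ∈ S, G.Adj v w → G.Adj v w' → w = w') ∨
        (∃ m ∈ S, G.Adj v m ∧ c m = c v ∧
          ∀ w ∈ S, ∀ w' ∈ S, G.Adj v w → G.Adj v w' → c w ≠ c v → c w' ≠ c v → w = w')))
    (hexp : ∀ i, a i ≠ x → (a i ∈ S ↔ b i ∈ S) →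
      expo a b S ξ i ∉ S ∧ ∀ w ∈ S, ¬ G.Adj (expo a b S ξ i) w) :
    ∃ d : V → Bool, Valid3 G d ∧ sgn true d = 0 := by
  refine ⟨_, st.table_local hS ξ hval (fun v hv => ?_) (fun v hv hvS hex => ?_)
    (fun i hi hiff hex => ?_)⟩
  · obtain ⟨w, hw, h1, h2, h3⟩ := hin v hv
    rcases h3 with ⟨i, h3⟩ | h3 | ⟨h3, w', hw', h4, h5, h6⟩
    · exact st.cost_lt_of_one (hS hv) h3 hw h1 h2
    · exact cost_lt_of_pendant h3 hw h1 h2
    · exact cost_lt_of_two h3 hw hw' h4 h1 h5 h2 h6
  · obtain ⟨hd, h1 | ⟨m, hm, h2, h3, h4⟩⟩ := hout v hv hvS hex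
    · exact out_lt hvS hd h1.1 h1.2
    · exact st.out_lt_mate hv hvS hd hm (hS hm) h2 h3 h4
  · exfalso
    obtain ⟨h1, h2⟩ := hexp i hi hiff
    rcases hex with h3 | ⟨w, hw, h3⟩
    · exact h1 h3
    · exact h2 w hw h3

/-- the value condition: only specials `a i`, `i ∈ A`, are flipped -/
theorem val_a (st : Star3 G c x l a b) {S : Finset V} (A : Finset (Fin 3))
    (hA : ∀ i, a i ∈ S ↔ i ∈ A) (hBe : ∀ i, b i ∉ S) {ξ : Bool}
    (h : (ξ = true ∧ A.card ≤ 1 ∧ kk c S = A.card - 1) ∨ (ξ = false ∧ kk c S = 1)) :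
    Val c a b S ξ := by
  have h1 : alpha a b S = A.card := by
    rw [st.alpha_eq A ∅ hA (by simpa using hBe)]
    simp
  have h2 : beta a b S = 0 := by
    rw [st.beta_eq A ∅ hA (by simpa using hBe)]
    simp
  rcases h with ⟨h3, h4, h5⟩ | ⟨h3, h4⟩
  · exact Or.inl ⟨h3, by rw [h1]; exact h4, by rw [h1]; exact h5⟩
  · exact Or.inr ⟨h3, by rw [h2]; norm_num, by rw [h2]; simpa using h4⟩

end Star3

end Pool.Agent.BLN
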