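import Pool.Agent.BLN.LabE3
import Pool.Agent.BLN.Close
import Pool.Agent.BLN.Pth.LS

/-!
# Facts about specials of least-energy stars

`LS.h1` : a special next to a vertex of `Uo` has only neighbours without own neighbours, of degree three.
`LS.h2` : two adjacent specials of different pairs do not both have neighbours in `Uo`.
`LS.m1` : a vertex of `Uo` next to a special with both neighbours in `Uo` and next to another vertex
outside `Uo` is a centre.
-/

set_option autoImplicit false
set_option linter.unusedSectionVars false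

namespace Pool.Agent.BLN

open Finset Pool.Agent.IVT Star3

variable {V : Type} [Fintype V] [DecidableEq V]
variable {G : SimpleGraph V} [DecidableRel G.Adj] {c : V → Bool} {x : V} {l a b : Fin 3 → V}

theorem ownIn_neg (c : V → Bool) (R : Finset V) (v : V) : ownIn G (neg c) R v = ownIn G c R v := by
  unfold ownIn
  congr 1
  refine filter_congr fun w _ => ?_
  simp [neg]

theorem Uo_neg (c : V → Bool) (x : V) (l a b : Fin 3 → V) : Uo G (neg c) x l b a = Uo G c x l a b := by
  ext v
  simp only [Uo, Set.mem_ofPred_eq, ownIn_neg]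
  constructor
  · rintro ⟨h1, h2, h3⟩
    exact ⟨h1, fun i => (h2 i).symm, h3⟩
  · rintro ⟨h1, h2, h3⟩
    exact ⟨h1, fun i => (h2 i).symm, h3⟩

theorem Star3.rest_ne_l {c : V → Bool} (_st : Star3 G c x l a b) {v : V} (hv : v ∈ rest x l) (i : Fin 3) :
    v ≠ l i := (mem_rest.1 hv).2 i

/-- The star state `g+` on the rest. -/
theorem LS.g_rest (h : LS G c x l a b) {v : V} (hv : v ∈ rest x l) : starCol c x l false v = c v := by
  rw [h.star.starCol_eq, sc_rest hv]

theorem LS.g_l (h : LS G c x l a b) (i : Fin 3) : starCol c x l false (l i) = true := by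
  rw [h.star.starCol_eq, h.star.sc_l]
  rfl

theorem LS.g_x (c : V → Bool) (x : V) (l : Fin 3 → V) : starCol c x l false x = false := by
  simp [starCol]

/-- a neighbour of `u` in `Uo` is in the rest and has the other colour -/
theorem LS.uo_nb (h : LS G c x l a b) {u w : V} (hu : u ∈ Uo G c x l a b) (hw : G.Adj u w) :
    w ∈ rest x l ∧ c w ≠ c u := h.star.Uo_nb hu hw

/-- core of `h1`, for `a i` -/
theorem LS.h1_core (hG : Deg13 G) (hB : NoBal3 G) (hC : C4Free G) (h : LS G c x l a b) {i : Fin 3}
    (hx : a i ≠ x) {u k : V} (hu : u ∈ Uo G c x l a b) (hsu : G.Adj (a i) u) (hk : k ∈ rest x l)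
    (hsk : G.Adj (a i) k) : ownIn G c (rest x l) k = 0 ∧ G.degree k = 3 := by
  have hf := h.fr
  by_contra hcon
  have hheavy : 1 ≤ ownIn G c (rest x l) k ∨ G.degree k = 1 := by
    rcases hG k with h1 | h1
    · exact Or.inr h1
    · left
      by_contra h2
      exact hcon ⟨by omega, h1⟩
  have hns := h.star.ne_special hk hheavy
  have hH : Heavy G (starCol c x l false) k := by
    rcases hheavy with h1 | h1
    · right
      rw [h.star.bad_rest (fun w hw => h.g_rest hw) hk hns]
      exact h1
    · exact Or.inl h1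
  have hcen := hf.e3 hG hB hC hx hsk hk hH
  rcases hcen.leaf hsu with h1 | ⟨m, t, hnb, hm, -⟩
  · have := hu.2.2.1
    omega
  · have hum : G.Adj u m := hnb.ay
    have h2 := h.uo_nb hu hum
    have h3 := h.uo_nb hu hsu.symm
    rw [du_rest h2.1, h.g_rest h2.1] at hm
    have h4 := h.star.ca i hx
    rw [h4] at h3
    cases h5 : c u <;> cases h6 : c m <;> simp_all

theorem LS.h1 (hG : Deg13 G) (hB : NoBal3 G) (hC : C4Free G) (h : LS G c x l a b) {i : Fin 3}
    (hx : a i ≠ x) {s u k : V} (hs : s = a i ∨ s = b i) (hu : u ∈ Uo G c x l a b) (hsu : G.Adj s u)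
    (hk : k ∈ rest x l) (hsk : G.Adj s k) : ownIn G c (rest x l) k = 0 ∧ G.degree k = 3 := by
  rcases hs with rfl | rfl
  · exact h.h1_core hG hB hC hx hu hsu hk hsk
  · have h1 := h.swap.h1_core hG hB hC (i := i) (h.star.b_ne hx) (u := u) (k := k)
      (by rw [Uo_neg]; exact hu) hsu hk hsk
    rwa [ownIn_neg] at h1

/-- a special of a leaf triangle has only neighbours without own neighbours, of degree three -/
theorem LS.h1t_core (hG : Deg13 G) (hB : NoBal3 G) (hC : C4Free G) (h : LS G c x l a b) {i : Fin 3}
    (hx : a i ≠ x) (htri : G.Adj (a i) (b i)) {k : V} (hk : k ∈ rest x l)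
    (hsk : G.Adj (a i) k) : ownIn G c (rest x l) k = 0 ∧ G.degree k = 3 := by
  have hf := h.fr
  have st := h.star
  by_contra hcon
  have hheavy : 1 ≤ ownIn G c (rest x l) k ∨ G.degree k = 1 := by
    rcases hG k with h1 | h1
    · exact Or.inr h1
    · left
      by_contra h2
      exact hcon ⟨by omega, h1⟩
  have hns := st.ne_special hk hheavy
  have hH : Heavy G (starCol c x l false) k := by
    rcases hheavy with h1 | h1
    · right
      rw [st.bad_rest (fun w hw => h.g_rest hw) hk hns]
      exact h1
    · exact Or.inl h1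
  have hcen := hf.e3 hG hB hC hx hsk hk hH
  have hla : G.Adj (a i) (l i) := ((st.nl i _).2 (Or.inr (Or.inl rfl))).symm
  have hlb : G.Adj (l i) (b i) := (st.nl i _).2 (Or.inr (Or.inr rfl))
  rcases hcen.leaf htri with h1 | ⟨m, t, hnb, -, ht, -, -, -, hnm⟩
  · have := st.deg_b i (st.b_ne hx)
    omega
  · rcases (hnb.adj (l i)).1 hlb.symm with h2 | h2 | h2
    · exact (st.rest_ne_l (st.a_rest i hx) i) h2.symm
    · exact hnm (by rw [← h2]; exact hla)
    · rw [← h2, hf.du_l] at ht
      exact absurd ht (by decide)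

theorem LS.h1t (hG : Deg13 G) (hB : NoBal3 G) (hC : C4Free G) (h : LS G c x l a b) {i : Fin 3}
    (hx : a i ≠ x) (htri : G.Adj (a i) (b i)) {s k : V} (hs : s = a i ∨ s = b i) (hk : k ∈ rest x l)
    (hsk : G.Adj s k) : ownIn G c (rest x l) k = 0 ∧ G.degree k = 3 := by
  rcases hs with rfl | rfl
  · exact h.h1t_core hG hB hC hx htri hk hsk
  · have h1 := h.swap.h1t_core hG hB hC (i := i) (h.star.b_ne hx) htri.symm (k := k) hk hsk
    rwa [ownIn_neg] at h1

/-- the rest-neighbours of a special are any two known ones -/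
theorem Star3.sp_two (st : Star3 G c x l a b) {s : V} (hs : s ∈ rest x l) {i : Fin 3}
    (hi : s = a i ∨ s = b i) {u k w : V} (hu : u ∈ rest x l) (hk : k ∈ rest x l) (hne : u ≠ k)
    (hsu : G.Adj s u) (hsk : G.Adj s k) (hw : w ∈ rest x l) (hsw : G.Adj s w) : w = u ∨ w = k := by
  have h1 := st.deg_special hs hi
  by_contra hcon
  push Not at hcon
  have h2 : ({w, u, k} : Finset V) ⊆ (rest x l).filter fun w => G.Adj s w := by
    intro z hz
    simp only [mem_insert, mem_singleton] at hz
    rcases hz with rfl | rfl | rfl <;> simp [*]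
  have h3 := card_le_card h2
  rw [card_insert_of_notMem (by simp [hcon.1, hcon.2]), card_pair hne, h1] at h3
  omega

/-- core of `h2` -/
theorem LS.h2_core (hB : NoBal3 G) (h : LS G c x l a b) {i j : Fin 3} (hij : i ≠ j)
    (hi : a i ≠ x) (hj : a j ≠ x) (hadj : G.Adj (a i) (b j)) {u u' : V} (hu : u ∈ Uo G c x l a b)
    (hau : G.Adj (a i) u) (hu' : u' ∈ Uo G c x l a b) (hbu : G.Adj (b j) u') : False := by
  have st := h.star
  have hj' : b j ≠ x := st.b_ne hj
  have har := st.a_rest i hi
  have hbr := st.b_rest j hj'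
  have hca := st.ca i hi
  have hcb := st.cb j hj'
  have hab : a i ≠ b j := hadj.ne
  have hub : u ≠ b j := (hu.2.1 j).2
  have hu'a : u' ≠ a i := (hu'.2.1 i).1
  have hcu : c u = false := by
    have := (h.uo_nb hu hau.symm).2
    rw [hca] at this
    cases h1 : c u
    · rfl
    · exact absurd h1.symm this
  have hcu' : c u' = true := by
    have := (h.uo_nb hu' hbu.symm).2
    rw [hcb] at this
    cases h1 : c u'
    · exact absurd h1.symm this
    · rfl
  set S : Finset V := {a i, b j} with hS
  have hmem : ∀ v, v ∈ S ↔ v = a i ∨ v = b j := by intro v; simp [hS]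
  have hsub : S ⊆ rest x l := by
    intro v hv
    rcases (hmem v).1 hv with rfl | rfl <;> assumption
  have hA : ∀ k, a k ∈ S ↔ k ∈ ({i} : Finset (Fin 3)) := by
    intro k
    rw [hmem, mem_singleton]
    constructor
    · rintro (h1 | h1)
      · exact (st.a_inj i k h1.symm hi).symm
      · exact absurd h1.symm fun h2 => by
          have h3 : a k ≠ x := fun h4 => hj' (h2.trans h4)
          exact st.a_ne_b' k h3 j h1
    · rintro rfl
      exact Or.inl rfl
  have hBm : ∀ k, b k ∈ S ↔ k ∈ ({j} : Finset (Fin 3)) := by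
    intro k
    rw [hmem, mem_singleton]
    constructor
    · rintro (h1 | h1)
      · exact absurd h1.symm (st.a_ne_b' i hi k)
      · exact (st.b_inj j k h1.symm hj').symm
    · rintro rfl
      exact Or.inr rfl
  have halpha : alpha a b S = 1 := by
    rw [st.alpha_eq _ _ hA hBm]
    have : ({i} : Finset (Fin 3)) \ {j} = {i} := by
      ext k
      simp only [mem_sdiff, mem_singleton]
      constructor
      · exact fun h => h.1
      · rintro rfl
        exact ⟨rfl, hij⟩
    rw [this, card_singleton]
  have hkk : kk c S = 0 := by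
    rw [kk, hS, sum_pair hab, hca, hcb]
    simp [sg]
  have hval : Val c a b S true := Or.inl ⟨rfl, by rw [halpha], by rw [halpha, hkk]; norm_num⟩
  -- neighbours of `S`
  have nbS : ∀ v ∈ rest x l, v ∉ S → (∃ w ∈ S, G.Adj v w) → v = u ∨ v = u' := by
    rintro v hv hvS ⟨w, hw, hvw⟩
    rw [hmem] at hvS
    push Not at hvS
    rcases (hmem w).1 hw with rfl | rfl
    · rcases st.sp_two har (Or.inl rfl) hu.1 hbr hub hau hadj hv hvw.symm with h1 | h1
      · exact Or.inl h1
      · exact absurd h1 hvS.2
    · rcases st.sp_two hbr (Or.inr rfl) hu'.1 har hu'a hbu hadj.symm hv hvw.symm with h1 | h1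
      · exact Or.inr h1
      · exact absurd h1 hvS.1
  have huS : u ∉ S := by
    rw [hmem]
    push Not
    exact ⟨(hu.2.1 i).1, hub⟩
  have hu'S : u' ∉ S := by
    rw [hmem]
    push Not
    exact ⟨hu'a, (hu'.2.1 j).2⟩
  -- the cost of a vertex of `Uo` outside `S`
  have hcost : ∀ v, v ∈ Uo G c x l a b → v ∉ S → ∀ z, (∀ w ∈ S, c w ≠ c v → w = z) →
      2 * cost G c x l S v < G.degree v := by
    intro v hv hvS z hz
    rw [cost_eq, hv.2.2.1]
    have h1 : ownIn G (flips S c) (rest x l) v ≤ 1 := by
      unfold ownIn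
      rw [card_le_one]
      have key : ∀ w, w ∈ (rest x l).filter (fun w => G.Adj v w ∧ flips S c w = flips S c v) → w = z := by
        intro w hw
        rw [mem_filter] at hw
        obtain ⟨_, h2, h3⟩ := hw
        have h4 := (h.uo_nb hv h2).2
        rw [flips_ne hvS] at h3
        by_cases h5 : w ∈ S
        · exact hz w h5 h4
        · rw [flips_ne h5] at h3
          exact absurd h3 h4
      intro w hw w' hw'
      rw [key w hw, key w' hw']
    omega
  have hin : ∀ v ∈ S, 2 * cost G c x l S v < G.degree v := by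
    intro v hv
    rcases (hmem v).1 hv with rfl | rfl
    · refine st.cost_lt_of_one har (Or.inl rfl) hbr hadj ?_
      rw [flips_mem hv, flips_mem ((hmem _).2 (Or.inr rfl)), hca, hcb]
      decide
    · refine st.cost_lt_of_one hbr (Or.inr rfl) har hadj.symm ?_
      rw [flips_mem hv, flips_mem ((hmem _).2 (Or.inl rfl)), hca, hcb]
      decide
  have hnb : ∀ v ∈ rest x l, v ∉ S → (∃ w ∈ S, G.Adj v w) → 2 * cost G c x l S v < G.degree v := by
    intro v hv hvS hex
    rcases nbS v hv hvS hex with rfl | rfl
    · refine hcost v hu hvS (a i) fun w hw hne => ?_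
      rcases (hmem w).1 hw with rfl | rfl
      · rfl
      · rw [hcb, hcu] at hne
        exact absurd rfl hne
    · refine hcost v hu' hvS (b j) fun w hw hne => ?_
      rcases (hmem w).1 hw with rfl | rfl
      · rw [hca, hcu'] at hne
        exact absurd rfl hne
      · rfl
  have hexp : ∀ k, a k ≠ x → (a k ∈ S ↔ b k ∈ S) →
      (expo a b S true k ∈ S ∨ ∃ w ∈ S, G.Adj (expo a b S true k) w) →
      cost G c x l S (expo a b S true k) = 0 := by
    intro k hk hiff hex
    exfalso
    have hki : k ≠ i := by
      rintro rfl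
      have h3 := (hA k).2 (by simp)
      have h4 := (hBm k).1 (hiff.1 h3)
      rw [mem_singleton] at h4
      exact hij h4
    have hkj : k ≠ j := by
      rintro rfl
      have h3 := (hBm k).2 (by simp)
      have h4 := (hA k).1 (hiff.2 h3)
      rw [mem_singleton] at h4
      exact hij h4.symm
    have hak : a k ∉ S := by rw [hA, mem_singleton]; exact hki
    have hbk : b k ∉ S := by rw [hBm, mem_singleton]; exact hkj
    have he : expo a b S true k = b k := by
      unfold expo
      rw [if_neg (by simp [hak])]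
    rw [he] at hex
    have hkx : b k ≠ x := st.b_ne hk
    rcases hex with h3 | ⟨w, hw, hbw⟩
    · exact hbk h3
    · rcases nbS (b k) (st.b_rest k hkx) hbk ⟨w, hw, hbw⟩ with h3 | h3
      · exact (hu.2.1 k).2 h3.symm
      · exact (hu'.2.1 k).2 h3.symm
  obtain ⟨h1, h2⟩ := st.table_local hsub true hval hin hnb hexp
  exact hB _ h1 h2

theorem LS.h2 (hB : NoBal3 G) (h : LS G c x l a b) {i j : Fin 3} (hij : i ≠ j) (hi : a i ≠ x)
    (hj : a j ≠ x) {s s' u u' : V} (hs : s = a i ∨ s = b i) (hs' : s' = a j ∨ s' = b j)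
    (hadj : G.Adj s s') (hu : u ∈ Uo G c x l a b) (hsu : G.Adj s u) (hu' : u' ∈ Uo G c x l a b)
    (hsu' : G.Adj s' u') : False := by
  have st := h.star
  rcases hs with rfl | rfl <;> rcases hs' with rfl | rfl
  · have h1 := st.own_a i hi (a j) (st.a_rest j hj) hadj
    rw [st.ca j hj] at h1
    exact absurd h1 (by decide)
  · exact h.h2_core hB hij hi hj hadj hu hsu hu' hsu'
  · exact h.h2_core hB hij.symm hj hi hadj.symm hu' hsu' hu hsu
  · have h1 := st.own_b i (st.b_ne hi) (b j) (st.b_rest j (st.b_ne hj)) hadj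
    rw [st.cb j (st.b_ne hj)] at h1
    exact absurd h1 (by decide)

/-- all neighbours of a vertex of the rest of colour `false` without own neighbours are `true` in `g+` -/
theorem LS.nb_true (h : LS G c x l a b) {t : V} (ht : t ∈ rest x l) (hc : c t = false)
    (ho : ownIn G c (rest x l) t = 0) (w : V) (hw : G.Adj t w) : starCol c x l false w = true := by
  rcases h.star.cases w with rfl | ⟨j, rfl⟩ | hwr
  · exfalso
    obtain ⟨j, hj⟩ := (h.star.nx t).1 hw.symm
    exact (mem_rest.1 ht).2 j hj
  · exact h.g_l j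
  · rw [h.g_rest hwr]
    rw [ownIn, card_eq_zero, filter_eq_empty_iff] at ho
    have h1 := ho hwr
    cases h2 : c w
    · exact absurd ⟨hw, by rw [h2, hc]⟩ h1
    · rfl

/-- **M1.** A vertex `u` of `Uo` next to a special `a i`, whose other neighbour `q` in the rest is in
`Uo` or is `b i`, and next to another vertex outside `Uo`, is a centre of `g+`. -/
theorem LS.m1_core (hG : Deg13 G) (hB : NoBal3 G) (hC : C4Free G) (h : LS G c x l a b) {i : Fin 3}
    (hi : a i ≠ x) {u q k : V} (hu : u ∈ Uo G c x l a b) (hq : q ∈ Uo G c x l a b ∨ q = b i)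
    (huq : u ≠ q)
    (hau : G.Adj (a i) u) (haq : G.Adj (a i) q) (huk : G.Adj u k) (hka : k ≠ a i)
    (hk : k ∉ Uo G c x l a b) : Cen G (starCol c x l false) u := by
  have st := h.star
  have hf := h.fr
  have har := st.a_rest i hi
  have hca := st.ca i hi
  have col_of : ∀ v, v ∈ Uo G c x l a b → G.Adj (a i) v → c v = false := by
    intro v hv hav
    have := (h.uo_nb hv hav.symm).2
    rw [hca] at this
    cases h1 : c v
    · rfl
    · exact absurd h1.symm this
  have hcu := col_of u hu hau
  have hbx : b i ≠ x := st.b_ne hi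
  obtain ⟨hqr, hcq, hqo, hqd⟩ : q ∈ rest x l ∧ c q = false ∧ ownIn G c (rest x l) q = 0 ∧
      G.degree q = 3 := by
    rcases hq with hq | rfl
    · exact ⟨hq.1, col_of q hq haq, hq.2.2.2, hq.2.2.1⟩
    · exact ⟨st.b_rest i hbx, st.cb i hbx, st.ownIn_special (st.b_rest i hbx) (Or.inr rfl),
        st.deg_b i hbx⟩
  have hkr := (h.uo_nb hu huk).1
  have hck : c k = true := by
    have := (h.uo_nb hu huk).2
    rw [hcu] at this
    cases h1 : c k
    · exact absurd h1 this
    · rfl
  have gu : starCol c x l false u = false := by rw [h.g_rest hu.1, hcu]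
  have gk : starCol c x l false k = true := by rw [h.g_rest hkr, hck]
  have ga : starCol c x l false (a i) = true := by rw [h.g_rest har, hca]
  have hou := h.nb_true hu.1 hcu hu.2.2.2
  -- the leg `a i`
  have hla : G.Adj (a i) (l i) := ((st.nl i _).2 (Or.inr (Or.inl rfl))).symm
  have leg1 : Leg G (starCol c x l false) u (a i) := by
    refine ⟨hau.symm, ga, Or.inr ⟨l i, q, ?_, ga, h.g_l i, ?_, hqd, h.nb_true hqr hcq hqo⟩⟩
    · exact nb_of_three3 G (st.deg_a i hi) hau hla haq (st.rest_ne_l hu.1 i) huq
        (st.rest_ne_l hqr i).symm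
    · rw [h.g_rest hqr, hcq]
  -- the leg `k`
  have leg2 : Leg G (starCol c x l false) u k := by
    refine ⟨huk, gk, ?_⟩
    rcases hG k with hd | hd
    · exact Or.inl hd
    right
    by_cases hsp : ∃ j, k = a j
    · obtain ⟨j, rfl⟩ := hsp
      have hjx : a j ≠ x := (mem_rest.1 hkr).1
      have hlj : G.Adj (a j) (l j) := ((st.nl j _).2 (Or.inr (Or.inl rfl))).symm
      obtain ⟨t, ht⟩ := exists_nb23 G hd huk.symm hlj (st.rest_ne_l hu.1 j)
      have htr : t ∈ rest x l := by
        refine st.adj_rest hkr ht.az fun i' hi' => ?_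
        have h1 := st.spec_of_adj hkr (i := i') (by rw [← hi']; exact ht.az)
        have h2 := st.leaf_unique (mem_rest.1 hkr).1 (Or.inl rfl) h1
        exact ht.yz (by rw [hi', h2])
      have hct : c t = false := st.own_a j hjx t htr ht.az
      have h3 := h.h1 hG hB hC hjx (Or.inl rfl) hu huk.symm htr ht.az
      exact ⟨l j, t, ht, gk, h.g_l j, by rw [h.g_rest htr, hct], h3.2, h.nb_true htr hct h3.1⟩
    · push Not at hsp
      have hkb : ∀ j, k ≠ b j := by
        rintro j rfl
        have := st.cb j (mem_rest.1 hkr).1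
        rw [hck] at this
        exact absurd this (by decide)
      have hns : ∀ j, k ≠ a j ∧ k ≠ b j := fun j => ⟨hsp j, hkb j⟩
      have hown : 1 ≤ ownIn G c (rest x l) k := by
        by_contra h1
        exact hk ⟨hkr, hns, hd, by omega⟩
      obtain ⟨m, hm⟩ := card_pos.1 hown
      rw [mem_filter] at hm
      obtain ⟨hmr, hkm, hcm⟩ := hm
      have hum : u ≠ m := by
        rintro rfl
        rw [hcu, hck] at hcm
        exact absurd hcm (by decide)
      obtain ⟨t, ht⟩ := exists_nb23 G hd huk.symm hkm hum
      have htr : t ∈ rest x l := st.nb_rest hkr hns ht.az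
      have hct : c t = false := by
        by_contra h1
        have h2 : c t = true := by simpa using h1
        have h3 := st.own k hkr
        have h4 : ({m, t} : Finset V) ⊆ (rest x l).filter (fun w => G.Adj k w ∧ c w = c k) := by
          intro z hz
          simp only [mem_insert, mem_singleton] at hz
          rcases hz with rfl | rfl
          · simp [hmr, hkm, hcm]
          · simp [htr, ht.az, h2, hck]
        have h5 := card_le_card h4
        rw [card_pair ht.yz] at h5
        rw [hd] at h3
        omega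
      by_cases hdbl : ownIn G c (rest x l) t = 0 ∧ G.degree t = 3
      · exact ⟨m, t, ht, gk, by rw [h.g_rest hmr, hcm, hck], by rw [h.g_rest htr, hct], hdbl.2,
          h.nb_true htr hct hdbl.1⟩
      · -- the neutral flip of `k`, `t`
        exfalso
        have hheavy : 1 ≤ ownIn G c (rest x l) t ∨ G.degree t = 1 := by
          rcases hG t with h1 | h1
          · exact Or.inr h1
          · left
            by_contra h2
            exact hdbl ⟨by omega, h1⟩
        have hnf := h.neutral hG hB hC hkr htr ht.az (by rw [hck, hct]; decide) hown hheavy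
        have hqk : q ≠ k := by
          rintro rfl
          rw [hcq] at hck
          exact absurd hck (by decide)
        have hqt : q ≠ t := by
          rintro rfl
          rcases hheavy with h1 | h1 <;> omega
        have hqnk : ¬ G.Adj q k := by
          intro h1
          rcases hC (a i) u k q hau huk h1.symm haq.symm with h2 | h2
          · exact hka h2.symm
          · exact huq h2
        have hqS : q ∉ ({k, t} : Finset V) := by simp [hqk, hqt]
        have huS : u ∉ ({k, t} : Finset V) := by
          have h1 : u ≠ k := huk.ne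
          have h2 : u ≠ t := ht.xz
          simp [h1, h2]
        have hq' : q ∈ Uo G c x l a b → q ∈ Uo G (flips {k, t} c) x l a b := by
          intro hq
          refine ⟨hq.1, hq.2.1, hq.2.2.1, ?_⟩
          rw [ownIn, card_eq_zero, filter_eq_empty_iff]
          rintro w hw ⟨h1, h2⟩
          have h3 := (h.uo_nb hq h1).2
          rw [flips_ne hqS] at h2
          by_cases h4 : w ∈ ({k, t} : Finset V)
          · rw [flips_mem h4, hcq] at h2
            simp only [mem_insert, mem_singleton] at h4
            rcases h4 with rfl | rfl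
            · exact hqnk h1
            · rw [hct] at h2
              exact absurd h2 (by decide)
          · rw [flips_ne h4] at h2
            exact h3 h2
        have h2 : ownIn G (flips {k, t} c) (rest x l) u = 0 := by
          rcases hq with hq | rfl
          · exact (hnf.h1 hG hB hC hi (Or.inl rfl) (hq' hq) haq hu.1 hau).1
          · exact (hnf.h1t_core hG hB hC hi haq hu.1 hau).1
        rw [ownIn, card_eq_zero, filter_eq_empty_iff] at h2
        refine h2 hkr ⟨huk, ?_⟩
        rw [flips_ne huS, flips_mem (by simp), hck, hcu]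
        rfl
  have hnak : ¬ G.Adj (a i) k := by
    intro h1
    have := st.own_a i hi k hkr h1
    rw [hck] at this
    exact absurd this (by decide)
  exact cen_of_two_legs hG hB hC hf.valid hf.sum hf.en gu hou leg1 leg2 (Ne.symm hka) hnak

/-- `m1` as a least-energy star. -/
theorem LS.m1 (hG : Deg13 G) (hB : NoBal3 G) (hC : C4Free G) (h : LS G c x l a b) {i : Fin 3}
    (hi : a i ≠ x) {u q k : V} (hu : u ∈ Uo G c x l a b) (hq : q ∈ Uo G c x l a b ∨ q = b i)
    (huq : u ≠ q)
    (hau : G.Adj (a i) u) (haq : G.Adj (a i) q) (huk : G.Adj u k) (hka : k ≠ a i)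
    (hk : k ∉ Uo G c x l a b) : ∃ l' a' b', LS G (starCol c x l false) u l' a' b' := by
  obtain ⟨l', a', b', h1⟩ := h.m1_core hG hB hC hi hu hq huq hau haq huk hka hk
  exact ⟨l', a', b', h1.ls⟩

/-- `m1` for a special `b i`. -/
theorem LS.m1' (hG : Deg13 G) (hB : NoBal3 G) (hC : C4Free G) (h : LS G c x l a b) {i : Fin 3}
    (hi : b i ≠ x) {u q k : V} (hu : u ∈ Uo G c x l a b) (hq : q ∈ Uo G c x l a b ∨ q = a i)
    (huq : u ≠ q)
    (hbu : G.Adj (b i) u) (hbq : G.Adj (b i) q) (huk : G.Adj u k) (hkb : k ≠ b i)
    (hk : k ∉ Uo G c x l a b) : ∃ l' a' b', LS G (starCol (neg c) x l false) u l' a' b' := by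
  refine h.swap.m1 hG hB hC hi (q := q) (k := k) (by rw [Uo_neg]; exact hu) ?_ huq hbu hbq huk hkb
    (by rw [Uo_neg]; exact hk)
  rw [Uo_neg]
  exact hq

end Pool.Agent.BLN
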