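import Pool.Agent.BLN.Pth.LS

/-!
# The neutral flip for frames
-/

set_option autoImplicit false
set_option linter.unusedSectionVars false

namespace Pool.Agent.BLN

open Finset Pool.Agent.IVT Star3

variable {V : Type} [Fintype V] [DecidableEq V]
variable {G : SimpleGraph V} [DecidableRel G.Adj] {g : V → Bool} {x : V} {l a b : Fin 3 → V}

/-- A frame survives a low relabelling of the rest which keeps the colours of the specials. -/
theorem Fr.of_lab (hG : Deg13 G) (hB : NoBal3 G) (hC : C4Free G) (h : Fr G g x l a b)
    {g' : V → Bool} (gx : g' x = false) (gl : ∀ i, g' (l i) = true)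
    (ca : ∀ i, a i ≠ x → g' (a i) = true) (cb : ∀ i, b i ≠ x → g' (b i) = false)
    (hE : En G g' ≤ En G g) (hL : ∀ t, Lab3 G (!t) (starCol g' x l t)) : Fr G g' x l a b := by
  have hs : starCol g' x l false = g' := by
    funext v
    by_cases h1 : v = x
    · rw [h1, gx]; simp [starCol]
    · by_cases h2 : ∃ i, v = l i
      · obtain ⟨i, hi⟩ := h2
        rw [hi, gl]
        simp [starCol, h.star.l_ne_x i]
      · simp only [starCol, if_neg h1, if_neg h2]
  obtain ⟨d, hd, he⟩ := h.en
  -- the true star state has at most the energy of the false one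
  have key : Star3 G g' x l a b ∧ En G (starCol g' x l false) + 4 = En G d := by
    have st := (h.star.neg).of_lab hG hB hC hd (c' := neg g') (fun i hi => by simp [neg, cb i hi])
      (fun i hi => by simp [neg, ca i hi]) (by
        rw [starCol_neg, En_neg, Bool.not_true, hs]
        omega) (fun t => by
        rw [starCol_neg]
        have := (hL (!t)).neg
        rwa [Bool.not_not] at this)
    refine ⟨?_, ?_⟩
    · have h1 := st.1.neg
      rwa [neg_neg] at h1
    · have h1 := st.2
      rwa [starCol_neg, En_neg, Bool.not_true] at h1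
  rw [hs] at key
  exact ⟨key.1, gx, gl, d, hd, key.2⟩

/-- **NF.** The neutral flip of an adjacent pair `t`, `r` of different colours, where `t` has an own
neighbour in the rest and `r` has one or is a pendant. -/
theorem Fr.nf (hG : Deg13 G) (hB : NoBal3 G) (hC : C4Free G) (h : Fr G g x l a b) {t r : V}
    (ht : t ∈ rest x l) (hr : r ∈ rest x l) (hadj : G.Adj t r) (hc : g t ≠ g r)
    (h1 : 1 ≤ ownIn G g (rest x l) t) (h2 : 1 ≤ ownIn G g (rest x l) r ∨ G.degree r = 1) :
    Fr G (flips {t, r} g) x l a b := by
  have h3 := (h.ls.neutral hG hB hC ht hr hadj hc h1 h2).fr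
  have h4 : starCol (flips {t, r} g) x l false = flips {t, r} g := by
    have hS : ∀ v, v ∈ ({t, r} : Finset V) → v ∈ rest x l := by
      intro v hv
      rw [mem_insert, mem_singleton] at hv
      rcases hv with rfl | rfl <;> assumption
    funext v
    by_cases h5 : v = x
    · subst h5
      rw [flips_ne (fun h6 => (mem_rest.1 (hS _ h6)).1 rfl), h.gx]
      simp [starCol]
    · by_cases h6 : ∃ i, v = l i
      · obtain ⟨i, rfl⟩ := h6
        rw [flips_ne (fun h7 => (mem_rest.1 (hS _ h7)).2 i rfl), h.gl]
        simp [starCol, h.star.l_ne_x i]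
      · simp only [starCol, if_neg h5, if_neg h6]
  rwa [h4] at h3

end Pool.Agent.BLN
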