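import Pool.Agent.BLN.Pth.PDefs
import Pool.Agent.BLN.Pth.LSH
import Pool.Agent.BLN.Pth.NF

/-!
# Shortest exit paths of frames

Duality for `Uo`, `Live`, `IsStart`, `IsExit`. `Fr.uo_flip` : vertices of `Uo` away from a neutral flip.
`Fr.simple_of_path` : exits of the last vertex of a shortest path are simple. `PF.of_short` : a shortest path
has the properties `PF`.
-/

set_option autoImplicit false
set_option linter.unusedSectionVars false

namespace Pool.Agent.BLN

open Finset Pool.Agent.IVT Star3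

variable {V : Type} [Fintype V] [DecidableEq V]
variable {G : SimpleGraph V} [DecidableRel G.Adj] {g : V → Bool} {x : V} {l a b : Fin 3 → V}

/-! ### duality -/

theorem ownIn_congr' {c c' : V → Bool} {R : Finset V} (hc : ∀ v ∈ R, c' v = c v) {v : V} (hv : v ∈ R) :
    ownIn G c' R v = ownIn G c R v := by
  unfold ownIn
  congr 1
  refine filter_congr fun w hw => ?_
  rw [hc w hw, hc v hv]

theorem Uo_congr {c c' : V → Bool} (hc : ∀ v ∈ rest x l, c' v = c v) :
    Uo G c' x l a b = Uo G c x l a b := by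
  ext v
  simp only [Uo, Set.mem_ofPred_eq]
  constructor
  · rintro ⟨h1, h2, h3, h4⟩
    exact ⟨h1, h2, h3, by rwa [ownIn_congr' hc h1] at h4⟩
  · rintro ⟨h1, h2, h3, h4⟩
    exact ⟨h1, h2, h3, by rwa [ownIn_congr' hc h1]⟩

theorem Uo_du (g : V → Bool) (x : V) (l a b : Fin 3 → V) :
    Uo G (du g x l) x l b a = Uo G g x l a b := by
  rw [← Uo_neg (G := G) g x l a b]
  exact Uo_congr fun v hv => by rw [du_rest hv]; rfl

theorem Live_du (g : V → Bool) (x : V) (l a b : Fin 3 → V) :
    Live G (du g x l) x l b a = Live G g x l a b := by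
  unfold Live
  rw [Uo_du]

theorem isStart_du {i : Fin 3} {s : V} :
    IsStart G (du g x l) x l b a i s ↔ IsStart G g x l a b i s := by
  unfold IsStart
  rw [Uo_du]
  constructor
  · rintro ⟨h1, h2, h3⟩
    exact ⟨h1, h2.symm, fun w hw h4 => (h3 w hw h4).imp_right Or.symm⟩
  · rintro ⟨h1, h2, h3⟩
    exact ⟨h1, h2.symm, fun w hw h4 => (h3 w hw h4).imp_right Or.symm⟩

theorem isExit_du {i : Fin 3} {t : V} :
    IsExit G (du g x l) x l b a i t ↔ IsExit G g x l a b i t := by
  unfold IsExit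
  rw [Uo_du]
  tauto

/-! ### colours -/

theorem Live_sub {y : V} (h : y ∈ Live G g x l a b) : y ∈ Uo G g x l a b := h.1

theorem Fr.uo_col (h : Fr G g x l a b) : ∀ u ∈ Live G g x l a b, ∀ w, G.Adj u w → g w ≠ g u :=
  fun _ hu w hw => h.star.Uo_col hu.1 w hw

theorem Fr.uo_not_adj (h : Fr G g x l a b) {u v w : V} (hu : u ∈ Uo G g x l a b) (hc : g v ≠ g u)
    (hw : g w ≠ g v) : ¬ G.Adj u w := fun h1 => h.star.Uo_col hu w h1 (bool_eq_of_ne hw hc.symm)

/-- a vertex of the rest outside `Uo` which is not special is a pendant or has an own neighbour -/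
theorem Fr.heavy (hG : Deg13 G) {t : V} (ht : t ∈ rest x l) (htU : t ∉ Uo G g x l a b)
    (hs : ∀ j, t ≠ a j ∧ t ≠ b j) : 1 ≤ ownIn G g (rest x l) t ∨ G.degree t = 1 := by
  rcases hG t with h1 | h1
  · exact Or.inr h1
  · left
    by_contra h2
    exact htU ⟨ht, hs, h1, by omega⟩

/-- vertices of `Uo` away from a flipped pair -/
theorem Fr.uo_flip {t z y : V} (hy : y ∈ Uo G g x l a b) (ht : ¬ G.Adj y t)
    (hz : ¬ G.Adj y z) (hyt : y ≠ t) (hyz : y ≠ z) : y ∈ Uo G (flips {t, z} g) x l a b := by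
  refine ⟨hy.1, hy.2.1, hy.2.2.1, ?_⟩
  have hyS : y ∉ ({t, z} : Finset V) := by simp [hyt, hyz]
  rw [ownIn_zero]
  intro w hw h1
  have hwS : w ∉ ({t, z} : Finset V) := by
    simp only [mem_insert, mem_singleton, not_or]
    exact ⟨fun h2 => ht (h2 ▸ h1), fun h2 => hz (h2 ▸ h1)⟩
  rw [flips_out hyS, flips_out hwS]
  exact ownIn_zero.1 hy.2.2.2 w hw h1

/-- the neighbour of a flipped vertex gets an own neighbour -/
theorem Fr.own_flip (h : Fr G g x l a b) {t z y : V} (hy : y ∈ Uo G g x l a b) (ht : G.Adj y t)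
    (hyz : y ≠ z) : ownIn G (flips {t, z} g) (rest x l) y ≠ 0 := by
  intro h1
  rw [ownIn_zero] at h1
  have h2 := h.star.Uo_nb hy ht
  have hyS : y ∉ ({t, z} : Finset V) := by simp [ht.ne, hyz]
  refine h1 t h2.1 ht ?_
  rw [flips_out hyS, flips_in (by simp)]
  have h3 := h2.2
  cases h4 : g t <;> cases h5 : g y <;> simp_all

/-- Specials next to `Uo` are simple. -/
theorem Fr.simple_special (hG : Deg13 G) (hB : NoBal3 G) (hC : C4Free G) (h : Fr G g x l a b) {t y : V}
    {j : Fin 3} (ht : t ∈ rest x l) (hj : t = a j ∨ t = b j) (hy : y ∈ Uo G g x l a b) (hty : G.Adj t y) :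
    Simple3 G g x l t := by
  intro z hz h1 _
  have hx := h.star.ne_x_of_special (mem_rest.1 ht).1 hj
  exact (h.ls.h1 hG hB hC hx hj hy hty hz h1).symm

/-- the same exit path with another exit -/
theorem Short.change_exit {U : Set V} {Al : V → V → Prop} {s : V} {v : ℕ → V} {m : ℕ} {t t' : V}
    (sh : Short G U Al s v m t) (hal : Al s t') (h : G.Adj (v m) t') : Short G U Al s v m t' where
  tail := ⟨sh.tail.pos, sh.tail.mem, sh.tail.adj, h⟩
  start := sh.start
  al := hal
  min := sh.min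

/-- the pairs allowed as ends of exit paths of the pair `i` -/
def AlP (G : SimpleGraph V) [DecidableRel G.Adj] (g : V → Bool) (x : V) (l a b : Fin 3 → V) (i : Fin 3)
    (s t : V) : Prop := IsStart G g x l a b i s ∧ IsExit G g x l a b i t

/-- a rest-neighbour of a vertex of the path before the last one is in `Uo` or in the pair `i` -/
theorem Fr.path_inner (h : Fr G g x l a b) {i : Fin 3} {v : ℕ → V} {m : ℕ} {t : V}
    (sh : Short G (Live G g x l a b) (AlP G g x l a b i) (a i) v m t) {k : ℕ} (h1 : 1 ≤ k) (h2 : k < m)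
    {w : V} (hw : G.Adj (v k) w) : w ∈ Uo G g x l a b ∨ w = a i ∨ w = b i := by
  by_contra h3
  push Not at h3
  exact sh.no_exit h1 h2 (t' := w) ⟨sh.al.1, (h.star.Uo_nb (sh.mem h1 h2.le).1 hw).1, h3⟩ hw

/-- **Exits at the end of a shortest path are simple** (neutral flip and induction hypothesis). -/
theorem Fr.simple_exit (hG : Deg13 G) (hB : NoBal3 G) (hC : C4Free G) (h : Fr G g x l a b) {i : Fin 3}
    {v : ℕ → V} {m : ℕ} {t : V} (hm : 2 ≤ m) (hIH : CC G (m - 1))
    (sh : Short G (Live G g x l a b) (AlP G g x l a b i) (a i) v m t) : Simple3 G g x l t := by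
  have st := h.star
  obtain ⟨hst, hex⟩ := sh.al
  have hai : a i ≠ x := hst.1
  have hvm := sh.mem sh.pos le_rfl
  by_cases hsp : ∃ j, t = a j ∨ t = b j
  · obtain ⟨j, hj⟩ := hsp
    exact h.simple_special hG hB hC hex.1 hj hvm.1 sh.exit.symm
  push Not at hsp
  intro z hz htz hcz
  by_contra hbad
  -- `z` is heavy
  have hz1 : 1 ≤ ownIn G g (rest x l) z ∨ G.degree z = 1 := by
    rcases hG z with h1 | h1
    · exact Or.inr h1
    · left
      by_contra h2
      exact hbad ⟨h1, by omega⟩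
  have hzU : z ∉ Uo G g x l a b := fun hU => hbad ⟨hU.2.2.1, hU.2.2.2⟩
  have hzs := st.ne_special hz hz1
  have hzm : v m ≠ z := fun h1 => hzU (h1 ▸ hvm.1)
  have ht1 : 1 ≤ ownIn G g (rest x l) t := by
    rcases Fr.heavy hG hex.1 hex.2.1 hsp with h1 | h1
    · exact h1
    · exact absurd ((pend_adj G h1 sh.exit.symm z).1 htz).symm hzm
  have hf := h.nf hG hB hC hex.1 hz htz hcz.symm ht1 hz1
  have hct : g t ≠ g (v m) := sh.col_t h.uo_col
  -- the exits `t` and `z`
  have hexz : AlP G g x l a b i (a i) z := ⟨hst, hz, hzU, (hzs i).1, (hzs i).2⟩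
  -- the vertices of the path stay in `Uo`
  have hUk : ∀ k, 1 ≤ k → k < m → v k ∈ Uo G (flips {t, z} g) x l a b := by
    intro k h1 h2
    have hk := (sh.mem h1 h2.le).1
    exact Fr.uo_flip hk (sh.no_exit h1 h2 sh.al) (sh.no_exit h1 h2 hexz) (fun h3 => hex.2.1 (h3 ▸ hk))
      (fun h3 => hzU (h3 ▸ hk))
  -- and live
  have hLk : ∀ k, 1 ≤ k → k ≤ m - 1 → v k ∈ Live G (flips {t, z} g) x l a b := by
    intro k h1 h2
    refine ⟨hUk k h1 (by omega), ?_⟩
    by_cases hk : 2 ≤ k
    · refine ⟨v (k - 1), hUk (k - 1) (by omega) (by omega), ?_⟩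
      have := sh.adj (show 1 ≤ k - 1 by omega) (by omega)
      rw [show k - 1 + 1 = k by omega] at this
      exact this.symm
    · have hk1 : k = 1 := by omega
      subst hk1
      by_cases hm3 : 3 ≤ m
      · exact ⟨v 2, hUk 2 (by omega) (by omega), sh.adj le_rfl (by omega)⟩
      · have hm2 : m = 2 := by omega
        subst hm2
        have hv1 := (sh.mem le_rfl (by omega)).1
        have ha12 : G.Adj (v 1) (v 2) := sh.adj le_rfl (by omega)
        have hne : a i ≠ v 2 := fun h3 => special_not_Uo st (Or.inl h3.symm) hvm.1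
        obtain ⟨w, hw⟩ := exists_nb23 G hv1.2.2.1 sh.start.symm ha12 hne
        have hwU : w ∈ Uo G g x l a b := by
          rcases h.path_inner sh le_rfl (by omega) hw.az with h3 | h3 | h3
          · exact h3
          · exact absurd h3.symm hw.xz
          · exfalso
            have h4 := st.Uo_col hv1 _ hw.az
            have h5 := st.Uo_col hv1 _ sh.start.symm
            rw [h3, st.cb' hai] at h4
            rw [st.ca' hai] at h5
            cases h6 : g (v 1)
            · exact h4 h6.symm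
            · exact h5 h6.symm
        refine ⟨w, Fr.uo_flip hwU ?_ ?_ (fun h3 => hex.2.1 (h3 ▸ hwU)) (fun h3 => hzU (h3 ▸ hwU)), hw.az⟩
        · intro h3
          rcases hC w (v 1) (v 2) t hw.az.symm ha12 sh.exit h3.symm with h4 | h4
          · exact hw.yz h4.symm
          · exact hex.2.1 (h4 ▸ hv1)
        · have h4 := st.Uo_col hv1 _ hw.az
          have h5 := st.Uo_col hv1 _ ha12
          have h6 : g w = g (v 2) := bool_eq_of_ne h4 h5
          have h7 : g z = g (v 2) := bool_eq_of_ne hcz hct.symm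
          exact fun h8 => st.Uo_col hwU _ h8 (by rw [h6, h7])
  refine hIH _ x l a b hf i (a i) v (v m) ⟨hai, Or.inl rfl, ?_⟩ ⟨hvm.1.1, ?_, (hvm.1.2.1 i).1, (hvm.1.2.1 i).2⟩
    sh.start ⟨by omega, hLk, fun k h1 h2 => sh.adj h1 (by omega), ?_⟩
  · intro w hw haw
    rcases hst.2.2 w hw haw with h1 | h1
    · left
      have h2 := hf.ls.h1 hG hB hC hai (Or.inl rfl) (hUk 1 le_rfl (by omega)) sh.start hw haw
      exact ⟨h1.1, h1.2.1, h1.2.2.1, h2.1⟩
    · exact Or.inr h1
  · intro h1
    exact h.own_flip hvm.1 sh.exit hzm h1.2.2.2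
  · have := sh.adj (show 1 ≤ m - 1 by omega) (by omega)
    rwa [show m - 1 + 1 = m by omega] at this

/-- **A shortest exit path has the properties `PF`** if its last vertex has no second leg. -/
theorem PF.of_short (hG : Deg13 G) (hB : NoBal3 G) (hC : C4Free G) (h : Fr G g x l a b) {i : Fin 3}
    {v : ℕ → V} {m : ℕ} {t : V} (sh : Short G (Live G g x l a b) (AlP G g x l a b i) (a i) v m t)
    (hlegs : ∀ w, G.Adj (v m) w → IsExit G g x l a b i w → w = t ∨ G.Adj t w) :
    PF G g x l a b i v m t := by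
  have st := h.star
  obtain ⟨hst, hex⟩ := sh.al
  have hai : a i ≠ x := hst.1
  have hUcol := h.uo_col
  have hlive : ∀ {y : V} {k : ℕ}, 1 ≤ k → k ≤ m → y ∈ Uo G g x l a b → G.Adj y (v k) →
      y ∈ Live G g x l a b := fun h1 h2 hy hyk => ⟨hy, _, (sh.mem h1 h2).1, hyk⟩
  have hcv1 : g (v 1) = false := by
    have h1 := sh.col_a hUcol
    rw [st.ca' hai] at h1
    cases h2 : g (v 1)
    · rfl
    · exact absurd h2.symm h1
  have haL : a i ∉ Live G g x l a b := fun h1 => special_not_Uo st (Or.inl rfl) h1.1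
  have htL : t ∉ Live G g x l a b := fun h1 => hex.2.1 h1.1
  -- `b i` is not adjacent to `v 1`
  have hb1 : ¬ G.Adj (b i) (v 1) := by
    intro h1
    have h2 := st.Uo_col (sh.mem le_rfl sh.pos).1 _ h1.symm
    rw [st.cb' hai, hcv1] at h2
    exact h2 rfl
  -- `b i` is a start if it sees two vertices of the base
  have hbst : (∀ w ∈ rest x l, G.Adj (b i) w → w ∈ Uo G g x l a b ∨ w = a i ∨ w = b i) →
      ∀ k, 1 ≤ k → k ≤ m → ¬ G.Adj (b i) (v k) := by
    intro h1 k h2 h3 h4
    by_cases hk : k = 1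
    · subst hk
      exact hb1 h4
    · exact sh.no_start (by omega : 2 ≤ k) h3 (a' := b i) ⟨⟨st.b_ne hai, Or.inr rfl, h1⟩, hex⟩ h4
  refine
    { hi := hai, pos := sh.pos, mem := fun k h1 h2 => (sh.mem h1 h2).1, adj := fun k h1 h2 => sh.adj h1 h2,
      start := sh.start, inj := fun j k h1 h2 h3 h4 h5 => sh.inj' h1 h2 h3 h4 h5, exit := sh.exit, tR := hex.1,
      tU := hex.2.1, ta := hex.2.2.1, tb := hex.2.2.2, one := ?_, nbv := ?_, nba := ?_, out := ?_ }
  · -- at most one neighbour in the base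
    have key : ∀ y ∈ rest x l, y ∉ base (a i) v m → ∀ j k, 1 ≤ j → j < k → k ≤ m → G.Adj y (v j) →
        G.Adj y (v k) → False := by
      intro y hy hyb j k h1 h2 h3 h4 h5
      by_cases hyU : y ∈ Uo G g x l a b
      · obtain ⟨h6, h7⟩ := sh.common hUcol (hlive h1 (by omega) hyU h4) h1 h2 h3 h4 h5 hC
        exact hyb (mem_base.2 (Or.inr ⟨j + 1, by omega, by omega, h7⟩))
      · rcases h.path_inner sh h1 (by omega : j < m) h4.symm with h6 | h6 | h6
        · exact hyU h6
        · exact hyb (mem_base.2 (Or.inl h6))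
        · subst h6
          have h7 : v j ≠ v k := sh.inj h1 h2 h3
          refine hbst (fun w hw h8 => ?_) k (by omega) h3 h5
          rcases st.sp_two hy (Or.inr rfl) (sh.mem h1 (by omega)).1.1 (sh.mem (by omega) h3).1.1 h7 h4 h5 hw h8 with h9 | h9
          · rw [h9]; exact Or.inl (sh.mem h1 (by omega)).1
          · rw [h9]; exact Or.inl (sh.mem (by omega) h3).1
    have key2 : ∀ y ∈ rest x l, y ∉ base (a i) v m → ∀ k, 1 ≤ k → k ≤ m → G.Adj y (a i) →
        G.Adj y (v k) → False := by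
      intro y hy hyb k h1 h2 h3 h4
      rcases hst.2.2 y hy h3.symm with h6 | h6 | h6
      · obtain ⟨h7, h8⟩ := sh.common_start hUcol (hlive h1 h2 h6 h4) h1 h2 h4 h3.symm hC haL
        exact hyb (mem_base.2 (Or.inr ⟨1, le_rfl, by omega, h8⟩))
      · exact hyb (mem_base.2 (Or.inl h6))
      · subst h6
        refine hbst (fun w hw h8 => ?_) k h1 h2 h4
        have h7 : a i ≠ v k := fun h9 => special_not_Uo st (Or.inl h9.symm) (sh.mem h1 h2).1
        rcases st.sp_two hy (Or.inr rfl) (st.a_mem hai) (sh.mem h1 h2).1.1 h7 h3 h4 hw h8 with h9 | h9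
        · exact Or.inr (Or.inl h9)
        · rw [h9]; exact Or.inl (sh.mem h1 h2).1
    intro y hy hyb s hs s' hs' h1 h2
    rw [mem_base] at hs hs'
    rcases hs with rfl | ⟨k, hk1, hk2, rfl⟩
    · rcases hs' with rfl | ⟨k', hk1', hk2', rfl⟩
      · rfl
      · exact (key2 y hy hyb k' hk1' hk2' h1 h2).elim
    · rcases hs' with rfl | ⟨k', hk1', hk2', rfl⟩
      · exact (key2 y hy hyb k hk1 hk2 h2 h1).elim
      · rcases lt_trichotomy k k' with h3 | h3 | h3
        · exact (key y hy hyb k k' hk1 h3 hk2' h1 h2).elim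
        · rw [h3]
        · exact (key y hy hyb k' k hk1' h3 hk2 h2 h1).elim
  · intro k h1 h2 w hw hwb
    by_cases hk : k < m
    · rcases h.path_inner sh h1 hk hw with h3 | h3 | h3
      · exact Or.inl h3
      · exact absurd (mem_base.2 (Or.inl h3)) hwb
      · exact Or.inr (Or.inl h3)
    · have hkm : k = m := by omega
      subst hkm
      have hwn := st.Uo_nb (sh.mem h1 h2).1 hw
      by_cases hwU : w ∈ Uo G g x l a b
      · exact Or.inl hwU
      by_cases hwb' : w = b i
      · exact Or.inr (Or.inl hwb')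
      have hwa : w ≠ a i := fun h3 => hwb (mem_base.2 (Or.inl h3))
      rcases hlegs w hw ⟨hwn.1, hwU, hwa, hwb'⟩ with h3 | h3
      · exact Or.inr (Or.inr (Or.inl h3))
      · exact Or.inr (Or.inr (Or.inr (Or.inr ⟨rfl, h3, bool_eq_of_ne hwn.2 (sh.col_t hUcol)⟩)))
  · intro w hw haw hwb
    rcases hst.2.2 w hw haw with h1 | h1 | h1
    · exact Or.inl h1
    · exact absurd (mem_base.2 (Or.inl h1)) hwb
    · exact Or.inr h1
  · intro y hy hyb hyt hcy k h1 h2 hyk
    by_cases hk : k < m
    · rcases h.path_inner sh h1 hk hyk.symm with h3 | h3 | h3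
      · obtain ⟨h4, h5⟩ := sh.common_exit hUcol (hlive h1 h2 h3 hyk) h1 h2 hyk hyt hC htL
        exact hyb (mem_base.2 (Or.inr ⟨m, sh.pos, le_rfl, h5⟩))
      · exact hyb (mem_base.2 (Or.inl h3))
      · subst h3
        -- the exit is a special of another pair
        have h4 := h.ls.h1 hG hB hC hai (Or.inr rfl) (sh.mem h1 h2).1 hyk hex.1 hyt
        have h5 : ∃ j, t = a j ∨ t = b j := by
          by_contra h6
          push Not at h6
          exact hex.2.1 ⟨hex.1, h6, h4.2, h4.1⟩
        obtain ⟨j, hj⟩ := h5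
        have hjx := st.ne_x_of_special (mem_rest.1 hex.1).1 hj
        have hij : i ≠ j := by
          rintro rfl
          rcases hj with hj | hj
          · exact hex.2.2.1 hj
          · exact hex.2.2.2 hj
        exact h.ls.h2 hB hij hai hjx (Or.inr rfl) hj hyt (sh.mem h1 h2).1 hyk (sh.mem sh.pos le_rfl).1
          sh.exit.symm
    · have hkm : k = m := by omega
      subst hkm
      exact h.star.Uo_col (sh.mem h1 h2).1 _ hyk.symm (bool_eq_of_ne hcy (sh.col_t hUcol).symm)

end Pool.Agent.BLN
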