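import Pool.Agent.BLN.Pth.LSH
import Pool.Agent.BLN.Pth.Short

/-!
# A dead neighbour which sees the exit

`LS.d1` : a special `a i` with two neighbours `u`, `v 1` in `Uo`, a walk `v 1, …, v m` in `Uo` (`m ≥ 3`,
only `v m` has an exit) to an exit `k` which is a neighbour of `u`, too: the star moves to `u`, where
`v 2, …, v (m-1)` is a walk from the special `v 1` to the special `v m`; for `m = 3` the star moves on to
`v 2`, and the three leaves of `u` are specials, or the star returns to `x` with a wrong leaf, or a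
hexagon gives a solution.
-/

set_option autoImplicit false
set_option linter.unusedSectionVars false

namespace Pool.Agent.BLN

open Finset Pool.Agent.IVT Star3

variable {V : Type} [Fintype V] [DecidableEq V]
variable {G : SimpleGraph V} [DecidableRel G.Adj] {c : V → Bool} {x : V} {l a b : Fin 3 → V}

/-- No walk of length `m` from a special with both neighbours in `Uo` to an exit. -/
def CU (G : SimpleGraph V) [DecidableRel G.Adj] (m : ℕ) : Prop :=
  ∀ (g : V → Bool) (x : V) (l a b : Fin 3 → V), Fr G g x l a b → ∀ i, a i ≠ x →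
    ∀ (u : V) (v : ℕ → V) (t : V), u ∈ Uo G g x l a b → G.Adj (a i) u → u ≠ v 1 →
      G.Adj (a i) (v 1) → UTail G (Uo G g x l a b) v m t → t ∉ Uo G g x l a b → t ≠ a i → t ≠ b i →
      (m = 1 → ∃ w ∈ Uo G g x l a b, G.Adj (v 1) w) → False

theorem bool_false_of {p q : Bool} (h : p ≠ q) (hq : q = true) : p = false := by
  revert h hq; cases p <;> cases q <;> simp

theorem bool_true_of {p q : Bool} (h : p ≠ q) (hq : q = false) : p = true := by
  revert h hq; cases p <;> cases q <;> simp

section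

/-- neighbours of a vertex of `Uo` of colour `false` have colour `true` in `g` -/
theorem Fr.uo_false (h : Fr G c x l a b) {u w : V} (hu : u ∈ Uo G c x l a b) (hc : c u = false)
    (hw : G.Adj u w) : c w = true := bool_true_of (h.star.Uo_nb hu hw).2 hc

theorem Fr.uo_true (h : Fr G c x l a b) {u w : V} (hu : u ∈ Uo G c x l a b) (hc : c u = true)
    (hw : G.Adj u w) : c w = false := bool_false_of (h.star.Uo_nb hu hw).2 hc

/-- A vertex of degree three without own neighbours, away from the star, is in `Uo`. -/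
theorem Fr.uo_of {u : V} {l' a' b' : Fin 3 → V} (h' : Fr G c u l' a' b') {w : V}
    (hd : G.degree w = 3) (ho : ∀ z, G.Adj w z → c z ≠ c w) (hwu : w ≠ u) (hnu : ¬ G.Adj u w)
    (hnl : ∀ z, G.Adj u z → ¬ G.Adj w z) : w ∈ Uo G c u l' a' b' := by
  refine ⟨?_, ?_, hd, ?_⟩
  · rw [mem_rest]
    refine ⟨hwu, ?_⟩
    rintro j rfl
    exact hnu ((h'.star.nx _).2 ⟨j, rfl⟩)
  · intro j
    constructor
    · rintro rfl
      exact hnl (l' j) ((h'.star.nx _).2 ⟨j, rfl⟩) ((h'.star.nl j _).2 (Or.inr (Or.inl rfl))).symm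
    · rintro rfl
      exact hnl (l' j) ((h'.star.nx _).2 ⟨j, rfl⟩) ((h'.star.nl j _).2 (Or.inr (Or.inr rfl))).symm
  · rw [ownIn, card_eq_zero, filter_eq_empty_iff]
    rintro z - ⟨h1, h2⟩
    exact ho z h1 h2

theorem Fr.starCol_eq (h : Fr G c x l a b) : starCol c x l false = c := by
  rw [h.star.starCol_eq]
  exact h.eq_sc

/-- A neighbour of a centre is not in `Uo`. -/
theorem Fr.nbr_not_uo (h : Fr G c x l a b) {u w : V} (hu : Cen G c u) (hw : G.Adj u w) :
    w ∉ Uo G c x l a b := by
  intro h1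
  rcases hu.leaf hw with h2 | ⟨m, t, hnb, hm, -⟩
  · have := h1.2.2.1
    omega
  · have h3 := (h.star.Uo_nb h1 hnb.ay).2
    rw [hm, hu.nbr hw] at h3
    exact h3 rfl

end

/-- The gadget: `u ~ a i, k, k'`, `p ~ v1, y, y'`, `a i ~ v1`, `k ~ y`, `k' ~ y'`. -/
structure HubGad (G : SimpleGraph V) [DecidableRel G.Adj] (g : V → Bool) (x : V) (l a b : Fin 3 → V)
    (i : Fin 3) (u p v1 k y k' y' : V) (l' a' b' : Fin 3 → V) : Prop where
  fr : Fr G g x l a b
  hi : a i ≠ x
  uU : u ∈ Uo G g x l a b
  pU : p ∈ Uo G g x l a b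
  vU : v1 ∈ Uo G g x l a b
  yU : y ∈ Uo G g x l a b
  yU' : y' ∈ Uo G g x l a b
  nu : Nb G u (a i) k k'
  np : Nb G p v1 y y'
  av : G.Adj (a i) v1
  ky : G.Adj k y
  ky' : G.Adj k' y'
  cu : Fr G g u l' a' b'
  cp : Cen G (du g u l') p
  r1 : ∀ w, G.Adj v1 w → w ≠ a i → w ∈ Uo G g x l a b

namespace HubGad

variable {g : V → Bool} {i : Fin 3} {u p v1 k y k' y' : V} {l' a' b' : Fin 3 → V}

theorem symm (h : HubGad G g x l a b i u p v1 k y k' y' l' a' b') :
    HubGad G g x l a b i u p v1 k' y' k y l' a' b' :=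
  ⟨h.fr, h.hi, h.uU, h.pU, h.vU, h.yU', h.yU, h.nu.swap G, h.np.swap G, h.av, h.ky', h.ky, h.cu, h.cp,
    h.r1⟩

variable (h : HubGad G g x l a b i u p v1 k y k' y' l' a' b')
include h

theorem cenu : Cen G g u := ⟨_, _, _, h.cu⟩

theorem gu : g u = false := h.cu.gx
theorem ga : g (a i) = true := h.cenu.nbr h.nu.ax
theorem gk : g k = true := h.cenu.nbr h.nu.ay
theorem gk' : g k' = true := h.cenu.nbr h.nu.az
theorem kU : k ∉ Uo G g x l a b := h.fr.nbr_not_uo h.cenu h.nu.ay
theorem kU' : k' ∉ Uo G g x l a b := h.fr.nbr_not_uo h.cenu h.nu.az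
theorem gv : g v1 = false := bool_false_of (h.fr.star.Uo_nb h.vU h.av.symm).2.symm h.ga
theorem gy : g y = false := bool_false_of (h.fr.star.Uo_nb h.yU h.ky.symm).2.symm h.gk
theorem gy' : g y' = false := h.symm.gy
theorem gp : g p = true := bool_true_of (h.fr.star.Uo_nb h.pU h.np.ax).2.symm h.gv

theorem hup : ¬ G.Adj u p := by
  intro h1
  rcases (h.nu.adj p).1 h1 with h2 | h2 | h2
  · exact (h.pU.2.1 i).1 h2
  · exact h.kU (h2 ▸ h.pU)
  · exact h.kU' (h2 ▸ h.pU)

theorem nav : ¬ G.Adj u v1 := by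
  intro h1
  have := h.fr.uo_false h.uU h.gu h1
  rw [h.gv] at this
  exact absurd this (by decide)

theorem nay : ¬ G.Adj u y := by
  intro h1
  have := h.fr.uo_false h.uU h.gu h1
  rw [h.gy] at this
  exact absurd this (by decide)

theorem nay' : ¬ G.Adj u y' := h.symm.nay

theorem u_ne_v : u ≠ v1 := by
  rintro rfl
  exact h.hup h.np.ax.symm

theorem u_ne_y : u ≠ y := by
  rintro rfl
  exact h.hup h.np.ay.symm

theorem u_ne_y' : u ≠ y' := h.symm.u_ne_y

/-- the neighbours of `a i` -/
theorem nai : Nb G (a i) (l i) u v1 := by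
  refine nb_of_three3 G (h.fr.star.deg_a i h.hi) ((h.fr.nb_l i h.hi).ay.symm) h.nu.ax.symm h.av ?_ ?_
    h.u_ne_v
  · exact (h.fr.star.rest_ne_l h.uU.1 i).symm
  · exact (h.fr.star.rest_ne_l h.vU.1 i).symm

/-- the neighbours of `k` : the third one is its mate -/
theorem nk : ∃ z, Nb G k u z y ∧ g z = true ∧ G.degree z = 3 ∧ ¬ G.Adj u z := by
  rcases h.cenu.leaf h.nu.ay with h1 | ⟨m, t, hnb, hm, ht, dm, -, -, hum⟩
  · exfalso
    exact h.u_ne_y ((pend_adj G h1 h.nu.ay.symm y).1 h.ky).symm
  · rcases (hnb.adj y).1 h.ky with h2 | h2 | h2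
    · exact absurd h2.symm h.u_ne_y
    · rw [← h2, h.gy] at hm
      exact absurd hm (by decide)
    · rw [← h2] at hnb
      exact ⟨m, hnb, hm, dm, hum⟩

/-- the neighbours of `y` : the third one has no own neighbours after the flip of the star of `u` -/
theorem ny : ∃ r, Nb G y p k r ∧ du g u l' r = false ∧ G.degree r = 3 ∧
    ∀ z, G.Adj r z → du g u l' z = true := by
  rcases h.cp.leaf h.np.ay with h1 | ⟨m, t, hnb, -, ht, -, dt, ot, -⟩
  · have := h.yU.2.2.1
    omega
  · have hk : du g u l' k = true := (h.cu.du_true_iff h.gk).2 h.nu.ay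
    rcases (hnb.adj k).1 h.ky.symm with h2 | h2 | h2
    · exfalso
      exact h.kU (h2 ▸ h.pU)
    · rw [← h2] at hnb
      exact ⟨t, hnb, ht, dt, ot⟩
    · rw [← h2, hk] at ht
      exact absurd ht (by decide)

/-- **Two ordinary leaves.** The star moves to `u`, to `p` and back to `x`, where `l i` is wrong. -/
theorem two_ord (hG : Deg13 G) (hB : NoBal3 G) (hC : C4Free G) (hk : ∀ j, k ≠ a j)
    (hk' : ∀ j, k' ≠ a j) : False := by
  obtain ⟨l2, a2, b2, hp⟩ := h.cp
  have hd := hp.dual
  have st := h.fr.star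
  have nai := h.nai
  -- values of the last colouring
  have claimT : ∀ w, g w = true → ¬ G.Adj u w → w ≠ p → du (du g u l') p l2 w = true := by
    intro w h1 h2 h3
    refine hp.du_of_false ?_ h3
    by_contra h4
    have h5 : du g u l' w = true := by simpa using h4
    exact h2 ((h.cu.du_true_iff h1).1 h5)
  have claimF : ∀ w, g w = false → w ≠ u → ¬ G.Adj p w → du (du g u l') p l2 w = false := by
    intro w h1 h2 h3
    by_contra h4
    have h5 : du (du g u l') p l2 w = true := by simpa using h4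
    exact h3 ((hp.du_true_iff (h.cu.du_of_false h1 h2)).1 h5)
  have gx : du (du g u l') p l2 x = false := by
    refine claimF x h.fr.gx ?_ ?_
    · rintro rfl
      exact (mem_rest.1 h.uU.1).1 rfl
    · intro h1
      exact (mem_rest.1 (st.Uo_nb h.pU h1).1).1 rfl
  have gl : ∀ j, du (du g u l') p l2 (l j) = true := by
    intro j
    refine claimT _ (h.fr.gl j) ?_ (st.rest_ne_l h.pU.1 j).symm
    intro h1
    exact st.rest_ne_l (st.Uo_nb h.uU h1).1 j rfl
  have hpb : ∀ j, b j ≠ x → ¬ G.Adj p (b j) := by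
    intro j hj h1
    rcases (h.np.adj _).1 h1 with h2 | h2 | h2
    · exact (h.vU.2.1 j).2 h2.symm
    · exact (h.yU.2.1 j).2 h2.symm
    · exact (h.yU'.2.1 j).2 h2.symm
  have gb : ∀ j, b j ≠ x → du (du g u l') p l2 (b j) = false := fun j hj =>
    claimF _ (st.cb j hj) (h.uU.2.1 j).2.symm (hpb j hj)
  have leg : ∀ j, i ≠ j → Leg G (du (du g u l') p l2) x (l j) := by
    intro j hij
    refine ⟨(st.nx _).2 ⟨j, rfl⟩, gl j, ?_⟩
    by_cases hj : a j = x
    · exact Or.inl (st.deg_pl j hj)
    right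
    have hbj := st.b_ne hj
    refine ⟨a j, b j, h.fr.nb_l j hj, gl j, ?_, gb j hbj, st.deg_b j hbj, ?_⟩
    · refine claimT _ (st.ca j hj) ?_ (h.pU.2.1 j).1.symm
      intro h1
      rcases (h.nu.adj _).1 h1 with h2 | h2 | h2
      · exact hij (st.a_inj i j h2.symm h.hi)
      · exact hk j h2.symm
      · exact hk' j h2.symm
    · intro w hw
      have gbj := st.cb j hbj
      have hbw : ∀ z, (g z = true ∨ z ∈ Uo G g x l a b) → b j ≠ z := by
        rintro z hz rfl
        rcases hz with hz | hz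
        · rw [gbj] at hz
          exact absurd hz (by decide)
        · exact (hz.2.1 j).2 rfl
      refine claimT w (h.fr.b_all j hbj hw) ?_ ?_
      · intro h1
        rcases (h.nu.adj _).1 h1 with h2 | h2 | h2
        · subst h2
          rcases (nai.adj _).1 hw.symm with h3 | h3 | h3
          · exact st.rest_ne_l (st.b_rest j hbj) i h3
          · exact hbw u (Or.inr h.uU) h3
          · exact hbw v1 (Or.inr h.vU) h3
        · obtain ⟨z, nk, gz, -, -⟩ := h.nk
          subst h2
          rcases (nk.adj _).1 hw.symm with h3 | h3 | h3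
          · exact hbw u (Or.inr h.uU) h3
          · exact hbw z (Or.inl gz) h3
          · exact hbw y (Or.inr h.yU) h3
        · obtain ⟨z, nk, gz, -, -⟩ := h.symm.nk
          subst h2
          rcases (nk.adj _).1 hw.symm with h3 | h3 | h3
          · exact hbw u (Or.inr h.uU) h3
          · exact hbw z (Or.inl gz) h3
          · exact hbw y' (Or.inr h.yU') h3
      · rintro rfl
        exact hpb j hbj hw.symm
  obtain ⟨j, hij⟩ := exists_other i
  obtain ⟨j', hij', hjj⟩ := exists_third hij
  have hcx : Cen G (du (du g u l') p l2) x := by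
    refine cen_of_two_legs hG hB hC hd.valid hd.sum hd.en gx ?_ (leg j hij) (leg j' hij')
      (fun h1 => hjj (st.l_inj h1)) (st.l_nadj j j')
    intro w hw
    obtain ⟨q, rfl⟩ := (st.nx w).1 hw
    exact gl q
  rcases hcx.leaf (st.l_adj i) with h1 | ⟨m, t, hnb, hm, -⟩
  · have := st.deg_l i h.hi
    omega
  · rcases (st.nl i m).1 hnb.ay with h2 | h2 | h2
    · exact hnb.xy h2.symm
    · have h3 : du g u l' (a i) = true := (h.cu.du_true_iff h.ga).2 h.nu.ax
      have h4 : G.Adj p (a i) := by
        rw [h2] at hm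
        exact (hp.du_true_iff h3).1 hm
      rcases (h.np.adj _).1 h4 with h5 | h5 | h5
      · exact (h.vU.2.1 i).1 h5.symm
      · exact (h.yU.2.1 i).1 h5.symm
      · exact (h.yU'.2.1 i).1 h5.symm
    · rw [h2, gb i (st.b_ne h.hi)] at hm
      exact absurd hm (by decide)

/-- **One special and one ordinary leaf.** The hexagon through the ordinary leaf gives a solution. -/
theorem hexa (hB : NoBal3 G) (hC : C4Free G) {j : Fin 3} (hij : i ≠ j) (hkj : k = a j)
    (hk' : ∀ j, k' ≠ a j) : False := by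
  subst hkj
  have st := h.fr.star
  have nai := h.nai
  have hj : a j ≠ x := (mem_rest.1 (st.Uo_nb h.uU h.nu.ay).1).1
  have hir := st.a_rest i h.hi
  have hk'r := (st.Uo_nb h.uU h.nu.az).1
  obtain ⟨z', nk, gz', dz', huz'⟩ := h.symm.nk
  obtain ⟨r', ny, gdr', dr', or'⟩ := h.symm.ny
  have ga := h.ga
  have gu := h.gu
  have gk' := h.gk'
  have gy' := h.gy'
  have gp := h.gp
  have gv := h.gv
  have gy := h.gy
  have gne : ∀ {v w : V}, g v = true → g w = false → v ≠ w := by
    rintro v w h1 h2 rfl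
    rw [h1] at h2
    exact absurd h2 (by decide)
  -- the hexagon
  obtain ⟨S, hS⟩ : ∃ S : Finset V, S = {a i, u, k', y', p, v1} := ⟨_, rfl⟩
  have hmem : ∀ v, v ∈ S ↔ v = a i ∨ v = u ∨ v = k' ∨ v = y' ∨ v = p ∨ v = v1 := by
    intro v
    simp [hS]
  have mai : a i ∈ S := (hmem _).2 (by tauto)
  have mu : u ∈ S := (hmem _).2 (by tauto)
  have mk : k' ∈ S := (hmem _).2 (by tauto)
  have my : y' ∈ S := (hmem _).2 (by tauto)
  have mp : p ∈ S := (hmem _).2 (by tauto)
  have mv : v1 ∈ S := (hmem _).2 (by tauto)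
  have hsub : S ⊆ rest x l := by
    intro v hv
    rcases (hmem v).1 hv with rfl | rfl | rfl | rfl | rfl | rfl
    · exact hir
    · exact h.uU.1
    · exact hk'r
    · exact h.yU'.1
    · exact h.pU.1
    · exact h.vU.1
  -- which vertices of `S` are true
  have hSt : ∀ w ∈ S, g w = true → w = a i ∨ w = k' ∨ w = p := by
    intro w hw gw
    rcases (hmem w).1 hw with rfl | rfl | rfl | rfl | rfl | rfl
    · exact Or.inl rfl
    · exact absurd rfl (gne gw gu)
    · exact Or.inr (Or.inl rfl)
    · exact absurd rfl (gne gw gy')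
    · exact Or.inr (Or.inr rfl)
    · exact absurd rfl (gne gw gv)
  have hSf : ∀ w ∈ S, g w = false → w = u ∨ w = y' ∨ w = v1 := by
    intro w hw gw
    rcases (hmem w).1 hw with rfl | rfl | rfl | rfl | rfl | rfl
    · exact absurd rfl (gne ga gw)
    · exact Or.inl rfl
    · exact absurd rfl (gne gk' gw)
    · exact Or.inr (Or.inl rfl)
    · exact absurd rfl (gne gp gw)
    · exact Or.inr (Or.inr rfl)
  -- a special in `S` is `a i`
  have hspS : ∀ q, a q ≠ x → a q ∈ S → q = i := by
    intro q hq h1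
    rcases hSt _ h1 (st.ca q hq) with h2 | h2 | h2
    · exact st.a_inj q i h2 hq
    · exact absurd h2.symm (hk' q)
    · exact absurd h2.symm (h.pU.2.1 q).1
  have hbS : ∀ q, b q ≠ x → b q ∉ S := by
    intro q hq h1
    rcases hSf _ h1 (st.cb q hq) with h2 | h2 | h2
    · exact (h.uU.2.1 q).2 h2.symm
    · exact (h.yU'.2.1 q).2 h2.symm
    · exact (h.vU.2.1 q).2 h2.symm
  have hxS : x ∉ S := fun h1 => (mem_rest.1 (hsub h1)).1 rfl
  have hA : ∀ q, a q ∈ S ↔ q ∈ ({i} : Finset (Fin 3)) := by
    intro q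
    rw [mem_singleton]
    constructor
    · intro h1
      by_cases hq : a q = x
      · exact absurd (hq ▸ h1) hxS
      · exact hspS q hq h1
    · rintro rfl
      exact mai
  have hBm : ∀ q, b q ∈ S ↔ q ∈ (∅ : Finset (Fin 3)) := by
    intro q
    simp only [notMem_empty, iff_false]
    intro h1
    by_cases hq : b q = x
    · exact hxS (hq ▸ h1)
    · exact hbS q hq h1
  have halpha : alpha a b S = 1 := by
    rw [st.alpha_eq _ _ hA hBm]
    simp
  have hkk : kk g S = 0 := by
    rw [kk, hS, sum_insert, sum_insert, sum_insert, sum_insert, sum_insert, sum_singleton, ga, gu, gk', gy',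
      gp, gv]
    · simp [sg]
    · simp only [mem_singleton]
      exact gne gp gv
    · simp only [mem_insert, mem_singleton, not_or]
      exact ⟨(gne gp gy').symm, h.np.xz.symm⟩
    · simp only [mem_insert, mem_singleton, not_or]
      exact ⟨gne gk' gy', fun h1 => h.kU' (h1 ▸ h.pU), gne gk' gv⟩
    · simp only [mem_insert, mem_singleton, not_or]
      exact ⟨(gne gk' gu).symm, h.u_ne_y', (gne gp gu).symm, h.u_ne_v⟩
    · simp only [mem_insert, mem_singleton, not_or]
      exact ⟨gne ga gu, (hk' i).symm, gne ga gy', (h.pU.2.1 i).1.symm, gne ga gv⟩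
  have hval : Val g a b S true := Or.inl ⟨rfl, by rw [halpha], by rw [halpha, hkk]; norm_num⟩
  have dif : ∀ {v w : V}, v ∈ S → w ∈ S → g w ≠ g v → flips S g w ≠ flips S g v := by
    intro v w h1 h2 h3 h4
    rw [flips_mem h1, flips_mem h2] at h4
    exact h3 (by simpa using h4)
  have ntf : ∀ {v w : V}, g v = true → g w = false → g w ≠ g v := fun h1 h2 => by
    rw [h1, h2]; decide
  have nft : ∀ {v w : V}, g v = false → g w = true → g w ≠ g v := fun h1 h2 => by
    rw [h1, h2]; decide
  -- inside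
  have hin : ∀ v ∈ S, 2 * cost G g x l S v < G.degree v := by
    intro v hv
    rcases (hmem v).1 hv with rfl | rfl | rfl | rfl | rfl | rfl
    · exact st.cost_lt_of_one hir (Or.inl rfl) h.uU.1 h.nu.ax.symm (dif mai mu (ntf ga gu))
    · exact cost_lt_of_two h.uU.2.2.1 hir hk'r (hk' i).symm h.nu.ax h.nu.az (dif mu mai (nft gu ga))
        (dif mu mk (nft gu gk'))
    · exact cost_lt_of_two (nk.degree G) h.uU.1 h.yU'.1 h.u_ne_y' h.nu.az.symm h.ky'
        (dif mk mu (ntf gk' gu)) (dif mk my (ntf gk' gy'))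
    · exact cost_lt_of_two h.yU'.2.2.1 hk'r h.pU.1 (fun h1 => h.kU' (h1 ▸ h.pU)) h.ky'.symm
        h.np.az.symm (dif my mk (nft gy' gk')) (dif my mp (nft gy' gp))
    · exact cost_lt_of_two h.pU.2.2.1 h.yU'.1 h.vU.1 h.np.xz.symm h.np.az h.np.ax
        (dif mp my (ntf gp gy')) (dif mp mv (ntf gp gv))
    · exact cost_lt_of_two h.vU.2.2.1 hir h.pU.1 (h.pU.2.1 i).1.symm h.av.symm h.np.ax.symm
        (dif mv mai (nft gv ga)) (dif mv mp (nft gv gp))
  -- outside
  have key : ∀ v ∈ rest x l, v ∉ S → g v = true → ¬ G.Adj u v →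
      (∀ w ∈ rest x l, w ∉ S → G.Adj v w → g w ≠ true) → G.degree v = 3 →
      2 * cost G g x l S v < G.degree v := by
    intro v hv hvS gtv hvu hown hdeg
    rw [hdeg, cost_eq]
    have h1 : ownIn G (flips S g) (rest x l) v ≤ 1 := by
      unfold ownIn
      rw [card_le_one]
      have h2 : ∀ w, w ∈ (rest x l).filter (fun w => G.Adj v w ∧ flips S g w = flips S g v) →
          G.Adj v w ∧ (w = y' ∨ w = v1) := by
        intro w hw
        rw [mem_filter] at hw
        obtain ⟨h3, h4, h5⟩ := hw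
        rw [flips_ne hvS, gtv] at h5
        by_cases h6 : w ∈ S
        · rw [flips_mem h6] at h5
          rcases hSf w h6 (by simpa using h5) with h7 | h7 | h7
          · exact absurd (h7 ▸ h4.symm) hvu
          · exact ⟨h4, Or.inl h7⟩
          · exact ⟨h4, Or.inr h7⟩
        · rw [flips_ne h6] at h5
          exact absurd h5 (hown w h3 h6 h4)
      have h3 : ¬ (G.Adj v y' ∧ G.Adj v v1) := by
        rintro ⟨h4, h5⟩
        rcases hC v y' p v1 h4 h.np.az.symm h.np.ax h5.symm with h6 | h6
        · exact hvS (h6 ▸ mp)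
        · exact h.np.xz h6.symm
      intro w hw w' hw'
      obtain ⟨h4, h5⟩ := h2 w hw
      obtain ⟨h6, h7⟩ := h2 w' hw'
      rcases h5 with rfl | rfl <;> rcases h7 with rfl | rfl
      · rfl
      · exact absurd ⟨h4, h6⟩ h3
      · exact absurd ⟨h6, h4⟩ h3
      · rfl
    omega
  have gtr' : g r' = true := by
    cases h1 : g r'
    · rw [h.cu.du_of_false h1 (fun h2 => h.nay' (h2 ▸ ny.az.symm))] at gdr'
      exact absurd gdr' (by decide)
    · rfl
  have hnb : ∀ v ∈ rest x l, v ∉ S → (∃ w ∈ S, G.Adj v w) → 2 * cost G g x l S v < G.degree v := by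
    rintro v hv hvS ⟨w, hw, hvw⟩
    rcases (hmem w).1 hw with rfl | rfl | rfl | rfl | rfl | rfl
    · rcases (nai.adj v).1 hvw.symm with h1 | h1 | h1
      · exact absurd h1 (st.rest_ne_l hv i)
      · exact absurd (h1 ▸ mu) hvS
      · exact absurd (h1 ▸ mv) hvS
    · rcases (h.nu.adj v).1 hvw.symm with h1 | h1 | h1
      · exact absurd (h1 ▸ mai) hvS
      · subst h1
        refine st.cost_lt_of_one hv (Or.inl rfl) h.yU.1 h.ky ?_
        have hyS : y ∉ S := by
          intro h2
          rcases hSf y h2 gy with h3 | h3 | h3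
          · exact h.u_ne_y h3.symm
          · exact h.np.yz h3
          · exact h.np.xy h3.symm
        rw [flips_ne hyS, flips_ne hvS]
        exact ntf (st.ca j hj) gy
      · exact absurd (h1 ▸ mk) hvS
    · rcases (nk.adj v).1 hvw.symm with h1 | h1 | h1
      · exact absurd (h1 ▸ mu) hvS
      · subst h1
        refine key v hv hvS gz' huz' ?_ dz'
        intro w' h2 h3 h4 h5
        have h6 := h.fr.valid.own1 dz' h4 hvw (by rw [h5, gz']) (by rw [gk', gz'])
        exact h3 (h6 ▸ mk)
      · exact absurd (h1 ▸ my) hvS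
    · rcases (ny.adj v).1 hvw.symm with h1 | h1 | h1
      · exact absurd (h1 ▸ mp) hvS
      · exact absurd (h1 ▸ mk) hvS
      · subst h1
        refine key v hv hvS gtr' ?_ ?_ dr'
        · intro h2
          have h3 := or' u h2.symm
          rw [du_x] at h3
          exact absurd h3 (by decide)
        · intro w' h2 h3 h4 h5
          have h6 := (h.cu.du_true_iff h5).1 (or' w' h4)
          rcases (h.nu.adj w').1 h6 with h7 | h7 | h7
          · exact h3 (h7 ▸ mai)
          · subst h7
            exact st.rest_ne_l hv j (h.fr.a_true j hj h4.symm gtr')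
          · exact h3 (h7 ▸ mk)
    · rcases (h.np.adj v).1 hvw.symm with h1 | h1 | h1
      · exact absurd (h1 ▸ mv) hvS
      · subst h1
        rw [h.yU.2.2.1, cost_eq]
        have h1 : ownIn G (flips S g) (rest x l) v ≤ 1 := by
          unfold ownIn
          rw [card_le_one]
          have h2 : ∀ w', w' ∈ (rest x l).filter (fun w => G.Adj v w ∧ flips S g w = flips S g v) →
              w' = w := by
            intro w' hw'
            rw [mem_filter] at hw'
            obtain ⟨h3, h4, h5⟩ := hw'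
            rw [flips_ne hvS, gy] at h5
            by_cases h6 : w' ∈ S
            · rw [flips_mem h6] at h5
              rcases hSt w' h6 (by simpa using h5) with h7 | h7 | h7
              · exfalso
                subst h7
                rcases (nai.adj v).1 h4.symm with h8 | h8 | h8
                · exact st.rest_ne_l hv i h8
                · exact h.u_ne_y h8.symm
                · exact h.np.xy h8.symm
              · exfalso
                subst h7
                rcases (nk.adj v).1 h4.symm with h8 | h8 | h8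
                · exact h.u_ne_y h8.symm
                · exact gne gz' gy h8.symm
                · exact h.np.yz h8
              · exact h7
            · rw [flips_ne h6, h.fr.uo_false h.yU gy h4] at h5
              exact absurd h5 (by decide)
          intro w1 hw1 w2 hw2
          rw [h2 w1 hw1, h2 w2 hw2]
        omega
      · exact absurd (h1 ▸ my) hvS
    · have h1 : v ≠ a i := fun h2 => hvS (h2 ▸ mai)
      have h2 := h.r1 v hvw.symm h1
      have h3 := h.fr.uo_false h.vU gv hvw.symm
      refine key v hv hvS h3 (fun h4 => h.fr.nbr_not_uo h.cenu h4 h2) ?_ h2.2.2.1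
      intro w' _ _ h6 h7
      rw [h.fr.uo_true h2 h3 h6] at h7
      exact absurd h7 (by decide)
  have hexp : ∀ q, a q ≠ x → (a q ∈ S ↔ b q ∈ S) →
      (expo a b S true q ∈ S ∨ ∃ w ∈ S, G.Adj (expo a b S true q) w) →
      cost G g x l S (expo a b S true q) = 0 := by
    intro q hq hiff hex
    exfalso
    have hbq := st.b_ne hq
    have h1 : b q ∉ S := hbS q hbq
    have h2 : a q ∉ S := fun h3 => h1 (hiff.1 h3)
    have he : expo a b S true q = b q := by
      unfold expo
      rw [if_neg (by simp [h2])]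
    rw [he] at hex
    have gb := st.cb q hbq
    have hb : ∀ z, (g z = true ∨ z ∈ Uo G g x l a b) → b q ≠ z := by
      rintro z hz rfl
      rcases hz with hz | hz
      · rw [gb] at hz
        exact absurd hz (by decide)
      · exact (hz.2.1 q).2 rfl
    rcases hex with h3 | ⟨w, hw, hbw⟩
    · exact h1 h3
    rcases (hmem w).1 hw with rfl | rfl | rfl | rfl | rfl | rfl
    · rcases (nai.adj _).1 hbw.symm with h3 | h3 | h3
      · exact st.rest_ne_l (st.b_rest q hbq) i h3
      · exact hb u (Or.inr h.uU) h3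
      · exact hb v1 (Or.inr h.vU) h3
    · exact hb _ (Or.inl (h.fr.uo_false h.uU gu hbw.symm)) rfl
    · rcases (nk.adj _).1 hbw.symm with h3 | h3 | h3
      · exact hb u (Or.inr h.uU) h3
      · exact hb z' (Or.inl gz') h3
      · exact hb y' (Or.inr h.yU') h3
    · exact hb _ (Or.inl (h.fr.uo_false h.yU' gy' hbw.symm)) rfl
    · rcases (h.np.adj _).1 hbw.symm with h3 | h3 | h3
      · exact hb v1 (Or.inr h.vU) h3
      · exact hb y (Or.inr h.yU) h3
      · exact hb y' (Or.inr h.yU') h3
    · exact hb _ (Or.inl (h.fr.uo_false h.vU gv hbw.symm)) rfl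
  obtain ⟨h1, h2⟩ := st.table_local hsub true hval hin hnb hexp
  exact hB _ h1 h2

/-- All three leaves of `u` are specials. -/
theorem gad (hG : Deg13 G) (hB : NoBal3 G) (hC : C4Free G) :
    ∃ W, Gad G g x l a b u p W := by
  have st := h.fr.star
  by_cases hk : ∃ j, k = a j
  · obtain ⟨j, hj⟩ := hk
    have hij : i ≠ j := by
      rintro rfl
      exact h.nu.xy hj.symm
    by_cases hk' : ∃ j, k' = a j
    · obtain ⟨j', hj'⟩ := hk'
      have hij' : i ≠ j' := by
        rintro rfl
        exact h.nu.xz hj'.symm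
      have hjj : j ≠ j' := by
        rintro rfl
        exact h.nu.yz (hj.trans hj'.symm)
      have hjx : a j ≠ x := by
        rw [← hj]
        exact (mem_rest.1 (st.Uo_nb h.uU h.nu.ay).1).1
      have hjx' : a j' ≠ x := by
        rw [← hj']
        exact (mem_rest.1 (st.Uo_nb h.uU h.nu.az).1).1
      have key : ∀ q, a q ≠ x ∧ (if q = i then v1 else if q = j then y else y') ∈ Uo G g x l a b ∧
          G.Adj u (a q) ∧ G.Adj (a q) (if q = i then v1 else if q = j then y else y') ∧
          G.Adj p (if q = i then v1 else if q = j then y else y') := by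
        intro q
        rcases three hij hij' hjj q with rfl | rfl | rfl
        · simp only [if_true]
          exact ⟨h.hi, h.vU, h.nu.ax, h.av, h.np.ax⟩
        · simp only [if_neg hij.symm, if_true]
          exact ⟨hjx, h.yU, hj ▸ h.nu.ay, hj ▸ h.ky, h.np.ay⟩
        · simp only [if_neg hij'.symm, if_neg hjj.symm]
          exact ⟨hjx', h.yU', hj' ▸ h.nu.az, hj' ▸ h.ky', h.np.az⟩
      exact ⟨fun q => if q = i then v1 else if q = j then y else y', fun q => (key q).1, h.uU, h.pU,
        fun q => (key q).2.1, fun q => (key q).2.2.1, fun q => (key q).2.2.2.1, fun q => (key q).2.2.2.2⟩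
    · push Not at hk'
      exact (h.hexa hB hC hij hj hk').elim
  · push Not at hk
    by_cases hk' : ∃ j, k' = a j
    · obtain ⟨j', hj'⟩ := hk'
      have hij' : i ≠ j' := by
        rintro rfl
        exact h.nu.xz hj'.symm
      exact (h.symm.hexa hB hC hij' hj' hk).elim
    · push Not at hk'
      exact (h.two_ord hG hB hC hk hk').elim

end HubGad

/-- **D1.** The exit `k` of the walk is a neighbour of the other neighbour `u` of `a i`. -/
theorem Fr.d1 (hG : Deg13 G) (hB : NoBal3 G) (hC : C4Free G) {g : V → Bool} (h : Fr G g x l a b)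
    {i : Fin 3} (hi : a i ≠ x) {m : ℕ} (IH : CU G (m - 2)) {u k : V} {v : ℕ → V}
    (hu : u ∈ Uo G g x l a b) (hau : G.Adj (a i) u) (huv : u ≠ v 1) (hav : G.Adj (a i) (v 1))
    (hw : UTail G (Uo G g x l a b) v m k) (hm : 3 ≤ m) (huk : G.Adj u k) (hk : k ∉ Uo G g x l a b)
    (hst : ∀ j, 2 ≤ j → j ≤ m → ¬ G.Adj (a i) (v j))
    (hmid : ∀ j, 1 ≤ j → j < m → ∀ w, G.Adj (v j) w → w ∈ Uo G g x l a b ∨ w = a i ∨ w = b i) :
    ∃ y W, Gad G g x l a b u y W := by
  have st := h.star
  have hka : k ≠ a i := by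
    rintro rfl
    exact hst m (by omega) le_rfl hw.exit.symm
  have v1U := hw.mem 1 le_rfl (by omega)
  -- the star at `u`
  have hcu : Cen G g u := by
    have h1 := h.ls.m1_core hG hB hC hi hu (Or.inl v1U) huv hau hav huk hka hk
    rwa [h.starCol_eq] at h1
  obtain ⟨l', a', b', hu'⟩ := hcu
  have hcu : Cen G g u := ⟨_, _, _, hu'⟩
  have hd := hu'.dual
  obtain ⟨k', nu⟩ := exists_nb23 G hu.2.2.1 hau.symm huk (Ne.symm hka)
  have ga : g (a i) = true := hcu.nbr nu.ax
  have gk : g k = true := hcu.nbr nu.ay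
  have gk' : g k' = true := hcu.nbr nu.az
  have gbi : g (b i) = false := st.cb i (st.b_ne hi)
  have hk' : k' ∉ Uo G g x l a b := h.nbr_not_uo hcu nu.az
  have gv1 : g (v 1) = false := bool_false_of (st.Uo_nb v1U hav.symm).2.symm ga
  have nuu : ∀ w, w ∈ Uo G g x l a b → ¬ G.Adj u w := fun w hw h1 => h.nbr_not_uo hcu h1 hw
  -- the index of `a i`
  obtain ⟨q0, hq0⟩ := (hu'.star.nx (a i)).1 hau.symm
  have hv1 : v 1 = b' q0 := by
    rcases (hu'.star.nl q0 (v 1)).1 (by rw [← hq0]; exact hav) with h1 | h1 | h1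
    · exact absurd h1.symm huv
    · exfalso
      have h2 : a' q0 ≠ u := fun h3 => huv (h1.trans h3).symm
      have h3 := hu'.star.ca q0 h2
      rw [← h1, gv1] at h3
      exact absurd h3 (by decide)
    · exact h1
  have hb0 : b' q0 ≠ u := fun h1 => huv (hv1.trans h1).symm
  -- the third neighbour of `v 1`
  have hv2 := hw.adj 1 le_rfl (by omega)
  have v2U := hw.mem 2 (by omega) (by omega)
  obtain ⟨r1, nv⟩ := exists_nb23 G v1U.2.2.1 hav.symm hv2 (v2U.2.1 i).1.symm
  have hr1 : ∀ w, G.Adj (v 1) w → w ≠ a i → w ∈ Uo G g x l a b := by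
    intro w h1 h2
    rcases hmid 1 le_rfl (by omega) w h1 with h3 | h3 | h3
    · exact h3
    · exact absurd h3 h2
    · have h4 := h.uo_false v1U gv1 h1
      rw [h3, gbi] at h4
      exact absurd h4 (by decide)
  have r1U := hr1 r1 nv.az nv.xz.symm
  -- `Uo` at the star of `u`
  have mvt : ∀ w, w ∈ Uo G g x l a b → g w = true → w ∈ Uo G g u l' a' b' := by
    intro w h1 h2
    refine hu'.uo_of h1.2.2.1 (fun z hz => (st.Uo_nb h1 hz).2) ?_ (nuu w h1) ?_
    · rintro rfl
      rw [hcu.gfalse] at h2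
      exact absurd h2 (by decide)
    · intro z hz h3
      have h4 := h.uo_true h1 h2 h3
      rw [hcu.nbr hz] at h4
      exact absurd h4 (by decide)
  have neu : ∀ j, 2 ≤ j → j ≤ m → v j ≠ u := by
    intro j h1 h2 h3
    exact hst j h1 h2 (h3 ▸ hau)
  have mvv : ∀ j, 2 ≤ j → j < m → v j ∈ Uo G g u l' a' b' := by
    intro j h1 h2
    have h3 := hw.mem j (by omega) h2.le
    refine hu'.uo_of h3.2.2.1 (fun z hz => (st.Uo_nb h3 hz).2) (neu j h1 h2.le) (nuu _ h3) ?_
    intro z hz h4
    rcases (nu.adj z).1 hz with rfl | rfl | rfl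
    · exact hst j h1 h2.le h4.symm
    · rcases hmid j (by omega) h2 z h4 with h5 | h5 | h5
      · exact hk h5
      · exact hka h5
      · rw [h5, gbi] at gk
        exact absurd gk (by decide)
    · rcases hmid j (by omega) h2 z h4 with h5 | h5 | h5
      · exact hk' h5
      · exact nu.xz h5.symm
      · rw [h5, gbi] at gk'
        exact absurd gk' (by decide)
  obtain ⟨q1, hq1⟩ := (hu'.star.nx k).1 huk
  have vmU : v m ∉ Uo G g u l' a' b' := by
    intro h1
    rcases (hu'.star.nl q1 (v m)).1 (by rw [← hq1]; exact hw.exit.symm) with h2 | h2 | h2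
    · exact neu m (by omega) le_rfl h2
    · exact (h1.2.1 q1).1 h2
    · exact (h1.2.1 q1).2 h2
  -- the walk `v 2, …, v (m-1)` at the star of `u`
  have fin : (m - 2 = 1 → ∃ w ∈ Uo G g u l' a' b', G.Adj (v 2) w) → False := by
    intro hlast
    refine IH _ _ _ _ _ hd q0 hb0 r1 (fun j => v (j + 1)) (v m) ?_ ?_ nv.yz.symm ?_ ⟨by omega, ?_, ?_, ?_⟩
      ?_ ?_ ?_ ?_
    · rw [Uo_du]
      exact mvt r1 r1U (h.uo_false v1U gv1 nv.az)
    · rw [← hv1]
      exact nv.az
    · rw [← hv1]
      exact hv2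
    · intro j h1 h2
      rw [Uo_du]
      exact mvv (j + 1) (by omega) (by omega)
    · intro j h1 h2
      exact hw.adj (j + 1) (by omega) (by omega)
    · have h1 := hw.adj (m - 1) (by omega) (by omega)
      rw [show m - 1 + 1 = m by omega] at h1
      rw [show m - 2 + 1 = m - 1 by omega]
      exact h1
    · rw [Uo_du]
      exact vmU
    · rw [← hv1]
      intro h1
      exact hst m (by omega) le_rfl (h1 ▸ hav)
    · intro h1
      refine hst m (by omega) le_rfl ?_
      rw [h1, hq0]
      exact (hu'.star.nl q0 _).2 (Or.inr (Or.inl rfl))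
    · intro h1
      obtain ⟨w, h2, h3⟩ := hlast h1
      refine ⟨w, ?_, h3⟩
      rw [Uo_du]
      exact h2
  by_cases hm3 : m = 3
  · subst hm3
    by_cases hlast : ∃ w ∈ Uo G g u l' a' b', G.Adj (v 2) w
    · exact (fin fun _ => hlast).elim
    push Not at hlast
    have hv3 := hw.adj 2 (by omega) (by omega)
    have v3U := hw.mem 3 (by omega) le_rfl
    have h13 : v 1 ≠ v 3 := fun h1 => hst 3 (by omega) le_rfl (h1 ▸ hav)
    obtain ⟨r2, np⟩ := exists_nb23 G v2U.2.2.1 hv2.symm hv3 h13
    have gv2 : g (v 2) = true := h.uo_false v1U gv1 hv2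
    have gr2 : g r2 = false := h.uo_true v2U gv2 np.az
    have hr2 : r2 ∈ Uo G g x l a b ∨ r2 = b i := by
      rcases hmid 2 (by omega) (by omega) r2 np.az with h1 | h1 | h1
      · exact Or.inl h1
      · rw [h1, ga] at gr2
        exact absurd gr2 (by decide)
      · exact Or.inr h1
    -- `r2` is next to `k'`
    have hr2k : G.Adj r2 k' := by
      by_contra hno
      refine hlast r2 ?_ np.az
      have h0 : G.degree r2 = 3 ∧ (∀ z, G.Adj r2 z → g z ≠ g r2) ∧ r2 ≠ u := by
        rcases hr2 with h1 | h1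
        · refine ⟨h1.2.2.1, fun z hz => (st.Uo_nb h1 hz).2, ?_⟩
          rintro rfl
          exact nuu _ v2U np.az.symm
        · refine ⟨by rw [h1]; exact st.deg_b i (st.b_ne hi), ?_, ?_⟩
          · intro z hz
            rw [gr2, h.b_all i (st.b_ne hi) (by rw [← h1]; exact hz)]
            decide
          · intro h2
            exact (hu.2.1 i).2 (h2.symm.trans h1)
      refine hu'.uo_of h0.1 h0.2.1 h0.2.2 ?_ ?_
      · intro h1
        rw [hcu.nbr h1] at gr2
        exact absurd gr2 (by decide)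
      · intro z hz h1
        rcases (nu.adj z).1 hz with rfl | rfl | rfl
        · have h2 : r2 ∈ rest x l := (st.Uo_nb v2U np.az).1
          rcases st.sp_two (st.a_rest i hi) (Or.inl rfl) hu.1 v1U.1 huv hau hav h2 h1.symm with h3 | h3
          · exact h0.2.2 h3
          · exact np.xz h3.symm
        · rcases hC r2 z (v 3) (v 2) h1 hw.exit.symm hv3.symm np.az with h2 | h2
          · exact np.yz h2.symm
          · exact hk (h2 ▸ v2U)
        · exact hno h1
    have hr2U : r2 ∈ Uo G g x l a b := by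
      rcases hr2 with h1 | h1
      · exact h1
      exfalso
      have hk'r := (st.Uo_nb hu nu.az).1
      have hbk : G.Adj (b i) k' := h1 ▸ hr2k
      have hbv : G.Adj (b i) (v 2) := h1 ▸ np.az.symm
      have h2 := h.ls.h1 hG hB hC hi (Or.inr rfl) v2U hbv hk'r hbk
      have h3 : ∃ q, k' = a q := by
        by_contra h3
        push Not at h3
        refine hk' ⟨hk'r, fun q => ⟨h3 q, ?_⟩, h2.2, h2.1⟩
        rintro rfl
        rw [st.cb q (mem_rest.1 hk'r).1] at gk'
        exact absurd gk' (by decide)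
      obtain ⟨q, rfl⟩ := h3
      have hiq : i ≠ q := by
        rintro rfl
        exact nu.xz rfl
      exact h.ls.h2 hB hiq hi (mem_rest.1 hk'r).1 (Or.inr rfl) (Or.inl rfl) hbk v2U hbv hu nu.az.symm
    -- the star at `v 2`
    have hcp : Cen G (du g u l') (v 2) := by
      have h1 := hd.ls.m1_core hG hB hC hb0 (u := v 2) (q := r1) (k := v 3)
        (by rw [Uo_du]; exact mvv 2 le_rfl (by omega))
        (Or.inl (by rw [Uo_du]; exact mvt r1 r1U (h.uo_false v1U gv1 nv.az))) nv.yz
        (by rw [← hv1]; exact hv2) (by rw [← hv1]; exact nv.az) hv3 (by rw [← hv1]; exact h13.symm)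
        (by rw [Uo_du]; exact vmU)
      rwa [hd.starCol_eq] at h1
    have gad : HubGad G g x l a b i u (v 2) (v 1) k (v 3) k' r2 l' a' b' :=
      ⟨h, hi, hu, v2U, v1U, v3U, hr2U, nu, np, hav, hw.exit.symm, hr2k.symm, hu', hcp, hr1⟩
    exact ⟨v 2, gad.gad hG hB hC⟩
  · exact (fin fun h1 => by omega).elim

/-- The claim `CC` for the type with two neighbours in `Uo`. -/
theorem CC.cu {m : ℕ} (h : CC G m) : CU G m := by
  intro g x l a b hf i hi u v t hu hau huv hav hw ht hta htb h1
  have st := hf.star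
  have hmem := hw.mem
  refine h g x l a b hf i (a i) v t ⟨hi, Or.inl rfl, ?_⟩
    ⟨(st.Uo_nb (hmem m hw.pos le_rfl) hw.exit).1, ht, hta, htb⟩ hav ⟨hw.pos, ?_, hw.adj, hw.exit⟩
  · intro w hwr haw
    rcases st.sp_two (st.a_rest i hi) (Or.inl rfl) hu.1 (hmem 1 le_rfl hw.pos).1 huv hau hav hwr haw with h2 | h2
    · exact Or.inl (h2 ▸ hu)
    · exact Or.inl (h2 ▸ hmem 1 le_rfl hw.pos)
  · intro k h2 h3
    refine ⟨hmem k h2 h3, ?_⟩
    by_cases hk : k < m
    · exact ⟨v (k + 1), hmem _ (by omega) hk, hw.adj k h2 hk⟩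
    · by_cases hk1 : k = 1
      · subst hk1
        exact h1 (by omega)
      · refine ⟨v (k - 1), hmem _ (by omega) (by omega), ?_⟩
        have h4 := hw.adj (k - 1) (by omega) (by omega)
        rw [show k - 1 + 1 = k by omega] at h4
        exact h4.symm

/-- **D1** for shortest paths: the other neighbour `q` of the start sees the exit. -/
theorem Fr.d1_short (hG : Deg13 G) (hB : NoBal3 G) (hC : C4Free G) {g : V → Bool}
    (h : Fr G g x l a b) {i : Fin 3} {v : ℕ → V} {m : ℕ} {t : V}
    (sh : Short G (Live G g x l a b) (AlP G g x l a b i) (a i) v m t) (hm : 3 ≤ m) (IH : CC G (m - 2))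
    {q : V} (hq : q ∈ Uo G g x l a b) (haq : G.Adj (a i) q) (hqv : q ≠ v 1) (hqt : G.Adj q t) :
    ∃ y W, Gad G g x l a b q y W :=
  h.d1 hG hB hC sh.al.1.1 IH.cu hq haq hqv sh.start
    ⟨sh.tail.pos, fun k h1 h2 => (sh.tail.mem k h1 h2).1, sh.tail.adj, sh.tail.exit⟩ hm hqt sh.al.2.2.1
    (fun _ h1 h2 => sh.no_start h1 h2 sh.al) fun _ h1 h2 _ hw => h.path_inner sh h1 h2 hw

end Pool.Agent.BLN
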