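import Pool.Agent.BLN.Pth.PDefs
import Pool.Agent.BLN.Pth.LSH

/-!
# The other neighbour of the start sees the exit

The exit path `a i, v 1, …, v m, t` (`m` odd) and a vertex `q` of `Uo` which is adjacent to `a i` and
to `t`, with third neighbour `t2`. Three solutions: `PF.d1A` flips the cycle, `PF.d1B` the cycle and `t2`,
`PF.d1C` the cycle, `t2` and a common neighbour `w` of `v (m - 1)` and `t2`.
-/

set_option autoImplicit false
set_option linter.unusedSectionVars false

namespace Pool.Agent.BLN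

open Finset Pool.Agent.IVT

variable {V : Type} [Fintype V] [DecidableEq V]

/-- the cycle without `q` -/
def pth (s : V) (v : ℕ → V) (m : ℕ) (t : V) : Finset V := insert t (base s v m)

theorem mem_pth {s : V} {v : ℕ → V} {m : ℕ} {t y : V} :
    y ∈ pth s v m t ↔ y = t ∨ y ∈ base s v m := by simp [pth]

/-- the closed exit path -/
structure Cyc (G : SimpleGraph V) [DecidableRel G.Adj] (c : V → Bool) (x : V) (l a b : Fin 3 → V) (i : Fin 3)
    (v : ℕ → V) (m : ℕ) (t q t2 : V) : Prop where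
  pf : PF G c x l a b i v m t
  odd : m % 2 = 1
  hq : q ∈ Star3.Uo G c x l a b
  qb : q ∉ base (a i) v m
  nq : Nb G q (a i) t t2
  t2U : t2 ∉ Star3.Uo G c x l a b

namespace Cyc

variable {G : SimpleGraph V} [DecidableRel G.Adj] {c : V → Bool} {x : V} {l a b : Fin 3 → V} {i : Fin 3}
  {v : ℕ → V} {m : ℕ} {t q t2 : V} (st : Star3 G c x l a b) (cy : Cyc G c x l a b i v m t q t2)
include st cy

theorem haq : G.Adj (a i) q := (cy.nq.ax).symm

theorem ct : c t = true := by
  have := cy.pf.col_t st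
  rw [this, cy.odd]
  rfl

theorem ca : c (a i) = true := st.ca' cy.pf.hi

theorem cq : c q = false := by
  have h := st.Uo_col cy.hq _ cy.nq.ay
  rw [cy.ct st] at h
  cases h1 : c q
  · rfl
  · exact absurd h1.symm h

theorem ct2 : c t2 = true := by
  have h := st.Uo_col cy.hq _ cy.nq.az
  rw [cy.cq st] at h
  cases h1 : c t2
  · exact absurd h1 h
  · rfl

theorem t2R : t2 ∈ rest x l := (st.Uo_nb cy.hq cy.nq.az).1

theorem qR : q ∈ rest x l := cy.hq.1

theorem v1_ne_q : v 1 ≠ q := fun h => cy.qb (mem_base.2 (Or.inr ⟨1, le_rfl, cy.pf.pos, h.symm⟩))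

theorem vm_ne_q : v m ≠ q := fun h => cy.qb (mem_base.2 (Or.inr ⟨m, cy.pf.pos, le_rfl, h.symm⟩))

/-- the rest-neighbours of the start are `v 1` and `q` -/
theorem nb_a {y : V} (hy : y ∈ rest x l) (h : G.Adj (a i) y) : y = v 1 ∨ y = q :=
  st.sp_two (st.a_mem cy.pf.hi) (Or.inl rfl) (cy.pf.rest_v st le_rfl cy.pf.pos) (cy.qR st) (cy.v1_ne_q st)
    cy.pf.start (cy.haq st) hy h

theorem t_ne_q : t ≠ q := fun h => by
  have h1 := cy.nq.ay
  rw [h] at h1
  exact G.irrefl h1

theorem dt (hG : Deg13 G) : G.degree t = 3 :=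
  deg3_of_two G hG cy.nq.ay.symm cy.pf.exit.symm (cy.vm_ne_q st).symm

/-- the rest-neighbours of the exit of the other colour are `v m` and `q` -/
theorem nb_t (hG : Deg13 G) {y : V} (hy : y ∈ rest x l) (h : G.Adj t y) (hc : c y = false) :
    y = v m ∨ y = q := by
  have hvm := cy.pf.rest_v st cy.pf.pos le_rfl
  by_cases hsp : ∃ j, t = a j ∨ t = b j
  · obtain ⟨j, hj⟩ := hsp
    exact st.sp_two cy.pf.tR hj hvm (cy.qR st) (cy.vm_ne_q st) cy.pf.exit.symm cy.nq.ay.symm hy h
  · push Not at hsp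
    have h0 : ownIn G c (rest x l) t ≠ 0 := fun h1 => cy.pf.tU ⟨cy.pf.tR, hsp, cy.dt st hG, h1⟩
    obtain ⟨w, hw, h1, h2⟩ := ownIn_pos h0
    have hcv : c (v m) = false := by
      rw [cy.pf.col st cy.pf.pos le_rfl]
      have := cy.odd
      simp [this]
    have hwv : v m ≠ w := by
      rintro rfl
      rw [hcv, cy.ct st] at h2
      exact absurd h2 (by decide)
    have hwq : q ≠ w := by
      rintro rfl
      rw [cy.cq st, cy.ct st] at h2
      exact absurd h2 (by decide)
    have hnb := nb_of_three3 G (cy.dt st hG) cy.pf.exit.symm cy.nq.ay.symm h1 (cy.vm_ne_q st) hwv hwq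
    rcases (hnb.adj y).1 h with h3 | h3 | h3
    · exact Or.inl h3
    · exact Or.inr h3
    · rw [h3, h2, cy.ct st] at hc
      exact absurd hc (by decide)

theorem q_not_pth : q ∉ pth (a i) v m t := by
  rw [mem_pth]
  rintro (h | h)
  · exact cy.t_ne_q st h.symm
  · exact cy.qb h

theorem kk_q : kk c (insert q (pth (a i) v m t)) = 0 := by
  rw [kk, sum_insert (cy.q_not_pth st)]
  have h := cy.pf.kk_t st
  unfold kk at h
  unfold pth
  rw [h, cy.cq st, if_pos cy.odd]
  rfl

theorem pth_sub : pth (a i) v m t ⊆ rest x l := by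
  intro y hy
  rw [mem_pth] at hy
  rcases hy with rfl | hy
  · exact cy.pf.tR
  · exact cy.pf.base_sub st hy

theorem bi_not : b i ∉ pth (a i) v m t := by
  rw [mem_pth]
  rintro (h | h)
  · exact cy.pf.tb h.symm
  · exact st.a_ne_b' i cy.pf.hi i (cy.pf.sp_base st (Or.inr rfl) h).symm

/-- no `b j` is on the path -/
theorem b_not {j : Fin 3} (hj : a j ≠ x) : b j ∉ pth (a i) v m t := by
  rw [mem_pth]
  rintro (h | h)
  · have := cy.ct st
    rw [← h, st.cb' hj] at this
    exact absurd this (by decide)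
  · exact st.a_ne_b' i cy.pf.hi j (cy.pf.sp_base st (Or.inr rfl) h).symm

/-- costs inside: the path -/
theorem in_pth (hG : Deg13 G) {S : Finset V} (hS : pth (a i) v m t ⊆ S) (hqS : q ∈ S) {y : V}
    (hy : y ∈ pth (a i) v m t) : 2 * cost G c x l S y < G.degree y := by
  rw [mem_pth] at hy
  rcases hy with rfl | hy
  · have hvS : v m ∈ S := hS (mem_pth.2 (Or.inr (mem_base.2 (Or.inr ⟨m, cy.pf.pos, le_rfl, rfl⟩))))
    exact Star3.mid_in (cy.dt st hG) (hS (mem_pth.2 (Or.inl rfl))) (cy.pf.rest_v st cy.pf.pos le_rfl) hvS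
      (cy.qR st) hqS (cy.vm_ne_q st) cy.pf.exit.symm cy.nq.ay.symm
      (fun h => st.Uo_col (cy.pf.mem m cy.pf.pos le_rfl) _ cy.pf.exit h.symm)
      (fun h => st.Uo_col cy.hq _ cy.nq.ay h.symm)
  · exact cy.pf.in_base st hS hy

/-- costs inside: `q` -/
theorem in_q {S : Finset V} (hS : pth (a i) v m t ⊆ S) (hqS : q ∈ S) :
    2 * cost G c x l S q < G.degree q :=
  Star3.mid_in cy.hq.2.2.1 hqS (st.a_mem cy.pf.hi) (hS (mem_pth.2 (Or.inr (mem_base.2 (Or.inl rfl)))))
    cy.pf.tR (hS (mem_pth.2 (Or.inl rfl))) cy.pf.ta.symm cy.nq.ax cy.nq.ay (st.Uo_col cy.hq _ cy.nq.ax)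
    (st.Uo_col cy.hq _ cy.nq.ay)

/-- an outside vertex does not see `a i` -/
theorem out_a {y : V} (hy : y ∈ rest x l) (hyb : y ∉ base (a i) v m) (hyq : y ≠ q) : ¬ G.Adj y (a i) := by
  intro h
  rcases cy.nb_a st hy h.symm with h1 | h1
  · exact hyb (mem_base.2 (Or.inr ⟨1, le_rfl, cy.pf.pos, h1⟩))
  · exact hyq h1

/-- an outside vertex which sees `t` has the colour of `t` -/
theorem out_t (hG : Deg13 G) {y : V} (hy : y ∈ rest x l) (hyb : y ∉ base (a i) v m) (hyq : y ≠ q)
    (h : G.Adj y t) : c y = true := by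
  by_contra hc
  have hc' : c y = false := by simpa using hc
  rcases cy.nb_t st hG hy h.symm hc' with h1 | h1
  · exact hyb (mem_base.2 (Or.inr ⟨m, cy.pf.pos, le_rfl, h1⟩))
  · exact hyq h1

/-- an outside vertex which sees `q` is `t2` -/
theorem out_q {y : V} (hyb : y ∉ base (a i) v m) (hyt : y ≠ t) (h : G.Adj y q) : y = t2 := by
  rcases (cy.nq.adj y).1 h.symm with h1 | h1 | h1
  · exact absurd (mem_base.2 (Or.inl h1)) hyb
  · exact absurd h1 hyt
  · exact h1

/-- exposed specials do not see the base -/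
theorem ex_b {j : Fin 3} (hj : a j ≠ x) (ha : a j ∉ pth (a i) v m t) {s w : V} (hs : s = a j ∨ s = b j)
    (hw : w ∈ base (a i) v m) : ¬ G.Adj s w :=
  cy.pf.ex_base st hj ha (cy.b_not st hj) hs hw

/-- **The cycle.** -/
theorem d1A (hG : Deg13 G) (hC : C4Free G) (ht : ∀ j, t ≠ a j)
    (h2 : (∃ j, t2 = a j) ∨ (G.Adj t t2 ∧ c t2 = c t)) : Sol3 G := by
  have hPS : pth (a i) v m t ⊆ insert q (pth (a i) v m t) := subset_insert _ _
  have hqS : q ∈ insert q (pth (a i) v m t) := mem_insert_self _ _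
  have hsub : insert q (pth (a i) v m t) ⊆ rest x l := by
    intro y hy
    rcases mem_insert.1 hy with rfl | hy
    · exact cy.qR st
    · exact cy.pth_sub st hy
  have split : ∀ y, y ∈ insert q (pth (a i) v m t) ↔ y = q ∨ y = t ∨ y ∈ base (a i) v m := by
    intro y
    rw [mem_insert, mem_pth]
  have nsplit : ∀ y, y ∉ insert q (pth (a i) v m t) → y ≠ q ∧ y ≠ t ∧ y ∉ base (a i) v m := by
    intro y hy
    rw [split] at hy
    tauto
  -- `t2` does not see the path
  have ht2 : ∀ s ∈ base (a i) v m, c s ≠ c t2 → ¬ G.Adj t2 s := by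
    intro s hs hcs h
    rw [mem_base] at hs
    rcases hs with rfl | ⟨k, h3, h4, rfl⟩
    · rw [cy.ca st, cy.ct2 st] at hcs
      exact hcs rfl
    · have h5 : t2 ∉ base (a i) v m := by
        intro h6
        rw [mem_base] at h6
        rcases h6 with h6 | ⟨k', h7, h8, h9⟩
        · exact cy.nq.xz h6.symm
        · exact cy.t2U (h9 ▸ cy.pf.mem k' h7 h8)
      rcases cy.pf.nbv k h3 h4 t2 h.symm h5 with h6 | h6 | h6 | ⟨j, h6⟩ | h6
      · exact cy.t2U h6
      · have := cy.ct2 st
        rw [h6, st.cb' cy.pf.hi] at this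
        exact absurd this (by decide)
      · exact cy.nq.yz h6.symm
      · have hcc := cy.ct st
        have hcc2 := cy.ct2 st
        have htr := cy.pf.tR
        rcases h6 with ⟨h7, -⟩ | ⟨h7, -⟩
        · exact ht j h7
        · have hjx : a j ≠ x := by
            intro h8
            exact (mem_rest.1 htr).1 (h7.trans ((st.a_eq_iff j).1 h8))
          rw [h7, st.cb' hjx] at hcc
          exact absurd hcc (by decide)
      · obtain ⟨rfl, h7, h8⟩ := h6
        rcases hC (v k) t q t2 cy.pf.exit cy.nq.ay.symm cy.nq.az h.symm.symm with h9 | h9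
        · exact cy.vm_ne_q st h9
        · exact cy.nq.yz h9
  refine st.sol_of hsub true (val_true (mem_insert_of_mem (mem_pth.2 (Or.inr (mem_base.2 (Or.inl rfl)))))
    ?_ ?_ (cy.kk_q st)) ?_ ?_ ?_ ?_ ?_
  · intro h
    rcases mem_insert.1 h with h | h
    · exact (cy.hq.2.1 i).2 h.symm
    · exact cy.bi_not st h
  · intro j hj
    rcases (split _).1 hj with h | h | h
    · exact absurd h.symm (cy.hq.2.1 j).1
    · exact absurd h.symm (ht j)
    · exact st.a_inj j i (cy.pf.sp_base st (Or.inl rfl) h) (mem_rest.1 (hsub hj)).1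
  · intro y hy
    rcases mem_insert.1 hy with rfl | hy
    · exact cy.in_q st hPS hqS
    · exact cy.in_pth st hG hPS hqS hy
  · intro y hy hyS w hw w' hw' h h' hc hc'
    obtain ⟨n1, n2, n3⟩ := nsplit y hyS
    -- a base vertex and `q`
    have bq : ∀ s ∈ base (a i) v m, G.Adj y s → c s ≠ c y → G.Adj y q → False := by
      intro s hs h3 h4 h5
      have h6 := cy.out_q st n3 n2 h5
      subst h6
      exact ht2 s hs h4 h3
    have tq : G.Adj y t → c t ≠ c y → False := by
      intro h3 h4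
      rw [cy.ct st, cy.out_t st hG hy n3 n1 h3] at h4
      exact h4 rfl
    rcases (split _).1 hw with rfl | rfl | h1
    · rcases (split _).1 hw' with h2 | h2 | h2
      · exact h2.symm
      · exact (tq (h2 ▸ h') (h2 ▸ hc')).elim
      · exact (bq w' h2 h' hc' h).elim
    · exact (tq h hc).elim
    · rcases (split _).1 hw' with h2 | h2 | h2
      · exact (bq w h1 h hc (h2 ▸ h')).elim
      · exact (tq (h2 ▸ h') (h2 ▸ hc')).elim
      · exact cy.pf.one y hy n3 w h1 w' h2 h h'
  · intro y hy hyS w hw h hc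
    obtain ⟨n1, n2, n3⟩ := nsplit y hyS
    rcases (split _).1 hw with rfl | rfl | h1
    · have h6 := cy.out_q st n3 n2 h
      subst h6
      rcases h2 with ⟨j, hj⟩ | ⟨h7, h8⟩
      · exact ⟨st.special_deg hy (Or.inl hj), fun w' hw' _ h' => st.sp_col hy (Or.inl hj) hw' h'⟩
      · have hd : G.degree y = 3 := deg3_of_two G hG cy.nq.az.symm h7.symm (cy.t_ne_q st).symm
        refine ⟨hd, fun w' hw' hwS h' hc' => ?_⟩
        have h9 := st.own_le_one hd.le hy hw' cy.pf.tR h' h7.symm hc' h8.symm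
        exact hwS ((split _).2 (Or.inr (Or.inl h9)))
    · exfalso
      rw [cy.ct st, cy.out_t st hG hy n3 n1 h] at hc
      exact hc rfl
    · obtain ⟨h3, h4⟩ := cy.pf.own_base st hG hy (by rw [← pth, mem_pth]; tauto) h1 h
      refine ⟨h3, fun w' hw' hwS h' => h4 w' hw' (fun h5 => hwS ((split _).2 (Or.inr (Or.inl h5)))) h'⟩
  · intro j hj _ hbj
    rcases (split _).1 hbj with h | h | h
    · exact (cy.hq.2.1 j).2 h.symm
    · exact cy.b_not st hj (mem_pth.2 (Or.inl h))
    · exact cy.b_not st hj (mem_pth.2 (Or.inr h))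
  · intro j hj haj hbj w hw h
    rw [if_pos rfl] at h
    obtain ⟨n1, n2, n3⟩ := nsplit _ hbj
    have haj' : a j ∉ pth (a i) v m t := fun h5 => haj (mem_insert_of_mem h5)
    have hbR := st.b_mem hj
    rcases (split _).1 hw with rfl | rfl | h1
    · have h2 := st.sp_col hbR (Or.inr rfl) (cy.qR st) h
      rw [cy.cq st, st.cb' hj] at h2
      exact h2 rfl
    · have h2 := cy.out_t st hG hbR n3 n1 h
      rw [st.cb' hj] at h2
      exact absurd h2 (by decide)
    · exact cy.ex_b st hj haj' (Or.inr rfl) h1 h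

/-- **The cycle and `t2`.** -/
theorem d1B (hG : Deg13 G) (hnm : ¬ (G.Adj t t2 ∧ c t2 = c t)) (hs : Simple3 G c x l t2)
    (hr : ∀ y ∈ rest x l, y ∉ base (a i) v m → y ≠ q → G.Adj y t2 → c y ≠ c t2 →
      ∀ k, 1 ≤ k → k ≤ m → ¬ G.Adj y (v k)) : Sol3 G := by
  have hntt : ¬ G.Adj t t2 := fun h => hnm ⟨h, by rw [cy.ct2 st, cy.ct st]⟩
  have ht2b : t2 ∉ base (a i) v m := by
    intro h6
    rw [mem_base] at h6
    rcases h6 with h6 | ⟨k', h7, h8, h9⟩
    · exact cy.nq.xz h6.symm
    · exact cy.t2U (h9 ▸ cy.pf.mem k' h7 h8)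
  have ht2q : t2 ≠ q := fun h => by
    have h1 := cy.nq.az
    rw [h] at h1
    exact G.irrefl h1
  have ht2S : t2 ∉ insert q (pth (a i) v m t) := by
    rw [mem_insert, mem_pth]
    rintro (h | h | h)
    · exact ht2q h
    · exact cy.nq.yz h.symm
    · exact ht2b h
  set S := insert t2 (insert q (pth (a i) v m t)) with hSdef
  have hPS : pth (a i) v m t ⊆ S := (subset_insert _ _).trans (subset_insert _ _)
  have hqS : q ∈ S := mem_insert_of_mem (mem_insert_self _ _)
  have ht2S' : t2 ∈ S := mem_insert_self _ _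
  have hsub : S ⊆ rest x l := by
    intro y hy
    rcases mem_insert.1 hy with rfl | hy
    · exact cy.t2R st
    rcases mem_insert.1 hy with rfl | hy
    · exact cy.qR st
    · exact cy.pth_sub st hy
  have split : ∀ y, y ∈ S ↔ y = t2 ∨ y = q ∨ y = t ∨ y ∈ base (a i) v m := by
    intro y
    rw [hSdef, mem_insert, mem_insert, mem_pth]
  have nsplit : ∀ y, y ∉ S → y ≠ t2 ∧ y ≠ q ∧ y ≠ t ∧ y ∉ base (a i) v m := by
    intro y hy
    rw [split] at hy
    tauto
  have hbS : ∀ j, a j ≠ x → b j ∉ S := by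
    intro j hj h
    rcases (split _).1 h with h | h | h | h
    · have := cy.ct2 st
      rw [← h, st.cb' hj] at this
      exact absurd this (by decide)
    · exact (cy.hq.2.1 j).2 h.symm
    · exact cy.b_not st hj (mem_pth.2 (Or.inl h))
    · exact cy.b_not st hj (mem_pth.2 (Or.inr h))
  refine st.sol_of hsub false (val_false ?_ ?_) ?_ ?_ ?_ ?_ ?_
  · intro j h
    exact hbS j (fun h1 => (mem_rest.1 (hsub h)).1 ((st.a_eq_iff j).1 h1)) h
  · rw [hSdef, kk, sum_insert ht2S]
    have h := cy.kk_q st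
    unfold kk at h
    rw [h, cy.ct2 st]
    rfl
  · intro y hy
    rcases mem_insert.1 hy with rfl | hy
    · refine st.leg_in hG (cy.t2R st) ht2S' cy.t2U (cy.qR st) hqS cy.nq.az.symm
        (fun h => st.Uo_col cy.hq _ cy.nq.az h.symm) fun w hw h1 h2 h3 => ?_
      rcases (split _).1 h3 with h4 | h4 | h4 | h4
      · exact h1.ne h4.symm
      · rw [h4, cy.cq st, cy.ct2 st] at h2
        exact absurd h2 (by decide)
      · exact hntt (h4 ▸ h1.symm)
      · rw [mem_base] at h4
        rcases h4 with h4 | ⟨k, h5, h6, h7⟩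
        · exact st.sp_col hw (Or.inl h4) (cy.t2R st) h1.symm h2.symm
        · subst h7
          exact st.Uo_col (cy.pf.mem k h5 h6) _ h1.symm h2.symm
    rcases mem_insert.1 hy with rfl | hy
    · exact cy.in_q st hPS hqS
    · exact cy.in_pth st hG hPS hqS hy
  · intro y hy hyS w hw w' hw' h h' hc hc'
    obtain ⟨n0, n1, n2, n3⟩ := nsplit y hyS
    have tq : G.Adj y t → c t ≠ c y → False := by
      intro h3 h4
      rw [cy.ct st, cy.out_t st hG hy n3 n1 h3] at h4
      exact h4 rfl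
    have qq : G.Adj y q → False := fun h3 => n0 (cy.out_q st n3 n2 h3)
    have b2 : ∀ s ∈ base (a i) v m, G.Adj y s → G.Adj y t2 → c t2 ≠ c y → False := by
      intro s hs' h3 h4 h5
      rw [mem_base] at hs'
      rcases hs' with rfl | ⟨k, h6, h7, rfl⟩
      · exact cy.out_a st hy n3 n1 h3
      · exact hr y hy n3 n1 h4 (Ne.symm h5) k h6 h7 h3
    rcases (split _).1 hw with rfl | rfl | rfl | h1
    · rcases (split _).1 hw' with h2 | h2 | h2 | h2
      · exact h2.symm
      · exact (qq (h2 ▸ h')).elim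
      · exact (tq (h2 ▸ h') (h2 ▸ hc')).elim
      · exact (b2 w' h2 h' h hc).elim
    · exact (qq h).elim
    · exact (tq h hc).elim
    · rcases (split _).1 hw' with h2 | h2 | h2 | h2
      · exact (b2 w h1 h (h2 ▸ h') (h2 ▸ hc')).elim
      · exact (qq (h2 ▸ h')).elim
      · exact (tq (h2 ▸ h') (h2 ▸ hc')).elim
      · exact cy.pf.one y hy n3 w h1 w' h2 h h'
  · intro y hy hyS w hw h hc
    obtain ⟨n0, n1, n2, n3⟩ := nsplit y hyS
    rcases (split _).1 hw with rfl | rfl | rfl | h1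
    · obtain ⟨h3, h4⟩ := hs y hy h.symm (Ne.symm hc)
      exact ⟨h3, fun w' hw' _ h' => ownIn_zero.1 h4 w' hw' h'⟩
    · exact absurd (cy.out_q st n3 n2 h) n0
    · exfalso
      rw [cy.ct st, cy.out_t st hG hy n3 n1 h] at hc
      exact hc rfl
    · obtain ⟨h3, h4⟩ := cy.pf.own_base st hG hy (by rw [← pth, mem_pth]; tauto) h1 h
      refine ⟨h3, fun w' hw' hwS h' => h4 w' hw' (fun h5 => hwS ((split _).2 (Or.inr (Or.inr (Or.inl h5))))) h'⟩
  · intro j hj _
    exact hbS j hj
  · intro j hj haj hbj w hw h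
    rw [if_neg (by decide)] at h
    obtain ⟨n0, n1, n2, n3⟩ := nsplit _ haj
    have haj' : a j ∉ pth (a i) v m t := fun h5 => haj (hPS h5)
    have haR := st.a_mem hj
    rcases (split _).1 hw with rfl | rfl | rfl | h1
    · have h2 := st.sp_col haR (Or.inl rfl) (cy.t2R st) h
      rw [cy.ct2 st, st.ca' hj] at h2
      exact h2 rfl
    · exact n0 (cy.out_q st n3 n2 h)
    · have h2 := st.sp_col haR (Or.inl rfl) cy.pf.tR h
      rw [cy.ct st, st.ca' hj] at h2
      exact h2 rfl
    · exact cy.ex_b st hj haj' (Or.inl rfl) h1 h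

end Cyc

end Pool.Agent.BLN
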