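import Pool.Agent.BLN.Pth.D1S

/-!
# The start sees the exit through a second vertex

`PF.sol_dead1` and `PF.sol_dead2`: the exit path `a i, v 1, …, v m, t` with `m` odd, and the other neighbour
`q` of `a i` in `Uo` is adjacent to the exit `t`.
-/

set_option autoImplicit false
set_option linter.unusedSectionVars false

namespace Pool.Agent.BLN

open Finset Pool.Agent.IVT

variable {V : Type} [Fintype V] [DecidableEq V]

variable {G : SimpleGraph V} [DecidableRel G.Adj] {c : V → Bool} {x : V} {l a b : Fin 3 → V} {i : Fin 3}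
  {v : ℕ → V} {m : ℕ} {t : V}

theorem PF.sol_dead1 (st : Star3 G c x l a b) (pf : PF G c x l a b i v m t) (hG : Deg13 G) (hC : C4Free G)
    (hm : m % 2 = 1) {q t' : V} (hq : q ∈ Star3.Uo G c x l a b) (hqb : q ∉ base (a i) v m)
    (hN : Nb G q (a i) t t') (ht : ∀ j, t ≠ a j ∧ t ≠ b j) (ht' : (∃ j, t' = a j) ∨ G.Adj t t') : Sol3 G := by
  have hct : c t' = c t := by
    have h1 := st.Uo_col hq _ hN.ay
    have h2 := st.Uo_col hq _ hN.az
    cases h3 : c t <;> cases h4 : c t' <;> cases h5 : c q <;> simp_all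
  have hU : t' ∉ Star3.Uo G c x l a b := by
    intro h
    rcases ht' with ⟨j, hj⟩ | h1
    · exact (h.2.1 j).1 hj
    · exact st.Uo_col h _ h1.symm hct.symm
  have cy : Cyc G c x l a b i v m t q t' := ⟨pf, hm, hq, hqb, hN, hU⟩
  exact cy.d1A st hG hC (fun j => (ht j).1) (ht'.imp id fun h => ⟨h, hct⟩)

theorem PF.sol_dead2 (st : Star3 G c x l a b) (pf : PF G c x l a b i v m t) (hG : Deg13 G) (hC : C4Free G)
    (hm : m % 2 = 1) {q t' : V} (hq : q ∈ Star3.Uo G c x l a b) (hqb : q ∉ base (a i) v m)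
    (hN : Nb G q (a i) t t') (ht' : t' ∉ Star3.Uo G c x l a b) (hna : ¬ G.Adj t t')
    (hs : Simple3 G c x l t')
    (hw : ∀ z ∈ rest x l, z ∉ base (a i) v m → G.Adj z t' → c z ≠ c t' →
      ∀ k, 1 ≤ k → k ≤ m → ¬ G.Adj z (v k)) : Sol3 G := by
  have cy : Cyc G c x l a b i v m t q t' := ⟨pf, hm, hq, hqb, hN, ht'⟩
  have _ := hC
  exact cy.d1B st hG (fun h => hna h.1) hs fun y hy hyb _ => hw y hy hyb

end Pool.Agent.BLN
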