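import Pool.Agent.BLN.Pth.PDefs

/-!
# Two exit paths of the same length and a common neighbour of the start and both exits
-/

set_option autoImplicit false
set_option linter.unusedSectionVars false

namespace Pool.Agent.BLN

open Finset Pool.Agent.IVT

variable {V : Type} [Fintype V] [DecidableEq V]
variable {G : SimpleGraph V} [DecidableRel G.Adj] {c : V → Bool} {x : V} {l a b : Fin 3 → V} {i : Fin 3}
  {v : ℕ → V} {m : ℕ} {t : V}

/-- an ordinary exit with two neighbours of the other colour has no third one -/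
theorem Star3.two_nbrs (st : Star3 G c x l a b) (hG : Deg13 G) {s y1 y2 z : V} (hs : s ∈ rest x l)
    (hsU : s ∉ Star3.Uo G c x l a b) (hsp : ∀ j, s ≠ a j ∧ s ≠ b j) (h1 : G.Adj s y1)
    (h2 : G.Adj s y2) (h12 : y1 ≠ y2) (c1 : c y1 ≠ c s) (c2 : c y2 ≠ c s) (hz : G.Adj s z)
    (cz : c z ≠ c s) : z = y1 ∨ z = y2 := by
  have hd : G.degree s = 3 := deg3_of_two G hG h1 h2 h12
  have hpos : ownIn G c (rest x l) s ≠ 0 := fun h3 => hsU ⟨hs, hsp, hd, h3⟩
  obtain ⟨w, hw, h3, h4⟩ := ownIn_pos hpos
  have nb := nb_of_three3 G hd h1 h2 h3 h12 (fun h5 => c1 (by rw [h5, h4]))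
    (fun h5 => c2 (by rw [h5, h4]))
  rcases (nb.adj z).1 hz with h5 | h5 | h5
  · exact Or.inl h5
  · exact Or.inr h5
  · exact absurd (by rw [h5, h4]) cz

theorem PF.sol_dead3 (st : Star3 G c x l a b) (pf : PF G c x l a b i v m t) {v' : ℕ → V} {t' : V}
    (pf' : PF G c x l a b i v' m t') (hG : Deg13 G) (hC : C4Free G) (hm : m % 2 = 1) (h3 : 3 ≤ m)
    (hv : ∀ k, 1 ≤ k → k < m → v' k = v k) (hne : v' m ≠ v m) {q : V}
    (hq : q ∈ Star3.Uo G c x l a b) (hqb : q ∉ base (a i) v m) (hqw : q ≠ v' m)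
    (hN : Nb G q (a i) t t') (ht : ∀ j, t ≠ a j ∧ t ≠ b j) (ht' : ∀ j, t' ≠ a j ∧ t' ≠ b j)
    (hna : ¬ G.Adj t t') : Sol3 G := by
  have hpos := pf.pos
  have hct : c t = true := by rw [pf.col_t st]; simp [hm]
  have hct' : c t' = true := by rw [pf'.col_t st]; simp [hm]
  have hca : c (a i) = true := st.ca' pf.hi
  have hcq : c q = false := by
    have h1 := st.Uo_col hq _ hN.ax
    rw [hca] at h1
    simpa using h1.symm
  have hcw : c (v' m) = false := by rw [pf'.col st pf'.pos le_rfl]; simp [hm]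
  have hcv : c (v m) = false := by rw [pf.col st pf.pos le_rfl]; simp [hm]
  have hwU : v' m ∈ Star3.Uo G c x l a b := pf'.mem m pf'.pos le_rfl
  have hvU : v m ∈ Star3.Uo G c x l a b := pf.mem m pf.pos le_rfl
  have e1 : G.Adj (v (m - 1)) (v' m) := by
    have h1 := pf'.adj (m - 1) (by omega) (by omega)
    rwa [hv (m - 1) (by omega) (by omega), show m - 1 + 1 = m by omega] at h1
  have e2 : G.Adj (v' m) t' := pf'.exit
  have e3 : G.Adj (v (m - 1)) (v m) := by
    have h1 := pf.adj (m - 1) (by omega) (by omega)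
    rwa [show m - 1 + 1 = m by omega] at h1
  have hqv : v m ≠ q := fun h1 => hqb (mem_base.2 (Or.inr ⟨m, hpos, le_rfl, h1.symm⟩))
  -- neighbours of the exits of the other colour
  have nt : ∀ z, G.Adj t z → c z ≠ c t → z = v m ∨ z = q := fun z hz cz =>
    st.two_nbrs hG pf.tR pf.tU ht pf.exit.symm hN.ay.symm hqv (by rw [hcv, hct]; decide)
      (by rw [hcq, hct]; decide) hz cz
  have nt' : ∀ z, G.Adj t' z → c z ≠ c t' → z = v' m ∨ z = q := fun z hz cz =>
    st.two_nbrs hG pf'.tR pf'.tU ht' pf'.exit.symm hN.az.symm hqw.symm (by rw [hcw, hct']; decide)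
      (by rw [hcq, hct']; decide) hz cz
  -- distinct vertices
  have d1 : q ∉ insert t (base (a i) v m) := by
    rw [mem_insert, not_or]
    exact ⟨hN.ay.ne, hqb⟩
  have t'b : t' ∉ base (a i) v m := by
    rw [mem_base]
    rintro (h | ⟨k, h1, h2, h4⟩)
    · exact pf'.ta h
    · exact pf'.tU (h4 ▸ pf.mem k h1 h2)
  have d2 : t' ∉ insert q (insert t (base (a i) v m)) := by
    rw [mem_insert, mem_insert, not_or, not_or]
    exact ⟨hN.az.ne.symm, hN.yz.symm, t'b⟩
  have wb : v' m ∉ base (a i) v m := by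
    rw [mem_base]
    rintro (h | ⟨k, h1, h2, h4⟩)
    · exact pf'.a_ne_v st pf'.pos le_rfl h.symm
    · by_cases hk : k = m
      · subst hk
        exact hne h4
      · have h5 := pf'.inj m k pf'.pos le_rfl h1 h2 (by rw [hv k h1 (by omega)]; exact h4)
        exact hk h5.symm
  have wt : v' m ≠ t := fun h => pf.tU (h ▸ hwU)
  have wt' : v' m ≠ t' := e2.ne
  have d3 : v' m ∉ insert t' (insert q (insert t (base (a i) v m))) := by
    rw [mem_insert, mem_insert, mem_insert, not_or, not_or, not_or]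
    exact ⟨wt', hqw.symm, wt, wb⟩
  set S : Finset V := insert (v' m) (insert t' (insert q (insert t (base (a i) v m)))) with hS
  have mS : ∀ y, y ∈ S ↔ y = v' m ∨ y = t' ∨ y = q ∨ y = t ∨ y ∈ base (a i) v m := by
    intro y
    rw [hS, mem_insert, mem_insert, mem_insert, mem_insert]
  have sub1 : insert t (base (a i) v m) ⊆ S := by
    intro y hy
    rw [mem_insert] at hy
    rw [mS]
    tauto
  have base' : ∀ y, y ∈ base (a i) v' m ↔ y = v' m ∨ (y ∈ base (a i) v m ∧ y ≠ v m) := by
    intro y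
    rw [mem_base, mem_base]
    constructor
    · rintro (h | ⟨k, h1, h2, h4⟩)
      · right
        refine ⟨Or.inl h, ?_⟩
        rw [h]
        exact pf.a_ne_v st hpos le_rfl
      · by_cases hk : k = m
        · subst hk
          exact Or.inl h4
        · right
          have hk' : k < m := by omega
          rw [hv k h1 hk'] at h4
          refine ⟨Or.inr ⟨k, h1, h2, h4⟩, ?_⟩
          intro h5
          exact hk (pf.inj k m h1 h2 hpos le_rfl (h4.symm.trans h5))
    · rintro (h | ⟨h | ⟨k, h1, h2, h4⟩, h5⟩)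
      · exact Or.inr ⟨m, hpos, le_rfl, h⟩
      · exact Or.inl h
      · right
        have hk : k ≠ m := by
          rintro rfl
          exact h5 h4
        exact ⟨k, h1, h2, by rw [hv k h1 (by omega)]; exact h4⟩
  have sub2 : insert t' (base (a i) v' m) ⊆ S := by
    intro y hy
    rw [mem_insert, base'] at hy
    rw [mS]
    tauto
  have ySb : ∀ y, y ∉ S → y ∉ insert t (base (a i) v m) := fun y hy h => hy (sub1 h)
  have ySb' : ∀ y, y ∉ S → y ∉ insert t' (base (a i) v' m) := fun y hy h => hy (sub2 h)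
  have hqR : q ∈ rest x l := hq.1
  have hsub : S ⊆ rest x l := by
    intro y hy
    rw [mS] at hy
    rcases hy with rfl | rfl | rfl | rfl | hy
    · exact hwU.1
    · exact pf'.tR
    · exact hqR
    · exact pf.tR
    · exact pf.base_sub st hy
  have aS : a i ∈ S := (mS _).2 (Or.inr (Or.inr (Or.inr (Or.inr (mem_base.2 (Or.inl rfl))))))
  have tS : t ∈ S := (mS _).2 (Or.inr (Or.inr (Or.inr (Or.inl rfl))))
  have t'S : t' ∈ S := (mS _).2 (Or.inr (Or.inl rfl))
  have qS : q ∈ S := (mS _).2 (Or.inr (Or.inr (Or.inl rfl)))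
  have wS : v' m ∈ S := (mS _).2 (Or.inl rfl)
  have vS : v (m - 1) ∈ S := (mS _).2 (Or.inr (Or.inr (Or.inr (Or.inr
    (mem_base.2 (Or.inr ⟨m - 1, by omega, by omega, rfl⟩))))))
  -- specials in `S`
  have spS : ∀ {j : Fin 3} {s : V}, (s = a j ∨ s = b j) → s ∈ S → s = a i := by
    intro j s hs h
    rw [mS] at h
    rcases h with h | h | h | h | h
    · exact absurd (h ▸ hwU) (Star3.special_not_Uo st hs)
    · rcases hs with h1 | h1
      · exact absurd (h.symm.trans h1) (ht' j).1
      · exact absurd (h.symm.trans h1) (ht' j).2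
    · exact absurd (h ▸ hq) (Star3.special_not_Uo st hs)
    · rcases hs with h1 | h1
      · exact absurd (h.symm.trans h1) (ht j).1
      · exact absurd (h.symm.trans h1) (ht j).2
    · exact pf.sp_base st hs h
  have hbS : ∀ j, a j ≠ x → b j ∉ S := by
    intro j hj h
    exact st.a_ne_b' i pf.hi j (spS (Or.inr rfl) h).symm
  -- mates of the exits are not in `S`
  have mate : ∀ w ∈ rest x l, G.Adj t w → c w = c t → w ∉ S := by
    intro w hw h1 h2 h
    rw [mS] at h
    rcases h with h | h | h | h | h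
    · rw [h, hcw, hct] at h2
      exact absurd h2 (by decide)
    · rw [h] at h1
      exact hna h1
    · rw [h, hcq, hct] at h2
      exact absurd h2 (by decide)
    · exact h1.ne h.symm
    · exact pf.mate_not st hw h1 h2 h
  have mate' : ∀ w ∈ rest x l, G.Adj t' w → c w = c t' → w ∉ S := by
    intro w hw h1 h2 h
    rw [mS] at h
    rcases h with h | h | h | h | h
    · rw [h, hcw, hct'] at h2
      exact absurd h2 (by decide)
    · exact h1.ne h.symm
    · rw [h, hcq, hct'] at h2
      exact absurd h2 (by decide)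
    · rw [h] at h1
      exact hna h1.symm
    · have h5 : w ≠ v m := by
        rintro rfl
        rw [hcv, hct'] at h2
        exact absurd h2 (by decide)
      exact pf'.mate_not st hw h1 h2 ((base' w).2 (Or.inr ⟨h, h5⟩))
  have hval : Val c a b S true := by
    refine val_true aS (hbS i pf.hi) ?_ ?_
    · intro j hj
      have hjx : a j ≠ x := (mem_rest.1 (hsub hj)).1
      exact st.a_inj j i (spS (Or.inl rfl) hj) hjx
    · have h1 := pf.kk_t st
      rw [if_pos hm] at h1
      rw [hS]
      unfold kk at h1 ⊢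
      rw [sum_insert d3, sum_insert d2, sum_insert d1, h1, hcw, hct', hcq]
      decide
  refine st.sol_of hsub true hval ?_ ?_ ?_ ?_ ?_
  · -- inside
    intro y hy
    rw [mS] at hy
    rcases hy with rfl | rfl | rfl | rfl | hy
    · refine Star3.mid_in hwU.2.2.1 wS (pf.rest_v st (by omega) (by omega)) vS pf'.tR t'S ?_ e1.symm e2
        (st.Uo_col hwU _ e1.symm) (st.Uo_col hwU _ e2)
      rintro h
      exact t'b (mem_base.2 (Or.inr ⟨m - 1, by omega, by omega, h.symm⟩))
    · exact st.leg_in hG pf'.tR t'S pf'.tU hqR qS hN.az.symm (by rw [hcq, hct']; decide) mate'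
    · exact Star3.mid_in hq.2.2.1 qS (st.a_mem pf.hi) aS pf.tR tS hN.xy hN.ax hN.ay
        (st.Uo_col hq _ hN.ax) (st.Uo_col hq _ hN.ay)
    · exact pf.in_t st hG sub1 mate
    · exact pf.in_base st sub1 hy
  · -- touched at most once
    intro y hy hyS
    have hyb : y ∉ base (a i) v m := fun h => hyS ((mS y).2 (Or.inr (Or.inr (Or.inr (Or.inr h)))))
    have hyb' : y ∉ base (a i) v' m := fun h => hyS (sub2 (mem_insert_of_mem h))
    have yq : y ≠ q := fun h => hyS (h ▸ qS)
    have hnq : ¬ G.Adj y q := by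
      intro h
      rcases (hN.adj y).1 h.symm with h1 | h1 | h1
      · exact hyS (h1 ▸ aS)
      · exact hyS (h1 ▸ tS)
      · exact hyS (h1 ▸ t'S)
    -- base and `t`
    have k1 : ∀ s ∈ base (a i) v m, G.Adj y s → G.Adj y t → c t ≠ c y → False := by
      intro s hs h1 h2 h4
      rw [mem_base] at hs
      rcases hs with rfl | ⟨k, h5, h6, rfl⟩
      · exact yq (hC.uniq pf.ta.symm h1.symm h2 hN.ax.symm hN.ay)
      · exact pf.out y hy hyb h2 h4.symm k h5 h6 h1
    -- base and `t'`
    have k2 : ∀ s ∈ base (a i) v m, G.Adj y s → G.Adj y t' → c t' ≠ c y → False := by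
      intro s hs h1 h2 h4
      rw [mem_base] at hs
      rcases hs with rfl | ⟨k, h5, h6, rfl⟩
      · exact yq (hC.uniq pf'.ta.symm h1.symm h2 hN.ax.symm hN.az)
      · by_cases hk : k = m
        · subst hk
          have h7 := st.Uo_col hvU _ h1.symm
          rw [hcv] at h7
          rw [hct'] at h4
          cases h8 : c y
          · exact h7 h8
          · exact h4 h8.symm
        · refine pf'.out y hy hyb' h2 h4.symm k h5 h6 ?_
          rw [hv k h5 (by omega)]
          exact h1
    -- base and `v' m`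
    have k3 : ∀ s ∈ base (a i) v m, G.Adj y s → c s ≠ c y → G.Adj y (v' m) → s = v' m := by
      intro s hs h1 h0 h2
      have hcy : c y = true := by
        have h4 := st.Uo_col hwU _ h2.symm
        rw [hcw] at h4
        simpa using h4
      by_cases hsm : s = v m
      · subst hsm
        exfalso
        refine hyb ?_
        have h5 : y ≠ v (m - 1) → False := fun h6 =>
          hne (hC.uniq h6 h2 e1.symm h1 e3.symm)
        have h6 : y = v (m - 1) := by
          by_contra h7
          exact h5 h7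
        exact mem_base.2 (Or.inr ⟨m - 1, by omega, by omega, h6⟩)
      · exact pf'.one y hy hyb' s ((base' s).2 (Or.inr ⟨hs, hsm⟩)) (v' m) ((base' _).2 (Or.inl rfl)) h1 h2
    -- `t` and `t'`
    have k4 : G.Adj y t → G.Adj y t' → False := fun h1 h2 =>
      yq (hC.uniq hN.yz h1.symm h2 hN.ay.symm hN.az)
    have bool3 : ∀ {p q r : Bool}, p ≠ r → q ≠ r → p = true → q = false → False := by decide
    intro w hw w' hw' h h' hc hc'
    rw [mS] at hw hw'
    rcases hw with h1 | h1 | h1 | h1 | h1
    · rcases hw' with h2 | h2 | h2 | h2 | h2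
      · rw [h1, h2]
      · exact (bool3 hc' hc (by rw [h2, hct']) (by rw [h1, hcw])).elim
      · exact absurd (h2 ▸ h') hnq
      · exact (bool3 hc' hc (by rw [h2, hct]) (by rw [h1, hcw])).elim
      · rw [h1]
        exact (k3 w' h2 h' hc' (h1 ▸ h)).symm
    · rcases hw' with h2 | h2 | h2 | h2 | h2
      · exact (bool3 hc hc' (by rw [h1, hct']) (by rw [h2, hcw])).elim
      · rw [h1, h2]
      · exact absurd (h2 ▸ h') hnq
      · exact (k4 (h2 ▸ h') (h1 ▸ h)).elim
      · exact (k2 w' h2 h' (h1 ▸ h) (h1 ▸ hc)).elim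
    · exact absurd (h1 ▸ h) hnq
    · rcases hw' with h2 | h2 | h2 | h2 | h2
      · exact (bool3 hc hc' (by rw [h1, hct]) (by rw [h2, hcw])).elim
      · exact (k4 (h1 ▸ h) (h2 ▸ h')).elim
      · exact absurd (h2 ▸ h') hnq
      · rw [h1, h2]
      · exact (k1 w' h2 h' (h1 ▸ h) (h1 ▸ hc)).elim
    · rcases hw' with h2 | h2 | h2 | h2 | h2
      · rw [h2]
        exact k3 w h1 h hc (h2 ▸ h')
      · exact (k2 w h1 h (h2 ▸ h') (h2 ▸ hc')).elim
      · exact absurd (h2 ▸ h') hnq
      · exact (k1 w h1 h (h2 ▸ h') (h2 ▸ hc')).elim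
      · exact pf.one y hy hyb w h1 w' h2 h h'
  · -- no own neighbours outside
    intro y hy hyS w hw h hc
    rw [mS] at hw
    rcases hw with h1 | h1 | h1 | h1 | h1
    · subst h1
      obtain ⟨h5, h6⟩ := pf'.own_base st hG hy (ySb' y hyS) ((base' _).2 (Or.inl rfl)) h
      exact ⟨h5, fun w' hw' hwS h' => h6 w' hw' (fun h7 => hwS (h7 ▸ t'S)) h'⟩
    · subst h1
      exfalso
      rcases nt' y h.symm (fun h5 => hc h5.symm) with h6 | h6
      · exact hyS (h6 ▸ wS)
      · exact hyS (h6 ▸ qS)
    · subst h1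
      exfalso
      rcases (hN.adj y).1 h.symm with h6 | h6 | h6
      · exact hyS (h6 ▸ aS)
      · exact hyS (h6 ▸ tS)
      · exact hyS (h6 ▸ t'S)
    · subst h1
      exfalso
      rcases nt y h.symm (fun h5 => hc h5.symm) with h6 | h6
      · exact hyS ((mS y).2 (Or.inr (Or.inr (Or.inr (Or.inr
          (mem_base.2 (Or.inr ⟨m, hpos, le_rfl, h6⟩)))))))
      · exact hyS (h6 ▸ qS)
    · obtain ⟨h5, h6⟩ := pf.own_base st hG hy (ySb y hyS) h1 h
      exact ⟨h5, fun w' hw' hwS h' => h6 w' hw' (fun h7 => hwS (h7 ▸ tS)) h'⟩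
  · intro j hj _
    exact hbS j hj
  · -- exposed specials
    intro j hj haj hbj w hw h
    rw [if_pos rfl] at h
    have hcb : c (b j) = false := st.cb' hj
    rw [mS] at hw
    rcases hw with h1 | h1 | h1 | h1 | h1
    · refine pf'.ex_base st hj (ySb' _ haj) (ySb' _ hbj) (Or.inr rfl) ((base' w).2 (Or.inl h1)) h
    · rw [h1] at h
      rcases nt' (b j) h.symm (by rw [hcb, hct']; decide) with h6 | h6
      · exact Star3.special_not_Uo st (Or.inr h6.symm) hwU
      · exact Star3.special_not_Uo st (Or.inr h6.symm) hq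
    · rw [h1] at h
      rcases (hN.adj (b j)).1 h.symm with h6 | h6 | h6
      · exact st.a_ne_b' i pf.hi j h6.symm
      · exact (ht j).2 h6.symm
      · exact (ht' j).2 h6.symm
    · rw [h1] at h
      rcases nt (b j) h.symm (by rw [hcb, hct]; decide) with h6 | h6
      · exact Star3.special_not_Uo st (Or.inr h6.symm) hvU
      · exact Star3.special_not_Uo st (Or.inr h6.symm) hq
    · exact pf.ex_base st hj (ySb _ haj) (ySb _ hbj) (Or.inr rfl) h1 h

end Pool.Agent.BLN
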