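import Pool.Agent.BLN.Pth.Path

/-!
# Statements of the path module

`Live` : ordinary vertices without own neighbours which have such a neighbour. `IsStart i s` : `s` is a
special of the pair `i`, all its rest-neighbours are in `Uo` or its partner. `IsExit i t` : `t` is not in `Uo`
and not in the pair `i`. `CC G m` : no frame has an exit path with `m` inner vertices.
`Gad` : the gadget `u = (a 0, a 1, a 2)`, `y = (W 0, W 1, W 2)`, `a p - W p`.
-/

set_option autoImplicit false
set_option linter.unusedSectionVars false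

namespace Pool.Agent.BLN

open Finset Pool.Agent.IVT

variable {V : Type} [Fintype V] [DecidableEq V]

/-- ordinary vertices without own neighbours which have a neighbour of the same kind -/
def Live (G : SimpleGraph V) [DecidableRel G.Adj] (c : V → Bool) (x : V) (l a b : Fin 3 → V) : Set V :=
  {y | y ∈ Star3.Uo G c x l a b ∧ ∃ z ∈ Star3.Uo G c x l a b, G.Adj y z}

/-- a special of the pair `i` all of whose rest-neighbours are in `Uo` or its partner -/
def IsStart (G : SimpleGraph V) [DecidableRel G.Adj] (c : V → Bool) (x : V) (l a b : Fin 3 → V) (i : Fin 3)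
    (s : V) : Prop :=
  s ≠ x ∧ (s = a i ∨ s = b i) ∧
    ∀ w ∈ rest x l, G.Adj s w → w ∈ Star3.Uo G c x l a b ∨ w = a i ∨ w = b i

/-- a vertex of the rest which is not in `Uo` and not in the pair `i` -/
def IsExit (G : SimpleGraph V) [DecidableRel G.Adj] (c : V → Bool) (x : V) (l a b : Fin 3 → V) (i : Fin 3)
    (t : V) : Prop :=
  t ∈ rest x l ∧ t ∉ Star3.Uo G c x l a b ∧ t ≠ a i ∧ t ≠ b i

/-- no frame has an exit path with `m` inner vertices -/
def CC (G : SimpleGraph V) [DecidableRel G.Adj] (m : ℕ) : Prop :=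
  ∀ (g : V → Bool) (x : V) (l a b : Fin 3 → V), Fr G g x l a b → ∀ (i : Fin 3) (s : V) (v : ℕ → V) (t : V),
    IsStart G g x l a b i s → IsExit G g x l a b i t → G.Adj s (v 1) →
      UTail G (Live G g x l a b) v m t → False

/-- the gadget -/
structure Gad (G : SimpleGraph V) [DecidableRel G.Adj] (c : V → Bool) (x : V) (l a b : Fin 3 → V) (u y : V)
    (W : Fin 3 → V) : Prop where
  ha : ∀ p, a p ≠ x
  hu : u ∈ Star3.Uo G c x l a b
  hy : y ∈ Star3.Uo G c x l a b
  hW : ∀ p, W p ∈ Star3.Uo G c x l a b
  ua : ∀ p, G.Adj u (a p)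
  aW : ∀ p, G.Adj (a p) (W p)
  yW : ∀ p, G.Adj y (W p)

end Pool.Agent.BLN
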