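import Pool.Agent.BLN.Pth.Region
import Pool.Agent.BLN.IV3a

/-!
# Flip sets along a path

`Star3.set_sol` : the table with the conditions outside the set in the form `Quiet`.
`Star3.path_sol` : the set `{a i, v 1, …, v m, t}` of a path through `Uo` with the exit `t` is a solution
if it has no conflict outside.
`Star3.leg_sol` : the set `{t, w, t'}` of a vertex of `Uo` with two exits.
-/

set_option autoImplicit false
set_option linter.unusedSectionVars false

namespace Pool.Agent.BLN

open Finset Pool.Agent.IVT

variable {V : Type} [Fintype V] [DecidableEq V]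

/-- the vertices of a path with its start `s` and its exit `t` -/
def pathSet (s : V) (v : ℕ → V) (m : ℕ) (t : V) : Finset V := insert s (insert t ((Icc 1 m).image v))

omit [Fintype V] in
theorem mem_pathSet {s : V} {v : ℕ → V} {m : ℕ} {t y : V} :
    y ∈ pathSet s v m t ↔ y = s ∨ y = t ∨ ∃ k, 1 ≤ k ∧ k ≤ m ∧ v k = y := by
  simp [pathSet, and_assoc]

omit [Fintype V] in
theorem s_mem_pathSet {s : V} {v : ℕ → V} {m : ℕ} {t : V} : s ∈ pathSet s v m t :=
  mem_pathSet.2 (Or.inl rfl)

omit [Fintype V] in
theorem t_mem_pathSet {s : V} {v : ℕ → V} {m : ℕ} {t : V} : t ∈ pathSet s v m t :=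
  mem_pathSet.2 (Or.inr (Or.inl rfl))

omit [Fintype V] in
theorem v_mem_pathSet {s : V} {v : ℕ → V} {m : ℕ} {t : V} {k : ℕ} (h1 : 1 ≤ k) (h2 : k ≤ m) :
    v k ∈ pathSet s v m t :=
  mem_pathSet.2 (Or.inr (Or.inr ⟨k, h1, h2, rfl⟩))

/-- no vertex of the rest outside `S` suffers from the flip of `S` -/
def Quiet (G : SimpleGraph V) [DecidableRel G.Adj] (c : V → Bool) (x : V) (l : Fin 3 → V) (S : Finset V) :
    Prop :=
  ∀ w ∈ rest x l, w ∉ S → ∀ y ∈ S, G.Adj w y → c y ≠ c w →
    G.degree w = 3 ∧ (∀ w' ∈ rest x l, G.Adj w w' → c w' = c w → w' ∈ S) ∧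
      ∀ y' ∈ S, G.Adj w y' → c y' ≠ c w → y' = y

theorem sum_sg_parity (m : ℕ) :
    ∑ k ∈ Icc 1 m, sg (decide (k % 2 = 0)) = if m % 2 = 1 then (-1 : ℤ) else 0 := by
  induction m with
  | zero => simp
  | succ m ih =>
    rw [sum_Icc_succ_top (by omega), ih]
    rcases Nat.mod_two_eq_zero_or_one m with h | h
    · have h1 : (m + 1) % 2 = 1 := by omega
      simp [h, h1, sg]
    · have h1 : (m + 1) % 2 = 0 := by omega
      simp [h, h1, sg]

namespace Star3

variable {G : SimpleGraph V} [DecidableRel G.Adj] {c : V → Bool} {x : V} {l a b : Fin 3 → V}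
  (st : Star3 G c x l a b)
include st

theorem cost_quiet {S : Finset V} (hq : Quiet G c x l S) {v : V} (hv : v ∈ rest x l) (hvS : v ∉ S) :
    2 * cost G c x l S v < G.degree v := by
  by_cases h : ∃ y ∈ S, G.Adj v y ∧ c y ≠ c v
  · obtain ⟨y, hy, h1, h2⟩ := h
    obtain ⟨h3, h4, h5⟩ := hq v hv hvS y hy h1 h2
    have h6 : cost G c x l S v ≤ 1 := by
      rw [cost_eq, ownIn]
      refine (card_le_card (t := {y}) fun w hw => ?_).trans (by simp)
      rw [mem_filter] at hw
      obtain ⟨h7, h8, h9⟩ := hw
      rw [mem_singleton]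
      by_cases hwS : w ∈ S
      · simp only [flips, hwS, hvS, if_true, if_false] at h9
        exact h5 w hwS h8 fun h10 => by rw [h10] at h9; cases h11 : c v <;> simp [h11] at h9
      · simp only [flips, hwS, hvS, if_false] at h9
        exact absurd (h4 w h7 h8 h9) hwS
    omega
  · push Not at h
    have h1 : cost G c x l S v ≤ ownIn G c (rest x l) v := by
      rw [cost_eq, ownIn, ownIn]
      refine card_le_card fun w hw => ?_
      rw [mem_filter] at hw ⊢
      obtain ⟨h7, h8, h9⟩ := hw
      refine ⟨h7, h8, ?_⟩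
      by_cases hwS : w ∈ S
      · exact h w hwS h8
      · simpa only [flips, hwS, hvS, if_false] using h9
    have := st.ownIn_lt hv
    omega

/-- the table for quiet sets -/
theorem set_sol {S : Finset V} (hS : S ⊆ rest x l) (ξ : Bool) (hval : Val c a b S ξ)
    (hin : ∀ v ∈ S, 2 * cost G c x l S v < G.degree v) (hq : Quiet G c x l S)
    (hexp : ∀ i, a i ≠ x → (a i ∈ S ↔ b i ∈ S) →
      (expo a b S ξ i ∈ S ∨ ∃ w ∈ S, G.Adj (expo a b S ξ i) w) → cost G c x l S (expo a b S ξ i) = 0) :
    ∃ d : V → Bool, Valid3 G d ∧ sgn true d = 0 :=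
  ⟨_, st.table_local hS ξ hval hin (fun _ hv hvS _ => st.cost_quiet hq hv hvS) hexp⟩

section Path

variable {i : Fin 3} (hi : a i ≠ x) {v : ℕ → V} {m : ℕ} {t : V} (tail : UTail G (Uo G c x l a b) v m t)
  (start : G.Adj (a i) (v 1))
include hi tail start

/-- the colours along the path -/
theorem path_col : ∀ k, 1 ≤ k → k ≤ m → c (v k) = decide (k % 2 = 0) := by
  intro k
  induction k with
  | zero => intro h; omega
  | succ k ih =>
    intro h1 h2
    by_cases hk : k = 0
    · subst hk
      have h3 := st.Uo_col (tail.mem 1 le_rfl h2) _ start.symm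
      rw [st.ca i hi] at h3
      cases h4 : c (v 1)
      · simp
      · exact absurd h4.symm h3
    · have h3 := ih (by omega) (by omega)
      have h4 := st.Uo_col (tail.mem k (by omega) (by omega)) _ (tail.adj k (by omega) (by omega))
      rw [h3] at h4
      rcases Nat.mod_two_eq_zero_or_one k with h5 | h5
      · have h6 : (k + 1) % 2 = 1 := by omega
        cases h7 : c (v (k + 1)) <;> simp [h5, h6, h7] at h4 ⊢
      · have h6 : (k + 1) % 2 = 0 := by omega
        cases h7 : c (v (k + 1)) <;> simp [h5, h6, h7] at h4 ⊢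

/-- the colour of the exit -/
theorem path_col_t : c t = decide (m % 2 = 1) := by
  have h1 := st.path_col hi tail start m tail.pos le_rfl
  have h2 := st.Uo_col (tail.mem m tail.pos le_rfl) _ tail.exit
  rw [h1] at h2
  rcases Nat.mod_two_eq_zero_or_one m with h5 | h5
  · cases h7 : c t <;> simp [h5, h7] at h2 ⊢
  · cases h7 : c t <;> simp [h5, h7] at h2 ⊢

theorem path_subset : pathSet (a i) v m t ⊆ rest x l := by
  intro y hy
  rcases mem_pathSet.1 hy with rfl | rfl | ⟨k, h1, h2, rfl⟩
  · exact st.a_rest i hi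
  · exact (st.Uo_nb (tail.mem m tail.pos le_rfl) tail.exit).1
  · exact (tail.mem k h1 h2).1

variable (inj : ∀ j k, 1 ≤ j → j ≤ m → 1 ≤ k → k ≤ m → v j = v k → j = k)
  (htU : t ∉ Uo G c x l a b) (hta : t ≠ a i)
include inj htU hta

/-- the sum of the signs of the path -/
theorem kk_path : kk c (pathSet (a i) v m t) = if m % 2 = 1 then 1 else 0 := by
  have h1 : t ∉ (Icc 1 m).image v := by
    intro h
    obtain ⟨k, hk, h2⟩ := mem_image.1 h
    rw [mem_Icc] at hk
    exact htU (h2 ▸ tail.mem k hk.1 hk.2)
  have h2 : a i ∉ insert t ((Icc 1 m).image v) := by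
    intro h
    rcases mem_insert.1 h with h | h
    · exact hta h.symm
    · obtain ⟨k, hk, h2⟩ := mem_image.1 h
      rw [mem_Icc] at hk
      exact ((tail.mem k hk.1 hk.2).2.1 i).1 h2
  rw [kk, pathSet, sum_insert h2, sum_insert h1, sum_image fun j hj k hk h => ?_, st.ca i hi,
    st.path_col_t hi tail start]
  · have h3 : ∑ k ∈ Icc 1 m, sg (c (v k)) = ∑ k ∈ Icc 1 m, sg (decide (k % 2 = 0)) :=
      sum_congr rfl fun k hk => by
        rw [mem_Icc] at hk
        rw [st.path_col hi tail start k hk.1 hk.2]
    rw [h3, sum_sg_parity]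
    rcases Nat.mod_two_eq_zero_or_one m with h5 | h5 <;> simp [h5, sg]
  · rw [mem_coe, mem_Icc] at hj hk
    exact inj j k hj.1 hj.2 hk.1 hk.2 h

/-- the path vertices do not suffer from the flip of a set which contains the path, unless the set
contains the own neighbour of the exit -/
theorem path_in (hG : Deg13 G) {S : Finset V} (hS : S ⊆ rest x l) (hP : pathSet (a i) v m t ⊆ S)
    (hmate : ∀ w ∈ S, G.Adj t w → c w ≠ c t) :
    ∀ y ∈ pathSet (a i) v m t, 2 * cost G c x l S y < G.degree y := by
  have hk : ∀ k, 1 ≤ k → k ≤ m → v k ∈ S := fun k h1 h2 => hP (v_mem_pathSet h1 h2)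
  have haS : a i ∈ S := hP s_mem_pathSet
  have htS : t ∈ S := hP t_mem_pathSet
  -- flipped neighbours of different colours stay of different colours
  have hfl : ∀ y w, y ∈ S → w ∈ S → c w ≠ c y → flips S c w ≠ flips S c y := by
    intro y w hy hw h1 h2
    simp only [flips, hy, hw, if_true] at h2
    exact h1 (by simpa using h2)
  intro y hy
  rcases mem_pathSet.1 hy with rfl | rfl | ⟨k, h1, h2, rfl⟩
  · have h3 := tail.mem 1 le_rfl tail.pos
    exact st.cost_lt_of_one (hS haS) (Or.inl rfl) h3.1 start
      (hfl _ _ haS (hk 1 le_rfl tail.pos) fun h4 => st.Uo_col h3 _ start.symm h4.symm)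
  · have h3 := tail.mem m tail.pos le_rfl
    have h4 : flips S c (v m) ≠ flips S c y :=
      hfl _ _ htS (hk m tail.pos le_rfl) fun h5 => st.Uo_col h3 _ tail.exit h5.symm
    have hyR := hS htS
    by_cases hsp : ∃ j, y = a j ∨ y = b j
    · obtain ⟨j, hj⟩ := hsp
      exact st.cost_lt_of_one hyR hj h3.1 tail.exit.symm h4
    · push Not at hsp
      by_cases hown : ownIn G c (rest x l) y = 0
      · rcases hG y with h7 | h7
        · exact cost_lt_of_pendant h7 h3.1 tail.exit.symm h4
        · exact absurd (⟨hyR, hsp, h7, hown⟩ : y ∈ Uo G c x l a b) htU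
      · obtain ⟨w, hw⟩ := card_pos.1 (Nat.pos_of_ne_zero hown)
        rw [mem_filter] at hw
        obtain ⟨h6, h7, h8⟩ := hw
        have hwS : w ∉ S := fun h9 => hmate w h9 h7 h8
        have hne : v m ≠ w := by
          rintro rfl
          exact st.Uo_col h3 _ tail.exit h8.symm
        have hd : G.degree y = 3 := by
          have h9 := st.ownIn_lt hyR
          rcases hG y with h10 | h10 <;> omega
        refine cost_lt_of_two hd h3.1 h6 hne tail.exit.symm h7 h4 ?_
        simp only [flips, hwS, htS, if_true, if_false, h8]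
        cases c y <;> simp
  · have h3 := tail.mem k h1 h2
    -- the two neighbours on the path
    have hprev : ∃ p ∈ S, G.Adj (v k) p ∧ (p = a i ∧ k = 1 ∨ ∃ j, 1 ≤ j ∧ j + 1 = k ∧ p = v j) := by
      by_cases h4 : k = 1
      · subst h4
        exact ⟨a i, haS, start.symm, Or.inl ⟨rfl, rfl⟩⟩
      · refine ⟨v (k - 1), hk _ (by omega) (by omega), ?_, Or.inr ⟨k - 1, by omega, by omega, rfl⟩⟩
        have h5 := tail.adj (k - 1) (by omega) (by omega)
        rw [show k - 1 + 1 = k by omega] at h5
        exact h5.symm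
    have hnext : ∃ q ∈ S, G.Adj (v k) q ∧ (q = t ∧ k = m ∨ k < m ∧ q = v (k + 1)) := by
      by_cases h4 : k = m
      · subst h4
        exact ⟨t, htS, tail.exit, Or.inl ⟨rfl, rfl⟩⟩
      · exact ⟨v (k + 1), hk _ (by omega) (by omega), tail.adj k h1 (by omega), Or.inr ⟨by omega, rfl⟩⟩
    obtain ⟨p, hp, hp1, hp2⟩ := hprev
    obtain ⟨q, hq, hq1, hq2⟩ := hnext
    have hpq : p ≠ q := by
      rcases hp2 with ⟨rfl, rfl⟩ | ⟨j, h4, h5, rfl⟩ <;> rcases hq2 with ⟨rfl, h6⟩ | ⟨h6, rfl⟩
      · exact hta.symm
      · exact fun h => ((tail.mem (1 + 1) (by omega) (by omega)).2.1 i).1 h.symm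
      · exact fun h => htU (h ▸ tail.mem j h4 (by omega))
      · intro h
        have := inj j (k + 1) h4 (by omega) (by omega) (by omega) h
        omega
    exact cost_lt_of_two h3.2.2.1 (hS hp) (hS hq) hpq hp1 hq1
      (hfl _ _ (hk k h1 h2) hp (st.Uo_col h3 _ hp1)) (hfl _ _ (hk k h1 h2) hq (st.Uo_col h3 _ hq1))

/-- **Path.** The set `{a i, v 1, …, v m, t}` of a path through `Uo` with the exit `t` is a solution
if no vertex outside suffers and no exposed special sees it. -/
theorem path_sol (hG : Deg13 G) (htb : t ≠ b i) (hq : Quiet G c x l (pathSet (a i) v m t))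
    (hexp : ∀ j, j ≠ i → a j ≠ x → a j ∉ pathSet (a i) v m t → b j ∉ pathSet (a i) v m t →
      ∀ y ∈ pathSet (a i) v m t, ¬ G.Adj (if m % 2 = 1 then a j else b j) y) :
    ∃ d : V → Bool, Valid3 G d ∧ sgn true d = 0 := by
  have hS := st.path_subset hi tail start
  have hbi := st.b_ne hi
  have hct := st.path_col_t hi tail start
  have haS : a i ∈ pathSet (a i) v m t := s_mem_pathSet
  have hspS : ∀ y, y ∈ pathSet (a i) v m t → ∀ j, (y = a j ∨ y = b j) → y = a i ∨ y = t := by
    intro y hy j hj
    rcases mem_pathSet.1 hy with h | h | ⟨k, h1, h2, rfl⟩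
    · exact Or.inl h
    · exact Or.inr h
    · exfalso
      have := (tail.mem k h1 h2).2.1 j
      tauto
  have hbiS : b i ∉ pathSet (a i) v m t := by
    intro h
    rcases hspS _ h i (Or.inr rfl) with h1 | h1
    · exact st.a_ne_b' i hi i h1.symm
    · exact htb h1.symm
  have hin := st.path_in hi tail start inj htU hta hG hS (Subset.refl _) (by
    intro w hw h1 h2
    rcases mem_pathSet.1 hw with rfl | rfl | ⟨k, h3, h4, rfl⟩
    · have h3 := st.own_a i hi t (st.path_subset hi tail start t_mem_pathSet) h1.symm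
      rw [← h2, st.ca i hi] at h3
      exact absurd h3 (by decide)
    · exact G.irrefl h1
    · exact st.Uo_col (tail.mem k h3 h4) t h1.symm h2.symm)
  have hkk := st.kk_path hi tail start inj htU hta
  rcases Nat.mod_two_eq_zero_or_one m with h5 | h5
  · -- `m` even: the new colour of the centre is `true`
    have hct' : c t = false := by simpa [h5] using hct
    have hta' : ∀ j, a j ≠ x → a j ≠ t := by
      intro j hj h
      rw [← h, st.ca j hj] at hct'
      exact absurd hct' (by decide)
    have hal : alpha a b (pathSet (a i) v m t) = 1 := by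
      rw [alpha, card_eq_one]
      refine ⟨i, ?_⟩
      ext j
      simp only [mem_filter, mem_univ, true_and, mem_singleton]
      constructor
      · rintro ⟨h1, h2⟩
        have hj : a j ≠ x := fun h => st.x_notMem hS (h ▸ h1)
        rcases hspS _ h1 j (Or.inl rfl) with h3 | h3
        · exact st.a_inj j i h3 hj
        · exact absurd h3 (hta' j hj)
      · rintro rfl
        exact ⟨haS, hbiS⟩
    refine st.set_sol hS true (Or.inl ⟨rfl, hal.le, ?_⟩) hin hq ?_
    · rw [hkk, hal, if_neg (by omega)]
      rfl
    · intro j hj hji hex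
      exfalso
      have hji' : j ≠ i := by
        rintro rfl
        exact hbiS (hji.1 haS)
      have haj : a j ∉ pathSet (a i) v m t := by
        intro h
        rcases hspS _ h j (Or.inl rfl) with h3 | h3
        · exact hji' (st.a_inj j i h3 hj)
        · exact hta' j hj h3
      have hbj : b j ∉ pathSet (a i) v m t := fun h => haj (hji.2 h)
      have he : expo a b (pathSet (a i) v m t) true j = b j := by
        simp [expo, haj]
      rw [he] at hex
      have h6 := hexp j hji' hj haj hbj
      rw [if_neg (by omega)] at h6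
      rcases hex with h | ⟨w, hw, h⟩
      · exact hbj h
      · exact h6 w hw h
  · -- `m` odd: the new colour of the centre is `false`
    have hct' : c t = true := by simpa [h5] using hct
    have hbS : ∀ j, b j ∉ pathSet (a i) v m t := by
      intro j h
      have hj : b j ≠ x := fun h' => st.x_notMem hS (h' ▸ h)
      rcases hspS _ h j (Or.inr rfl) with h3 | h3
      · exact st.a_ne_b' i hi j h3.symm
      · rw [← h3, st.cb j hj] at hct'
        exact absurd hct' (by decide)
    have hbe : beta a b (pathSet (a i) v m t) = 0 := by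
      rw [beta, card_eq_zero, filter_eq_empty_iff]
      rintro j _ ⟨_, h2⟩
      exact hbS j h2
    refine st.set_sol hS false (Or.inr ⟨rfl, by omega, ?_⟩) hin hq ?_
    · rw [hkk, hbe, if_pos h5]
      rfl
    · intro j hj hji hex
      exfalso
      have haj : a j ∉ pathSet (a i) v m t := fun h => hbS j (hji.1 h)
      have hji' : j ≠ i := by
        rintro rfl
        exact haj haS
      have he : expo a b (pathSet (a i) v m t) false j = a j := by
        simp [expo, haj]
      rw [he] at hex
      have h6 := hexp j hji' hj haj (hbS j)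
      rw [if_pos h5] at h6
      rcases hex with h | ⟨w, hw, h⟩
      · exact haj h
      · exact h6 w hw h

end Path

/-- **Two legs.** The set `{t, w, t'}` of a vertex `w` of `Uo` with two exits which are not adjacent is a
solution if no vertex outside suffers and no special outside which would be exposed sees `w`. -/
theorem leg_sol (hG : Deg13 G) {w t t' : V} (hw : w ∈ Uo G c x l a b) (h1 : G.Adj w t) (h2 : G.Adj w t')
    (htU : t ∉ Uo G c x l a b) (htU' : t' ∉ Uo G c x l a b) (hne : t ≠ t') (hadj : ¬ G.Adj t t')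
    (hq : Quiet G c x l {t, w, t'})
    (hexp : ∀ j, a j ≠ x → a j ≠ t → a j ≠ t' → b j ≠ t → b j ≠ t' →
      ¬ G.Adj (if c w = false then a j else b j) w) :
    ∃ d : V → Bool, Valid3 G d ∧ sgn true d = 0 := by
  have n1 := st.Uo_nb hw h1
  have n2 := st.Uo_nb hw h2
  have hS : ({t, w, t'} : Finset V) ⊆ rest x l := by
    intro y hy
    simp only [mem_insert, mem_singleton] at hy
    rcases hy with rfl | rfl | rfl
    · exact n1.1
    · exact hw.1
    · exact n2.1
  have hwt : w ≠ t := h1.ne
  have hwt' : w ≠ t' := h2.ne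
  have htS : t ∈ ({t, w, t'} : Finset V) := by simp
  have hwS : w ∈ ({t, w, t'} : Finset V) := by simp
  have htS' : t' ∈ ({t, w, t'} : Finset V) := by simp
  have hfl : ∀ y z, y ∈ ({t, w, t'} : Finset V) → z ∈ ({t, w, t'} : Finset V) → c z ≠ c y →
      flips ({t, w, t'} : Finset V) c z ≠ flips ({t, w, t'} : Finset V) c y := by
    intro y z hy hz h1 h2
    simp only [flips, hy, hz, if_true] at h2
    exact h1 (by simpa using h2)
  -- the exits
  have hleg : ∀ y y', y ∈ ({t, w, t'} : Finset V) → G.Adj w y → y ∉ Uo G c x l a b →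
      (∀ z, z ∈ ({t, w, t'} : Finset V) → z = w ∨ z = y ∨ z = y') → ¬ G.Adj y y' → y ∈ rest x l → c y ≠ c w →
      2 * cost G c x l ({t, w, t'} : Finset V) y < G.degree y := by
    intro y y' hy hwy hyU hz hyy hyR hc
    have h4 := hfl _ _ hy hwS fun h => hc h.symm
    by_cases hsp : ∃ j, y = a j ∨ y = b j
    · obtain ⟨j, hj⟩ := hsp
      exact st.cost_lt_of_one hyR hj hw.1 hwy.symm h4
    · push Not at hsp
      by_cases hown : ownIn G c (rest x l) y = 0
      · rcases hG y with h7 | h7
        · exact cost_lt_of_pendant h7 hw.1 hwy.symm h4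
        · exact absurd (⟨hyR, hsp, h7, hown⟩ : y ∈ Uo G c x l a b) hyU
      · obtain ⟨z, hz'⟩ := card_pos.1 (Nat.pos_of_ne_zero hown)
        rw [mem_filter] at hz'
        obtain ⟨h6, h7, h8⟩ := hz'
        have hzS : z ∉ ({t, w, t'} : Finset V) := by
          intro h9
          rcases hz z h9 with rfl | rfl | rfl
          · exact hc h8.symm
          · exact G.irrefl h7
          · exact hyy h7
        have hne : w ≠ z := by
          rintro rfl
          exact hc h8.symm
        have hd : G.degree y = 3 := by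
          have h9 := st.ownIn_lt hyR
          rcases hG y with h10 | h10 <;> omega
        refine cost_lt_of_two hd hw.1 h6 hne hwy.symm h7 h4 ?_
        simp only [flips, hzS, hy, if_false, if_true, h8]
        cases c y <;> simp
  have hin : ∀ y ∈ ({t, w, t'} : Finset V), 2 * cost G c x l ({t, w, t'} : Finset V) y < G.degree y := by
    intro y hy
    simp only [mem_insert, mem_singleton] at hy
    rcases hy with rfl | rfl | rfl
    · refine hleg y t' htS h1 htU (fun z hz => ?_) hadj n1.1 n1.2
      simp only [mem_insert, mem_singleton] at hz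
      tauto
    · exact cost_lt_of_two hw.2.2.1 n1.1 n2.1 hne h1 h2 (hfl _ _ hwS htS n1.2) (hfl _ _ hwS htS' n2.2)
    · refine hleg y t htS' h2 htU' (fun z hz => ?_) (fun h => hadj h.symm) n2.1 n2.2
      simp only [mem_insert, mem_singleton] at hz
      tauto
  have hkk : kk c ({t, w, t'} : Finset V) = if c w = false then 1 else -1 := by
    rw [kk, sum_insert (by simp [hwt.symm, hne]), sum_pair hwt']
    have h3 := n1.2
    have h4 := n2.2
    cases h5 : c w <;> cases h6 : c t <;> cases h7 : c t' <;> simp_all [sg]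
  have hspS : ∀ y, y ∈ ({t, w, t'} : Finset V) → ∀ j, (y = a j ∨ y = b j) → y = t ∨ y = t' := by
    intro y hy j hj
    simp only [mem_insert, mem_singleton] at hy
    rcases hy with rfl | rfl | rfl
    · exact Or.inl rfl
    · exfalso
      have := hw.2.1 j
      tauto
    · exact Or.inr rfl
  have hnt : ∀ y ∈ rest x l, ∀ j, (y = a j ∨ y = b j) → y ∉ ({t, w, t'} : Finset V) → c y ≠ c w →
      ∀ z ∈ ({t, w, t'} : Finset V), G.Adj y z → z = w := by
    intro y hyR j hj hyS hc z hz hyz
    have h3 : c z ≠ c y := by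
      have hx := st.ne_x_of_special (mem_rest.1 hyR).1 hj
      rcases hj with rfl | rfl
      · rw [st.own_a j hx z (hS hz) hyz, st.ca j hx]
        decide
      · rw [st.own_b j (st.b_ne hx) z (hS hz) hyz, st.cb j (st.b_ne hx)]
        decide
    simp only [mem_insert, mem_singleton] at hz
    rcases hz with rfl | rfl | rfl
    · exfalso
      have h4 := n1.2
      cases h5 : c y <;> cases h6 : c w <;> cases h7 : c z <;> simp_all
    · rfl
    · exfalso
      have h4 := n2.2
      cases h5 : c y <;> cases h6 : c w <;> cases h7 : c z <;> simp_all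
  cases hcw : c w
  · -- the exits have the colour `true`
    have hb : ∀ j, b j ∉ ({t, w, t'} : Finset V) := by
      intro j h
      have hj : b j ≠ x := fun h' => st.x_notMem hS (h' ▸ h)
      have h3 := st.cb j hj
      rcases hspS _ h j (Or.inr rfl) with h4 | h4
      · exact n1.2 (by rw [← h4, h3, hcw])
      · exact n2.2 (by rw [← h4, h3, hcw])
    have hbe : beta a b ({t, w, t'} : Finset V) = 0 := by
      rw [beta, card_eq_zero, filter_eq_empty_iff]
      rintro j _ ⟨_, h2⟩
      exact hb j h2
    refine st.set_sol hS false (Or.inr ⟨rfl, by omega, ?_⟩) hin hq ?_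
    · rw [hkk, hbe, if_pos hcw]
      rfl
    · intro j hj hji hex
      exfalso
      have haj : a j ∉ ({t, w, t'} : Finset V) := fun h => hb j (hji.1 h)
      have he : expo a b ({t, w, t'} : Finset V) false j = a j := by
        simp [expo, haj]
      rw [he] at hex
      rcases hex with h | ⟨z, hz, h⟩
      · exact haj h
      · have h3 := hnt (a j) (st.a_rest j hj) j (Or.inl rfl) haj (by rw [st.ca j hj, hcw]; decide) z hz h
        subst h3
        have h4 := hexp j hj (fun h => haj (h ▸ htS)) (fun h => haj (h ▸ htS')) (fun h => hb j (h ▸ htS))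
          (fun h => hb j (h ▸ htS'))
        rw [if_pos hcw] at h4
        exact h4 h
  · -- the exits have the colour `false`
    have ha : ∀ j, a j ∉ ({t, w, t'} : Finset V) := by
      intro j h
      have hj : a j ≠ x := fun h' => st.x_notMem hS (h' ▸ h)
      have h3 := st.ca j hj
      rcases hspS _ h j (Or.inl rfl) with h4 | h4
      · exact n1.2 (by rw [← h4, h3, hcw])
      · exact n2.2 (by rw [← h4, h3, hcw])
    have hal : alpha a b ({t, w, t'} : Finset V) = 0 := by
      rw [alpha, card_eq_zero, filter_eq_empty_iff]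
      rintro j _ ⟨h2, _⟩
      exact ha j h2
    refine st.set_sol hS true (Or.inl ⟨rfl, by omega, ?_⟩) hin hq ?_
    · rw [hkk, hal, if_neg (by rw [hcw]; decide)]
      rfl
    · intro j hj hji hex
      exfalso
      have hbj : b j ∉ ({t, w, t'} : Finset V) := fun h => ha j (hji.2 h)
      have he : expo a b ({t, w, t'} : Finset V) true j = b j := by
        simp [expo, ha j]
      rw [he] at hex
      rcases hex with h | ⟨z, hz, h⟩
      · exact hbj h
      · have h3 := hnt (b j) (st.b_rest j (st.b_ne hj)) j (Or.inr rfl) hbj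
          (by rw [st.cb j (st.b_ne hj), hcw]; decide) z hz h
        subst h3
        have h4 := hexp j hj (fun h => ha j (h ▸ htS)) (fun h => ha j (h ▸ htS')) (fun h => hbj (h ▸ htS))
          (fun h => hbj (h ▸ htS'))
        rw [if_neg (by rw [hcw]; decide)] at h4
        exact h4 h

end Star3

end Pool.Agent.BLN
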