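import Pool.Agent.BLN.Pth.LSH
import Pool.Agent.BLN.Pth.PDefs
import Pool.Agent.BLN.Pth.PathSet

/-!
# The gadget: a vertex next to all the `a p`

`q` is adjacent to `a 0`, `a 1`, `a 2`, the other rest-neighbours `W p` of the `a p` have a common
neighbour `v2`. `Gd8.region` : if the component of `v2` in `Uo` sees only the `a p`, then it is a solution
together with `a 0`. `LS.gad` : a least-energy star has no gadget: if the component of `v2` in `Uo` has an
exit besides the `a p`, a shortest walk from some `a i` to an exit `t`, not the partner `b i`, is a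
solution. `Gad.false` : the same for `Gad`.
-/

set_option autoImplicit false
set_option linter.unusedSectionVars false

namespace Pool.Agent.BLN

open Finset Pool.Agent.IVT Star3

variable {V : Type} [Fintype V] [DecidableEq V]

/-- The gadget. -/
structure Gd8 (G : SimpleGraph V) [DecidableRel G.Adj] (c : V → Bool) (x : V) (l a b : Fin 3 → V)
    (q v2 : V) (W : Fin 3 → V) : Prop where
  ne : ∀ p, a p ≠ x
  q_mem : q ∈ Uo G c x l a b
  qa : ∀ p, G.Adj q (a p)
  W_mem : ∀ p, W p ∈ Uo G c x l a b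
  aW : ∀ p, G.Adj (a p) (W p)
  Wq : ∀ p, W p ≠ q
  v_mem : v2 ∈ Uo G c x l a b
  vW : ∀ p, G.Adj v2 (W p)

variable {G : SimpleGraph V} [DecidableRel G.Adj] {c : V → Bool} {x : V} {l a b : Fin 3 → V}
  {q v2 : V} {W : Fin 3 → V}

/-- three different neighbours of a vertex of degree `3` are all -/
theorem three_nb {v : V} (h3 : G.degree v = 3) {f : Fin 3 → V} (hf : Function.Injective f)
    (hadj : ∀ p, G.Adj v (f p)) {w : V} (hw : G.Adj v w) : ∃ p, w = f p := by
  have h1 : (univ : Finset (Fin 3)).image f ⊆ univ.filter fun w => G.Adj v w := by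
    intro y hy
    obtain ⟨p, _, rfl⟩ := mem_image.1 hy
    simp [hadj p]
  have h2 : (univ : Finset (Fin 3)).image f = univ.filter fun w => G.Adj v w := by
    refine eq_of_subset_of_card_le h1 ?_
    rw [Star3.card_nb, h3, card_image_of_injective _ hf]
    rfl
  have h3 : w ∈ (univ : Finset (Fin 3)).image f := by
    rw [h2]
    simp [hw]
  obtain ⟨p, _, rfl⟩ := mem_image.1 h3
  exact ⟨p, rfl⟩

namespace Gd8

variable (st : Star3 G c x l a b) (hC : C4Free G) (h : Gd8 G c x l a b q v2 W)

include st h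

theorem cq : c q = false := by
  have := st.Uo_col h.q_mem _ (h.qa 0)
  rw [st.ca 0 (h.ne 0)] at this
  cases h1 : c q
  · rfl
  · exact absurd h1.symm this

theorem cW (p : Fin 3) : c (W p) = false := by
  have := st.Uo_col (h.W_mem p) _ (h.aW p).symm
  rw [st.ca p (h.ne p)] at this
  cases h1 : c (W p)
  · rfl
  · exact absurd h1.symm this

theorem cv : c v2 = true := by
  have := st.Uo_col h.v_mem _ (h.vW 0)
  rw [h.cW st 0] at this
  cases h1 : c v2
  · exact absurd h1.symm this
  · rfl

theorem a_inj : Function.Injective a := fun i j hij => st.a_inj i j hij (h.ne i)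

omit st in
theorem notU_a (p : Fin 3) : a p ∉ Uo G c x l a b := fun h1 => (h1.2.1 p).1 rfl

theorem q_nb {w : V} (hw : G.Adj q w) : ∃ p, w = a p := three_nb h.q_mem.2.2.1 (h.a_inj st) h.qa hw

theorem a_nb (p : Fin 3) {w : V} (hw : w ∈ rest x l) (hadj : G.Adj (a p) w) : w = q ∨ w = W p :=
  st.sp_two (st.a_rest p (h.ne p)) (Or.inl rfl) h.q_mem.1 (h.W_mem p).1 (h.Wq p).symm (h.qa p).symm (h.aW p) hw hadj

include hC in
theorem W_inj : Function.Injective W := by
  intro i j hij
  by_contra hne
  have h1 := h.aW j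
  rw [← hij] at h1
  rcases hC q (a i) (W i) (a j) (h.qa i) (h.aW i) h1.symm (h.qa j).symm with h2 | h2
  · exact h.Wq i h2.symm
  · exact hne (h.a_inj st h2)

include hC in
theorem v_nb {w : V} (hw : G.Adj v2 w) : ∃ p, w = W p := three_nb h.v_mem.2.2.1 (h.W_inj st hC) h.vW hw

include hC in
/-- no exit besides the `a p` -/
theorem region (hB : NoBal3 G) {D : Finset V} (hv : v2 ∈ D) (hD : ∀ y ∈ D, y ∈ Uo G c x l a b)
    (hcl : ∀ y ∈ D, ∀ w, G.Adj y w → w ∈ D ∨ ∃ p, w = a p) : False := by
  classical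
  -- remove `q`
  wlog hq : q ∉ D generalizing D with H
  · refine H (D := D.erase q) ?_ (fun y hy => hD y (mem_of_mem_erase hy)) ?_ (notMem_erase _ _)
    · refine mem_erase.2 ⟨?_, hv⟩
      rintro rfl
      have h1 := h.cv st
      rw [h.cq st] at h1
      exact absurd h1 (by decide)
    · intro y hy w hw
      rcases hcl y (mem_of_mem_erase hy) w hw with h1 | h1
      · left
        refine mem_erase.2 ⟨?_, h1⟩
        rintro rfl
        obtain ⟨p, hp⟩ := h.q_nb st hw.symm
        exact h.notU_a p (hp ▸ hD y (mem_of_mem_erase hy))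
      · exact Or.inr h1
  have hWD : ∀ p, W p ∈ D := by
    intro p
    rcases hcl v2 hv _ (h.vW p) with h1 | ⟨p', h1⟩
    · exact h1
    · exact absurd (h1 ▸ h.W_mem p) (h.notU_a p')
  have haD : ∀ p, a p ∉ D := fun p h1 => h.notU_a p (hD _ h1)
  have hadj : ∀ y ∈ D, ∀ p, G.Adj y (a p) → y = W p := by
    intro y hy p h1
    rcases h.a_nb st p (hD y hy).1 h1.symm with h2 | h2
    · exact absurd (h2 ▸ hy) hq
    · exact h2
  have hkk : kk c D = -1 := by
    have h1 := three_kk c D (fun y hy => (hD y hy).2.2.1) (fun y hy w h => st.Uo_col (hD y hy) w h)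
    have h2 : ∀ y ∈ D, sg (c y) * ((univ.filter fun w => G.Adj y w ∧ w ∉ D).card : ℤ) =
        if y ∈ (univ : Finset (Fin 3)).image W then (-1 : ℤ) else 0 := by
      intro y hy
      split_ifs with h3
      · obtain ⟨p, _, rfl⟩ := mem_image.1 h3
        have h4 : (univ.filter fun w => G.Adj (W p) w ∧ w ∉ D) = {a p} := by
          ext w
          simp only [mem_filter, mem_univ, true_and, mem_singleton]
          constructor
          · rintro ⟨h5, h6⟩
            rcases hcl _ hy w h5 with h7 | ⟨p', rfl⟩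
            · exact absurd h7 h6
            · rw [h.W_inj st hC (hadj _ hy p' h5)]
          · rintro rfl
            exact ⟨(h.aW p).symm, haD p⟩
        rw [h4, h.cW st p]
        simp [sg]
      · have h4 : (univ.filter fun w => G.Adj y w ∧ w ∉ D) = ∅ := by
          rw [filter_eq_empty_iff]
          rintro w _ ⟨h5, h6⟩
          rcases hcl _ hy w h5 with h7 | ⟨p', rfl⟩
          · exact h6 h7
          · exact h3 (mem_image.2 ⟨p', mem_univ _, (hadj _ hy p' h5).symm⟩)
        rw [h4]
        simp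
    rw [sum_congr rfl h2, ← sum_filter, filter_mem_eq_inter, inter_eq_right.2] at h1
    · rw [sum_const, card_image_of_injective _ (h.W_inj st hC)] at h1
      simp only [card_univ, Fintype.card_fin, nsmul_eq_mul] at h1
      push_cast at h1
      omega
    · intro y hy
      obtain ⟨p, _, rfl⟩ := mem_image.1 hy
      exact hWD p
  set S : Finset V := insert (a 0) D with hSdef
  have hS : S ⊆ rest x l := by
    intro y hy
    rcases mem_insert.1 hy with rfl | hy
    · exact st.a_rest 0 (h.ne 0)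
    · exact (hD y hy).1
  have ha0S : a 0 ∈ S := mem_insert_self _ _
  have hDS : ∀ y ∈ D, y ∈ S := fun y hy => mem_insert_of_mem hy
  have haS : ∀ j, j ≠ 0 → a j ∉ S := by
    intro j hj h1
    rcases mem_insert.1 h1 with h1 | h1
    · exact hj (h.a_inj st h1)
    · exact haD j h1
  have hbU : ∀ j, b j ∉ Uo G c x l a b := fun j h1 => (h1.2.1 j).2 rfl
  have hbne : ∀ j, b j ≠ x := fun j => st.b_ne (h.ne j)
  have hbS : ∀ j, b j ∉ S := by
    intro j h1
    rcases mem_insert.1 h1 with h1 | h1
    · exact st.a_ne_b' 0 (h.ne 0) j h1.symm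
    · exact hbU j (hD _ h1)
  have hqS : q ∉ S := by
    intro h1
    rcases mem_insert.1 h1 with h1 | h1
    · exact h.notU_a 0 (h1 ▸ h.q_mem)
    · exact hq h1
  have halpha : alpha a b S = 1 := by
    rw [alpha, card_eq_one]
    refine ⟨0, ?_⟩
    ext j
    simp only [mem_filter, mem_univ, true_and, mem_singleton]
    constructor
    · rintro ⟨h1, _⟩
      by_contra h2
      exact haS j h2 h1
    · rintro rfl
      exact ⟨ha0S, hbS 0⟩
  have hcost : ∀ v, v ∉ S → ∀ w ∈ rest x l, w ∉ S → G.Adj v w → c w ≠ c v → flips S c w ≠ flips S c v := by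
    intro v hv w _ hw _ h4
    simpa [flips, hv, hw] using h4
  have hcost' : ∀ v, v ∈ S → ∀ w, w ∈ S → c w ≠ c v → flips S c w ≠ flips S c v := by
    intro v hv w hw h4
    simp only [flips, hv, hw, if_true]
    intro h5
    exact h4 (by simpa using h5)
  obtain ⟨h1, h2⟩ := st.table_local hS true (by
    left
    refine ⟨rfl, halpha.le, ?_⟩
    rw [kk, hSdef, sum_insert (haD 0)]
    have : kk c D = ∑ v ∈ D, sg (c v) := rfl
    rw [← this, hkk, ← hSdef, halpha, st.ca 0 (h.ne 0)]
    simp [sg]) (by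
    intro v hv
    rcases mem_insert.1 hv with rfl | hvD
    · refine st.cost_lt_of_one (st.a_rest 0 (h.ne 0)) (Or.inl rfl) (h.W_mem 0).1 (h.aW 0) ?_
      refine hcost' _ hv _ (hDS _ (hWD 0)) ?_
      rw [h.cW st 0, st.ca 0 (h.ne 0)]
      decide
    · rw [(hD v hvD).2.2.1]
      have h1 : cost G c x l S v ≤ 1 := by
        rw [cost_eq, ownIn, card_le_one]
        have h3 : ∀ w, w ∈ (rest x l).filter (fun w => G.Adj v w ∧ flips S c w = flips S c v) →
            ∃ p, w = a p ∧ v = W p := by
          intro w hw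
          rw [mem_filter] at hw
          obtain ⟨h2, h3, h4⟩ := hw
          rcases hcl v hvD w h3 with h5 | ⟨p, rfl⟩
          · exact absurd h4 (hcost' _ hv _ (hDS _ h5) (st.Uo_col (hD v hvD) w h3))
          · exact ⟨p, rfl, hadj v hvD p h3⟩
        intro w hw w' hw'
        obtain ⟨p, rfl, hp⟩ := h3 w hw
        obtain ⟨p', rfl, hp'⟩ := h3 w' hw'
        rw [h.W_inj st hC (hp.symm.trans hp')]
      omega) (by
    rintro v hv hvS ⟨w, hw, hvw⟩
    rcases mem_insert.1 hw with rfl | hwD
    · rcases h.a_nb st 0 hv hvw.symm with h3 | h3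
      · rw [h3]
        refine cost_lt_of_two h.q_mem.2.2.1 (st.a_rest 1 (h.ne 1)) (st.a_rest 2 (h.ne 2))
          (fun h4 => by simpa using h.a_inj st h4) (h.qa 1) (h.qa 2) ?_ ?_
        · refine hcost _ hqS _ (st.a_rest 1 (h.ne 1)) (haS 1 (by decide)) (h.qa 1) ?_
          rw [h.cq st, st.ca 1 (h.ne 1)]
          decide
        · refine hcost _ hqS _ (st.a_rest 2 (h.ne 2)) (haS 2 (by decide)) (h.qa 2) ?_
          rw [h.cq st, st.ca 2 (h.ne 2)]
          decide
      · exact absurd (h3 ▸ hDS _ (hWD 0)) hvS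
    · rcases hcl w hwD v hvw.symm with h3 | ⟨p, h3⟩
      · exact absurd (hDS _ h3) hvS
      · have hp : p ≠ 0 := by
          rintro rfl
          exact hvS (h3 ▸ ha0S)
        rw [h3]
        refine st.cost_lt_of_one (st.a_rest p (h.ne p)) (Or.inl rfl) h.q_mem.1 (h.qa p).symm ?_
        refine hcost _ (haS p hp) _ h.q_mem.1 hqS (h.qa p).symm ?_
        rw [h.cq st, st.ca p (h.ne p)]
        decide) (by
    intro j _ hj hex
    exfalso
    have hj0 : a j ∉ S := fun h3 => hbS j (hj.1 h3)
    have he : expo a b S true j = b j := by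
      simp [expo, hj0]
    rw [he] at hex
    rcases hex with h3 | ⟨w, hw, h3⟩
    · exact hbS j h3
    · rcases mem_insert.1 hw with rfl | hwD
      · rcases h.a_nb st 0 (st.b_rest j (hbne j)) h3.symm with h4 | h4
        · exact hbU j (h4 ▸ h.q_mem)
        · exact hbU j (h4 ▸ h.W_mem 0)
      · rcases hcl w hwD _ h3.symm with h4 | ⟨p, h4⟩
        · exact hbU j (hD _ h4)
        · exact st.a_ne_b' p (h.ne p) j h4.symm)
  exact hB _ h1 h2

end Gd8

/-- a vertex of `Uo` away from the flipped pair stays in `Uo` -/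
theorem Uo_flips {S : Finset V} {u : V} (hu : u ∈ Uo G c x l a b) (hS : u ∉ S) (h : ∀ s ∈ S, ¬ G.Adj u s) :
    u ∈ Uo G (flips S c) x l a b := by
  obtain ⟨h1, h2, h3, h4⟩ := hu
  refine ⟨h1, h2, h3, ?_⟩
  rw [ownIn, card_eq_zero, filter_eq_empty_iff] at h4 ⊢
  rintro w hw ⟨h5, h6⟩
  have hwS : w ∉ S := fun h7 => h w h7 h5
  rw [flips_ne hS, flips_ne hwS] at h6
  exact h4 hw ⟨h5, h6⟩

/-- exits of a walk which starts at `a i` -/
def Ex (G : SimpleGraph V) [DecidableRel G.Adj] (c : V → Bool) (x : V) (l a b : Fin 3 → V) (i : Fin 3) :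
    Set V := {t | t ∉ Uo G c x l a b ∧ (∀ p, t ≠ a p) ∧ t ≠ b i}

/-- there is no walk of length `r` from `a i` to an exit -/
def NoW (G : SimpleGraph V) [DecidableRel G.Adj] (x : V) (l a b : Fin 3 → V) (q v2 : V) (W : Fin 3 → V)
    (r : ℕ) : Prop :=
  ∀ c : V → Bool, LS G c x l a b → Gd8 G c x l a b q v2 W → ∀ (i : Fin 3) (v : ℕ → V) (t : V),
    G.Adj (a i) (v 1) → UTail G (Uo G c x l a b) v r t → t ∈ Ex G c x l a b i → False

section

variable (hG : Deg13 G) (hB : NoBal3 G) (hC : C4Free G) (hL : LS G c x l a b)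
  (h : Gd8 G c x l a b q v2 W) {r : ℕ} (IH : ∀ r' < r, NoW G x l a b q v2 W r') {i : Fin 3} {v : ℕ → V}
  {t : V} (hs : G.Adj (a i) (v 1)) (hv : UTail G (Uo G c x l a b) v r t) (ht : t ∈ Ex G c x l a b i)

include hL h IH hs hv ht

theorem gad_short : Short G (Uo G c x l a b) (fun s t' => s = a i ∧ t' ∈ Ex G c x l a b i) (a i) v r t where
  tail := hv
  start := hs
  al := ⟨rfl, ht⟩
  min := by
    rintro a' t' ⟨rfl, ht'⟩ v' m' h1 h2
    by_contra h3
    exact IH m' (by omega) c hL h i v' t' h1 h2 ht'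

theorem gad_v1 : v 1 = W i := by
  have st := hL.star
  rcases h.a_nb st i (hv.mem 1 le_rfl hv.pos).1 hs with h1 | h1
  · exfalso
    have h2 : ∃ w, G.Adj (v 1) w ∧ ∀ p, w ≠ a p := by
      by_cases hr : r = 1
      · subst hr
        exact ⟨t, hv.exit, ht.2.1⟩
      · have h3 := hv.adj 1 le_rfl (by have := hv.pos; omega)
        refine ⟨_, h3, fun p h4 => ?_⟩
        exact h.notU_a p (h4 ▸ hv.mem 2 (by omega) (by have := hv.pos; omega))
    obtain ⟨w, h3, h4⟩ := h2
    obtain ⟨p, hp⟩ := h.q_nb st (h1 ▸ h3)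
    exact h4 p hp
  · exact h1

include hC in
/-- `v k` is adjacent to `a j` only if `t` is the partner of `a j` -/
theorem gad_a {k : ℕ} (hk : 1 ≤ k) (hkr : k ≤ r) {j : Fin 3} (hj : j ≠ i) (hadj : G.Adj (v k) (a j)) :
    t = b j := by
  have st := hL.star
  by_contra hne
  by_cases hk1 : k = 1
  · subst hk1
    rw [gad_v1 hL h IH hs hv ht] at hadj
    rcases h.a_nb st j (h.W_mem i).1 hadj.symm with h1 | h1
    · exact h.Wq i h1
    · exact hj (h.W_inj st hC h1).symm
  · exact IH (r - k + 1) (by omega) c hL h j _ t (by simpa using hadj.symm) (hv.drop (by omega : 1 ≤ k) hkr)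
      ⟨ht.1, ht.2.1, hne⟩

/-- `q` is not on the walk -/
theorem gad_q {k : ℕ} (hk : 1 ≤ k) (hkr : k ≤ r) : v k ≠ q := by
  have st := hL.star
  intro h1
  have h2 : ∃ w, G.Adj (v k) w ∧ ∀ p, w ≠ a p := by
    by_cases hr : k = r
    · subst hr
      exact ⟨t, hv.exit, ht.2.1⟩
    · have h3 := hv.adj k hk (by omega)
      refine ⟨_, h3, fun p h4 => ?_⟩
      exact h.notU_a p (h4 ▸ hv.mem (k + 1) (by omega) (by omega))
  obtain ⟨w, h3, h4⟩ := h2
  obtain ⟨p, hp⟩ := h.q_nb st (h1 ▸ h3)
  exact h4 p hp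

include hC in
/-- the partner `b i` sees at most one vertex of the walk -/
theorem gad_bi {k k' : ℕ} (hk : 1 ≤ k) (hkk : k < k') (hkr : k' ≤ r) (h1 : G.Adj (b i) (v k))
    (h2 : G.Adj (b i) (v k')) : False := by
  have st := hL.star
  have hsh := gad_short hL h IH hs hv ht
  have hU : ∀ u ∈ Uo G c x l a b, ∀ w, G.Adj u w → c w ≠ c u := fun u hu w hw => st.Uo_col hu w hw
  have hbU : b i ∉ Uo G c x l a b := fun h3 => (h3.2.1 i).2 rfl
  -- the walk `W p, v2, v 1, …, v k`
  obtain ⟨p, hp⟩ : ∃ p : Fin 3, p ≠ i := by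
    by_cases h3 : i = 0
    · exact ⟨1, by rw [h3]; decide⟩
    · exact ⟨0, fun h4 => h3 h4.symm⟩
  have h3 : k' ≤ k + 2 := by
    by_contra h4
    have h5 := hv.take hk (by omega : k ≤ r) h1.symm
    have h6 := h5.cons h.v_mem (by rw [gad_v1 hL h IH hs hv ht]; exact h.vW i)
    have h7 := h6.cons (h.W_mem p) (by simpa using (h.vW p).symm)
    refine IH _ (by omega) c hL h p _ (b i) ?_ h7 ⟨hbU, fun p' h8 => ?_, fun h8 => ?_⟩
    · simpa using h.aW p
    · exact st.a_ne_b' p' (h.ne p') i h8.symm
    · exact hp (st.b_inj i p h8 (st.b_ne (h.ne i))).symm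
  have h4 : k' = k + 2 := by
    by_contra h5
    have h6 : k' = k + 1 := by omega
    subst h6
    have h7 := hsh.col_succ hU hk (by omega)
    have h8 := hU _ (hv.mem k hk (by omega)) _ h1.symm
    have h9 := hU _ (hv.mem _ (by omega) hkr) _ h2.symm
    exact h7 (bool_eq_of_ne (fun h => h9 h.symm) (fun h => h8 h.symm))
  subst h4
  rcases hC (b i) (v k) (v (k + 1)) (v (k + 2)) h1 (hv.adj k hk (by omega)) (hv.adj (k + 1) (by omega) (by omega)) h2.symm with h6 | h6
  · exact hbU (h6 ▸ hv.mem (k + 1) (by omega) (by omega))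
  · exact hsh.inj hk (by omega : k < k + 2) hkr h6

include hG hB hC in
/-- no heavy leg with a heavy or pendant neighbour -/
theorem gad_nf {z : V} (hown : 1 ≤ ownIn G c (rest x l) t) (hz : z ∈ rest x l) (hadj : G.Adj t z)
    (hne : c z ≠ c t) (hz2 : 1 ≤ ownIn G c (rest x l) z ∨ G.degree z = 1) : False := by
  have st := hL.star
  have hsh := gad_short hL h IH hs hv ht
  have hU : ∀ u ∈ Uo G c x l a b, ∀ w, G.Adj u w → c w ≠ c u := fun u hu w hw => st.Uo_col hu w hw
  have hr := hv.pos
  have hvr := hv.mem r hr le_rfl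
  have htr : t ∈ rest x l := (st.Uo_nb hvr hv.exit).1
  have hL' := hL.neutral hG hB hC htr hz hadj (Ne.symm hne) hown hz2
  have hzU : z ∉ Uo G c x l a b := by
    rintro ⟨_, _, h3, h4⟩
    omega
  have hzs := st.ne_special hz hz2
  have hts := st.ne_special htr (Or.inl hown)
  have hzE : ∀ p, z ∈ Ex G c x l a b p := fun p => ⟨hzU, fun p' => (hzs p').1, (hzs p).2⟩
  have htE : ∀ p, t ∈ Ex G c x l a b p := fun p => ⟨ht.1, ht.2.1, (hts p).2⟩
  have hstay : ∀ u ∈ Uo G c x l a b, ¬ G.Adj u t → ¬ G.Adj u z →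
      u ∈ Uo G (flips {t, z} c) x l a b := by
    intro u hu h1 h2
    refine Uo_flips hu ?_ ?_
    · simp only [mem_insert, mem_singleton, not_or]
      exact ⟨fun h3 => ht.1 (h3 ▸ hu), fun h3 => hzU (h3 ▸ hu)⟩
    · intro s hs
      simp only [mem_insert, mem_singleton] at hs
      rcases hs with rfl | rfl
      · exact h1
      · exact h2
  have hvt : v r ≠ t := fun h1 => ht.1 (h1 ▸ hvr)
  have hvz : v r ≠ z := fun h1 => hzU (h1 ▸ hvr)
  have hnew : ∀ u ∈ Uo G c x l a b, G.Adj u t → u ∉ Uo G (flips {t, z} c) x l a b := by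
    rintro u hu h1 ⟨_, _, _, h4⟩
    rw [ownIn, card_eq_zero, filter_eq_empty_iff] at h4
    refine h4 htr ⟨h1, ?_⟩
    have h5 : u ∉ ({t, z} : Finset V) := by
      simp only [mem_insert, mem_singleton, not_or]
      exact ⟨fun h3 => ht.1 (h3 ▸ hu), fun h3 => hzU (h3 ▸ hu)⟩
    rw [flips_ne h5, flips_mem (by simp)]
    have h6 := hU u hu t h1
    revert h6
    cases c t <;> cases c u <;> simp
  have hqt : ¬ G.Adj q t := by
    intro h1
    obtain ⟨p, hp⟩ := h.q_nb st h1
    exact (hts p).1 hp
  have hqz : ¬ G.Adj q z := by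
    intro h1
    obtain ⟨p, hp⟩ := h.q_nb st h1
    exact (hzs p).1 hp
  by_cases hr1 : r = 1
  · subst hr1
    have h1 := hL'.h1 hG hB hC (h.ne i) (s := a i) (u := q) (k := v 1) (Or.inl rfl)
      (hstay q h.q_mem hqt hqz) (h.qa i).symm hvr.1 hs
    exact hnew _ hvr hv.exit ⟨hvr.1, hvr.2.1, h1.2, h1.1⟩
  · have hWt : ∀ p, ¬ G.Adj (W p) t := by
      intro p h1
      exact IH 1 (by omega) c hL h p _ t (h.aW p) (UTail.single (h.W_mem p) h1) (htE p)
    have hWz : ∀ p, ¬ G.Adj (W p) z := by
      intro p h1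
      exact IH 1 (by omega) c hL h p _ z (h.aW p) (UTail.single (h.W_mem p) h1) (hzE p)
    have hvt' : ¬ G.Adj v2 t := by
      intro h1
      obtain ⟨p, hp⟩ := h.v_nb st hC h1
      exact ht.1 (hp ▸ h.W_mem p)
    have hvz' : ¬ G.Adj v2 z := by
      intro h1
      obtain ⟨p, hp⟩ := h.v_nb st hC h1
      exact hzU (hp ▸ h.W_mem p)
    have hgad : Gd8 G (flips {t, z} c) x l a b q v2 W :=
      ⟨h.ne, hstay q h.q_mem hqt hqz, h.qa, fun p => hstay _ (h.W_mem p) (hWt p) (hWz p), h.aW, h.Wq,
        hstay _ h.v_mem hvt' hvz', h.vW⟩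
    refine IH (r - 1) (by omega) _ hL' hgad i v (v r) hs ⟨by omega, ?_, ?_, ?_⟩ ⟨?_, ?_, ?_⟩
    · intro k h1 h2
      exact hstay _ (hv.mem k h1 (by omega)) (hsh.no_exit h1 (by omega) ⟨rfl, ht⟩) (hsh.no_exit h1 (by omega) ⟨rfl, hzE i⟩)
    · intro k h1 h2
      exact hv.adj k h1 (by omega)
    · have := hv.adj (r - 1) (by omega) (by omega)
      rwa [show r - 1 + 1 = r by omega] at this
    · exact hnew _ hvr hv.exit
    · exact fun p h1 => h.notU_a p (h1 ▸ hvr)
    · exact fun h1 => (hvr.2.1 i).2 h1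

include hG hB hC in
/-- the exit is simple -/
theorem gad_simple {z : V} (hz : z ∈ rest x l) (hadj : G.Adj t z) (hne : c z ≠ c t) :
    ownIn G c (rest x l) z = 0 ∧ G.degree z = 3 := by
  have st := hL.star
  have hr := hv.pos
  have hvr := hv.mem r hr le_rfl
  have htr : t ∈ rest x l := (st.Uo_nb hvr hv.exit).1
  by_cases hsp : ∃ j, t = a j ∨ t = b j
  · obtain ⟨j, hj⟩ := hsp
    exact hL.h1 hG hB hC (h.ne j) hj hvr hv.exit.symm hz hadj
  push Not at hsp
  rcases hG t with h1 | h1
  · -- pendant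
    have h2 : z = v r := by
      have h3 := Star3.card_nb G t
      rw [h1, card_eq_one] at h3
      obtain ⟨y, hy⟩ := h3
      have h4 : z ∈ univ.filter fun w => G.Adj t w := by simp [hadj]
      have h5 : v r ∈ univ.filter fun w => G.Adj t w := by simp [hv.exit.symm]
      rw [hy, mem_singleton] at h4 h5
      rw [h4, h5]
    rw [h2]
    exact ⟨hvr.2.2.2, hvr.2.2.1⟩
  · have hown : 1 ≤ ownIn G c (rest x l) t := by
      by_contra h2
      exact ht.1 ⟨htr, hsp, h1, by omega⟩
    by_contra hcon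
    refine gad_nf hG hB hC hL h IH hs hv ht hown hz hadj hne ?_
    rcases hG z with h3 | h3
    · exact Or.inr h3
    · left
      by_contra h4
      exact hcon ⟨by omega, h3⟩

include hG hB hC in
/-- two legs at the end are mates -/
theorem gad_mate {t' : V} (ht' : t' ∈ Ex G c x l a b i) (hadj : G.Adj (v r) t') (hne : t' ≠ t) :
    G.Adj t t' := by
  have st := hL.star
  have hr := hv.pos
  have hvr := hv.mem r hr le_rfl
  have htr : t ∈ rest x l := (st.Uo_nb hvr hv.exit).1
  have htr' : t' ∈ rest x l := (st.Uo_nb hvr hadj).1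
  have hU : ∀ u ∈ Uo G c x l a b, ∀ w, G.Adj u w → c w ≠ c u := fun u hu w hw => st.Uo_col hu w hw
  have hct : c t ≠ c (v r) := hU _ hvr _ hv.exit
  have hct' : c t' ≠ c (v r) := hU _ hvr _ hadj
  have hv' : UTail G (Uo G c x l a b) v r t' := ⟨hv.pos, hv.mem, hv.adj, hadj⟩
  by_contra hn
  -- the third neighbour of `v r`
  obtain ⟨u, huU, hu1, hu2⟩ : ∃ u, u ∈ Uo G c x l a b ∧ G.Adj (v r) u ∧
      ∀ w, G.Adj (v r) w → w = u ∨ w = t ∨ w = t' := by
    have hex : ∃ u, u ∈ Uo G c x l a b ∧ G.Adj (v r) u := by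
      by_cases hr1 : r = 1
      · subst hr1
        exact ⟨v2, h.v_mem, by rw [gad_v1 hL h IH hs hv ht]; exact (h.vW i).symm⟩
      · refine ⟨v (r - 1), hv.mem _ (by omega) (by omega), ?_⟩
        have := hv.adj (r - 1) (by omega) (by omega)
        rw [show r - 1 + 1 = r by omega] at this
        exact this.symm
    obtain ⟨u, huU, hu1⟩ := hex
    refine ⟨u, huU, hu1, fun w hw => ?_⟩
    have h1 : u ≠ t := fun h2 => ht.1 (h2 ▸ huU)
    have h2 : u ≠ t' := fun h2 => ht'.1 (h2 ▸ huU)
    obtain ⟨p, hp⟩ := three_nb (f := ![u, t, t']) hvr.2.2.1 (by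
      intro p p' hpp
      fin_cases p <;> fin_cases p' <;> simp_all) (by
      intro p
      fin_cases p
      · exact hu1
      · exact hv.exit
      · exact hadj) hw
    fin_cases p
    · exact Or.inl hp
    · exact Or.inr (Or.inl hp)
    · exact Or.inr (Or.inr hp)
  have key : ∀ {s s' : V}, s ∈ Ex G c x l a b i → s' ∈ Ex G c x l a b i → G.Adj (v r) s → G.Adj (v r) s' →
      s ≠ s' → (∀ z ∈ rest x l, G.Adj s z → c z ≠ c s → ownIn G c (rest x l) z = 0 ∧ G.degree z = 3) →
      ∀ w ∈ rest x l, w ∉ ({s, v r, s'} : Finset V) → G.Adj w s → c s ≠ c w → G.degree w = 3 ∧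
      (∀ w' ∈ rest x l, G.Adj w w' → c w' = c w → w' ∈ ({s, v r, s'} : Finset V)) ∧
      (∀ y' ∈ ({s, v r, s'} : Finset V), G.Adj w y' → c y' ≠ c w → y' = s) := by
    intro s s' hsE hsE' h1 h2 hss hsimp w hw hwS hws hcs
    obtain ⟨h3, h4⟩ := hsimp w hw hws.symm (fun h => hcs h.symm)
    refine ⟨h4, fun w' hw' h5 h6 => ?_, fun y' hy' h5 h6 => ?_⟩
    · exfalso
      rw [ownIn, card_eq_zero, filter_eq_empty_iff] at h3
      exact h3 hw' ⟨h5, h6⟩
    · simp only [mem_insert, mem_singleton] at hy' hwS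
      push Not at hwS
      rcases hy' with rfl | rfl | rfl
      · rfl
      · exfalso
        have h7 := hU _ hvr _ h1
        exact h7 (bool_eq_of_ne hcs h6)
      · exfalso
        rcases hC w s (v r) y' hws h1.symm h2 h5.symm with h7 | h7
        · exact hwS.2.1 h7
        · exact hss h7
  have hS : ({t, v r, t'} : Finset V) = {t', v r, t} := by
    ext w
    simp only [mem_insert, mem_singleton]
    tauto
  obtain ⟨d, hd1, hd2⟩ := st.leg_sol hG hvr hv.exit hadj ht.1 ht'.1 hne.symm hn (by
    intro w hw hwS y hy hwy hcy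
    simp only [mem_insert, mem_singleton] at hy
    rcases hy with rfl | rfl | rfl
    · exact key ht ht' hv.exit hadj hne.symm (fun z hz h1 h2 => gad_simple hG hB hC hL h IH hs hv ht hz h1 h2)
        w hw hwS hwy hcy
    · have hwS' := hwS
      simp only [mem_insert, mem_singleton] at hwS'
      push Not at hwS'
      have hwu : w = u := by
        rcases hu2 w hwy.symm with h1 | h1 | h1
        · exact h1
        · exact absurd h1 hwS'.1
        · exact absurd h1 hwS'.2.2
      subst hwu
      refine ⟨huU.2.2.1, fun w' hw' h5 h6 => absurd h6 (hU _ huU _ h5), fun y' hy' h5 h6 => ?_⟩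
      simp only [mem_insert, mem_singleton] at hy'
      rcases hy' with rfl | rfl | rfl
      · exact absurd (bool_eq_of_ne hct (fun h => hcy h.symm)) h6
      · rfl
      · exact absurd (bool_eq_of_ne hct' (fun h => hcy h.symm)) h6
    · rw [hS] at hwS ⊢
      exact key ht' ht hadj hv.exit hne (fun z hz h1 h2 => gad_simple hG hB hC hL h IH hs hv' ht' hz h1 h2)
        w hw hwS hwy hcy) (by
    intro j _ h1 h2 h3 h4 hadjs
    rcases hu2 _ hadjs.symm with h5 | h5 | h5
    · rw [← h5] at huU
      split_ifs at huU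
      · exact (huU.2.1 j).1 rfl
      · exact (huU.2.1 j).2 rfl
    · split_ifs at h5
      · exact h1 h5
      · exact h3 h5
    · split_ifs at h5
      · exact h2 h5
      · exact h4 h5)
  exact hB d hd1 hd2

include hG hB hC in
/-- the shortest walk is a solution -/
theorem gad_path : False := by
  have st := hL.star
  have hr := hv.pos
  have hvr := hv.mem r hr le_rfl
  have htr : t ∈ rest x l := (st.Uo_nb hvr hv.exit).1
  have hsh := gad_short hL h IH hs hv ht
  have hU : ∀ u ∈ Uo G c x l a b, ∀ w, G.Adj u w → c w ≠ c u := fun u hu w hw => st.Uo_col hu w hw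
  have hv1 := gad_v1 hL h IH hs hv ht
  have hct : c t ≠ c (v r) := hU _ hvr _ hv.exit
  have hqk : ∀ k, 1 ≤ k → k ≤ r → v k ≠ q := fun k h1 h2 => gad_q hL h IH hs hv ht h1 h2
  have hbU : ∀ j, b j ∉ Uo G c x l a b := fun j h1 => (h1.2.1 j).2 rfl
  have hbE : ∀ j, j ≠ i → b j ∈ Ex G c x l a b i := fun j hj =>
    ⟨hbU j, fun p h1 => st.a_ne_b' p (h.ne p) j h1.symm, fun h1 => hj (st.b_inj j i h1 (st.b_ne (h.ne j)))⟩
  have hbr : ∀ j, b j ∈ rest x l := fun j => st.b_rest j (st.b_ne (h.ne j))
  have har : ∀ j, a j ∈ rest x l := fun j => st.a_rest j (h.ne j)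
  have hmem : ∀ y, y ∈ pathSet (a i) v r t ↔ y = a i ∨ y = t ∨ ∃ k, 1 ≤ k ∧ k ≤ r ∧ v k = y := by
    intro y
    simp only [pathSet, mem_insert, mem_image, mem_Icc]
    constructor
    · rintro (h1 | h1 | ⟨k, ⟨h1, h2⟩, h3⟩)
      · exact Or.inl h1
      · exact Or.inr (Or.inl h1)
      · exact Or.inr (Or.inr ⟨k, h1, h2, h3⟩)
    · rintro (h1 | h1 | ⟨k, h1, h2, h3⟩)
      · exact Or.inl h1
      · exact Or.inr (Or.inl h1)
      · exact Or.inr (Or.inr ⟨k, ⟨h1, h2⟩, h3⟩)
  have hq : q ∉ pathSet (a i) v r t := by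
    rw [hmem]
    rintro (h1 | h1 | ⟨k, h1, h2, h3⟩)
    · exact h.notU_a i (h1 ▸ h.q_mem)
    · exact ht.1 (h1 ▸ h.q_mem)
    · exact hqk k h1 h2 h3
  -- neighbours of the `a j`
  have hanb : ∀ j, ∀ w ∈ rest x l, G.Adj (a j) w → w = q ∨ w = W j := fun j w hw h1 => h.a_nb st j hw h1
  -- a special next to `t` and to `v k`
  have hbt : ∀ j k, 1 ≤ k → k ≤ r → G.Adj (b j) (v k) → G.Adj (b j) t → c t = c (b j) := by
    intro j k h1 h2 h3 h4
    have h5 := hL.h1 hG hB hC (h.ne j) (Or.inr rfl) (hv.mem k h1 h2) h3 htr h4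
    have h6 : ∃ j', t = b j' := by
      by_contra h7
      push Not at h7
      exact ht.1 ⟨htr, fun j' => ⟨ht.2.1 j', h7 j'⟩, h5.2, h5.1⟩
    obtain ⟨j', h6⟩ := h6
    rw [h6, st.cb j' (st.b_ne (h.ne j')), st.cb j (st.b_ne (h.ne j))]
  -- colours of specials next to `t`
  have hspt : ∀ j, G.Adj t (b j) → c t ≠ c (b j) := by
    intro j h1 h2
    have h3 := st.own_b j (st.b_ne (h.ne j)) t htr h1.symm
    rw [h2, st.cb j (st.b_ne (h.ne j))] at h3
    exact absurd h3 (by decide)
  -- an exit next to `v k`, off the set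
  have hexit : ∀ w, w ∈ Ex G c x l a b i → w ≠ t → ∀ k, 1 ≤ k → k ≤ r → G.Adj w (v k) → k = r ∧ G.Adj t w := by
    intro w hw hwt k h1 h2 h3
    have hkr : k = r := by
      by_contra h4
      exact hsh.no_exit h1 (by omega) ⟨rfl, hw⟩ h3.symm
    subst hkr
    exact ⟨rfl, gad_mate hG hB hC hL h IH hs hv ht hw h3.symm hwt⟩
  obtain ⟨d, hd1, hd2⟩ := st.path_sol (h.ne i) hv hs
    (fun j k h1 h2 h3 h4 h5 => hsh.inj' h1 h2 h3 h4 h5) ht.1 (ht.2.1 i) hG ht.2.2 (by
    intro w hw hwS y hy hwy hcy
    have hwa : w ≠ a i := fun h1 => hwS ((hmem _).2 (Or.inl h1))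
    have hwt : w ≠ t := fun h1 => hwS ((hmem _).2 (Or.inr (Or.inl h1)))
    have hwv : ∀ k, 1 ≤ k → k ≤ r → v k ≠ w := fun k h1 h2 h3 => hwS ((hmem _).2 (Or.inr (Or.inr ⟨k, h1, h2, h3⟩)))
    rcases (hmem y).1 hy with rfl | rfl | ⟨k, hk1, hk2, rfl⟩
    · -- `w = q`
      have hwq : w = q := by
        rcases hanb i w hw hwy.symm with h1 | h1
        · exact h1
        · exact absurd (hv1.trans h1.symm) (hwv 1 le_rfl hr)
      rw [hwq]
      refine ⟨h.q_mem.2.2.1, fun w' hw' h5 h6 => absurd h6 (hU _ h.q_mem _ h5), fun y' hy' h5 _ => ?_⟩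
      obtain ⟨p, hp⟩ := h.q_nb st h5
      rcases (hmem y').1 hy' with h1 | h1 | ⟨k, h1, h2, h3⟩
      · exact h1
      · exact absurd (h1 ▸ hp) (ht.2.1 p)
      · exact absurd (hp ▸ h3 ▸ hv.mem k h1 h2) (h.notU_a p)
    · -- next to `t`
      obtain ⟨h3, h4⟩ := gad_simple hG hB hC hL h IH hs hv ht hw hwy.symm (fun h => hcy h.symm)
      refine ⟨h4, fun w' hw' h5 h6 => ?_, fun y' hy' h5 h6 => ?_⟩
      · exfalso
        rw [ownIn, card_eq_zero, filter_eq_empty_iff] at h3
        exact h3 hw' ⟨h5, h6⟩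
      · by_contra hne
        rcases (hmem y').1 hy' with h1 | h1 | ⟨k, h1, h2, h7⟩
        · rw [h1] at h5
          rcases hanb i w hw h5.symm with h8 | h8
          · rw [h8] at hwy
            obtain ⟨p, hp⟩ := h.q_nb st hwy
            exact ht.2.1 p hp
          · exact hwv 1 le_rfl hr (hv1.trans h8.symm)
        · exact hne h1
        · rw [← h7] at h5
          by_cases hwU : w ∈ Uo G c x l a b
          · obtain ⟨_, h8⟩ := hsh.common_exit hU hwU h1 h2 h5 hwy hC ht.1
            exact hwv r hr le_rfl h8.symm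
          · have hsp : ∃ j, w = a j ∨ w = b j := by
              by_contra h8
              push Not at h8
              exact hwU ⟨hw, h8, h4, h3⟩
            obtain ⟨j, h8 | h8⟩ := hsp
            · rw [h8] at hwy
              rcases hanb j _ htr hwy with h9 | h9
              · exact ht.1 (h9 ▸ h.q_mem)
              · exact ht.1 (h9 ▸ h.W_mem j)
            · rw [h8] at hwy h5 hcy
              exact hcy (hbt j k h1 h2 h5 hwy)
    · -- next to `v k`
      have hvk := hv.mem k hk1 hk2
      by_cases hwU : w ∈ Uo G c x l a b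
      · refine ⟨hwU.2.2.1, fun w' hw' h5 h6 => absurd h6 (hU _ hwU _ h5), fun y' hy' h5 _ => ?_⟩
        by_contra hne
        rcases (hmem y').1 hy' with h1 | h1 | ⟨k', h1, h2, h7⟩
        · rw [h1] at h5
          rcases hanb i w hw h5.symm with h8 | h8
          · rw [h8] at hwy
            obtain ⟨p, hp⟩ := h.q_nb st hwy
            exact h.notU_a p (hp ▸ hvk)
          · exact hwv 1 le_rfl hr (hv1.trans h8.symm)
        · rw [h1] at h5
          obtain ⟨_, h8⟩ := hsh.common_exit hU hwU hk1 hk2 hwy h5 hC ht.1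
          exact hwv r hr le_rfl h8.symm
        · rw [← h7] at h5 hne
          rcases lt_trichotomy k k' with h8 | h8 | h8
          · obtain ⟨_, h9⟩ := hsh.common hU hwU hk1 h8 h2 hwy h5 hC
            exact hwv (k + 1) (by omega) (by omega) h9.symm
          · exact hne (by rw [h8])
          · obtain ⟨_, h9⟩ := hsh.common hU hwU h1 h8 hk2 h5 hwy hC
            exact hwv (k' + 1) (by omega) (by omega) h9.symm
      · by_cases hsp : ∃ j, w = a j ∨ w = b j
        · obtain ⟨j, hj⟩ := hsp
          have hd3 : G.degree w = 3 := st.special_deg hw hj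
          have ho := st.ownIn_special hw hj
          refine ⟨hd3, fun w' hw' h5 h6 => ?_, fun y' hy' h5 h6 => ?_⟩
          · exfalso
            rw [ownIn, card_eq_zero, filter_eq_empty_iff] at ho
            exact ho hw' ⟨h5, h6⟩
          · have hyr : y' ∈ rest x l := by
              rcases (hmem y').1 hy' with h1 | h1 | ⟨k', h1, h2, h7⟩
              · rw [h1]; exact har i
              · rw [h1]; exact htr
              · rw [← h7]; exact (hv.mem k' h1 h2).1
            rcases hj with hj | hj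
            · rw [hj] at h5 hwy
              have h7 : y' = W j := by
                rcases hanb j _ hyr h5 with h8 | h8
                · exact absurd (h8 ▸ hy') hq
                · exact h8
              have h8 : v k = W j := by
                rcases hanb j _ hvk.1 hwy with h9 | h9
                · exact absurd h9 (hqk k hk1 hk2)
                · exact h9
              rw [h7, h8]
            · by_cases hji : j = i
              · rw [hji] at hj
                rw [hj] at h5 hwy h6
                rcases (hmem y').1 hy' with h1 | h1 | ⟨k', h1, h2, h7⟩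
                · exfalso
                  rw [h1] at h5
                  rcases hanb i _ (hbr i) h5.symm with h8 | h8
                  · exact hbU i (h8 ▸ h.q_mem)
                  · exact hbU i (h8 ▸ h.W_mem i)
                · exfalso
                  rw [h1] at h5 h6
                  exact h6 (hbt i k hk1 hk2 hwy h5)
                · rw [← h7] at h5 ⊢
                  rcases lt_trichotomy k k' with h8 | h8 | h8
                  · exact (gad_bi hC hL h IH hs hv ht hk1 h8 h2 hwy h5).elim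
                  · rw [h8]
                  · exact (gad_bi hC hL h IH hs hv ht h1 h8 hk2 h5 hwy).elim
              · exfalso
                obtain ⟨h7, h8⟩ := hexit w (hj ▸ hbE j hji) hwt k hk1 hk2 hwy
                rw [hj] at h8
                refine hspt j h8 ?_
                rw [hj, h7] at hcy
                exact bool_eq_of_ne hct (fun h => hcy h.symm)
        · push Not at hsp
          have hwE : w ∈ Ex G c x l a b i := ⟨hwU, fun p => (hsp p).1, (hsp i).2⟩
          obtain ⟨h7, h8⟩ := hexit w hwE hwt k hk1 hk2 hwy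
          subst h7
          have hctw : c t = c w := bool_eq_of_ne hct (fun h => hcy h.symm)
          have hd3 : G.degree w = 3 := by
            rcases hG w with h1 | h1
            · exfalso
              have h3 := Star3.card_nb G w
              rw [h1, card_eq_one] at h3
              obtain ⟨y, hy⟩ := h3
              have h4 : t ∈ univ.filter fun u => G.Adj w u := by simp [h8.symm]
              have h5 : v k ∈ univ.filter fun u => G.Adj w u := by simp [hwy]
              rw [hy, mem_singleton] at h4 h5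
              exact ht.1 (by rw [h4, ← h5]; exact hvk)
            · exact h1
          refine ⟨hd3, fun w' hw' h5 h6 => ?_, fun y' hy' h5 h6 => ?_⟩
          · have h9 := st.own w hw
            rw [hd3] at h9
            have h10 : w' = t := by
              by_contra h11
              have h12 : ({w', t} : Finset V) ⊆ (rest x l).filter fun u => G.Adj w u ∧ c u = c w := by
                intro u hu
                simp only [mem_insert, mem_singleton] at hu
                rw [mem_filter]
                rcases hu with rfl | rfl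
                · exact ⟨hw', h5, h6⟩
                · exact ⟨htr, h8.symm, hctw⟩
              have h13 := card_le_card h12
              rw [card_pair h11] at h13
              omega
            rw [h10]
            exact (hmem t).2 (Or.inr (Or.inl rfl))
          · rcases (hmem y').1 hy' with h1 | h1 | ⟨k', h1, h2, h9⟩
            · exfalso
              rw [h1] at h5
              rcases hanb i w hw h5.symm with h10 | h10
              · exact hwU (h10 ▸ h.q_mem)
              · exact hwU (h10 ▸ h.W_mem i)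
            · rw [h1] at h6
              exact absurd hctw h6
            · rw [← h9] at h5 ⊢
              rw [(hexit w hwE hwt k' h1 h2 h5).1]) (by
    intro j hj _ hja hjb y hy hadj
    have hyr : y ∈ rest x l := by
      rcases (hmem y).1 hy with h1 | h1 | ⟨k', h1, h2, h7⟩
      · rw [h1]; exact har i
      · rw [h1]; exact htr
      · rw [← h7]; exact (hv.mem k' h1 h2).1
    split_ifs at hadj with hodd
    · -- `a j`
      have h1 : y = W j := by
        rcases hanb j y hyr hadj with h2 | h2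
        · exact absurd (h2 ▸ hy) hq
        · exact h2
      rcases (hmem y).1 hy with h2 | h2 | ⟨k, h2, h3, h4⟩
      · exact h.notU_a i (h2 ▸ h1 ▸ h.W_mem j)
      · exact ht.1 (h2 ▸ h1 ▸ h.W_mem j)
      · have h5 := gad_a hC hL h IH hs hv ht h2 h3 hj (h4 ▸ hadj.symm)
        exact hjb ((hmem _).2 (Or.inr (Or.inl h5.symm)))
    · rcases (hmem y).1 hy with h2 | h2 | ⟨k, h2, h3, h4⟩
      · rw [h2] at hadj
        rcases hanb i _ (hbr j) hadj.symm with h5 | h5
        · exact hbU j (h5 ▸ h.q_mem)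
        · exact hbU j (h5 ▸ h.W_mem i)
      · rw [h2] at hadj
        refine hspt j hadj.symm ?_
        have h5 := hsh.col_eq hU hr le_rfl
        rw [if_neg hodd, hv1, h.cW st i] at h5
        rw [h5] at hct
        rw [st.cb j (st.b_ne (h.ne j))]
        cases h6 : c t
        · rfl
        · exact absurd h6 hct
      · have h5 : b j ≠ t := fun h6 => hjb ((hmem _).2 (Or.inr (Or.inl h6)))
        obtain ⟨h6, h7⟩ := hexit (b j) (hbE j hj) h5 k h2 h3 (h4 ▸ hadj)
        refine hspt j h7 ?_
        have h8 : c (b j) ≠ c (v r) := by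
          rw [← h6]
          exact hU _ (hv.mem k h2 h3) _ (h4 ▸ hadj.symm)
        exact bool_eq_of_ne hct h8)
  exact hB d hd1 hd2

end

/-- there are no exit walks -/
theorem noW (hG : Deg13 G) (hB : NoBal3 G) (hC : C4Free G) (x : V) (l a b : Fin 3 → V) (q v2 : V)
    (W : Fin 3 → V) (r : ℕ) : NoW G x l a b q v2 W r := by
  induction r using Nat.strong_induction_on with
  | _ r IH => exact fun c hL h i v t hs hv ht => gad_path hG hB hC hL h IH hs hv ht

/-- **The gadget.** A least-energy star has no vertex `q` of `Uo` next to all `a p` such that the other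
rest-neighbours `W p` of the `a p` are in `Uo` and have a common neighbour `v2` in `Uo`. -/
theorem LS.gad (hG : Deg13 G) (hB : NoBal3 G) (hC : C4Free G) (hL : LS G c x l a b)
    (h : Gd8 G c x l a b q v2 W) : False := by
  have st := hL.star
  rcases exit_or_region (Uo G c x l a b) {t | t ∉ Uo G c x l a b ∧ ∀ p, t ≠ a p} h.v_mem with h1 | h1
  · obtain ⟨t, ⟨ht1, ht2⟩, v, m, h2, h3⟩ := h1
    obtain ⟨p, hp⟩ : ∃ p : Fin 3, t ≠ b p := by
      by_contra h4
      push Not at h4
      have h5 := st.b_inj 0 1 ((h4 0).symm.trans (h4 1)) (st.b_ne (h.ne 0))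
      exact absurd h5 (by decide)
    have h4 := h3.cons (h.W_mem p) (by rw [h2]; exact (h.vW p).symm)
    exact noW hG hB hC x l a b q v2 W _ c hL h p _ t (by simpa using h.aW p) h4 ⟨ht1, ht2, hp⟩
  · obtain ⟨D, h2, h3, h4⟩ := h1
    refine h.region st hC hB h2 h3 fun y hy w hw => ?_
    rcases h4 y hy w hw with h5 | ⟨h5, h6⟩
    · exact Or.inl h5
    · right
      by_contra h7
      push Not at h7
      exact h6 ⟨h5, h7⟩

/-- **The gadget**, for frames. -/
theorem Gad.false (hG : Deg13 G) (hB : NoBal3 G) (hC : C4Free G) (_h1 : CC G 1) {g : V → Bool}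
    (h : Fr G g x l a b) {u y : V} (gd : Gad G g x l a b u y W) : False := by
  have st := h.star
  have haU : ∀ p, a p ∉ Uo G g x l a b := fun p h1 => (h1.2.1 p).1 rfl
  have hai : Function.Injective a := fun i j hij => st.a_inj i j hij (gd.ha i)
  refine h.ls.gad hG hB hC (q := u) (v2 := y) (W := W)
    ⟨gd.ha, gd.hu, gd.ua, gd.hW, gd.aW, fun p h2 => ?_, gd.hy, gd.yW⟩
  have h3 : G.Adj u y := h2 ▸ (gd.yW p).symm
  obtain ⟨p', h4⟩ := three_nb gd.hu.2.2.1 hai gd.ua h3
  exact haU p' (h4 ▸ gd.hy)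

end Pool.Agent.BLN
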