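import Pool.Agent.BLN.Pth.PDefs
import Pool.Agent.BLN.Pth.LSH

/-!
# Two small solutions

`Star3.sol_legs` : a vertex `y` of `Uo` with two simple exits `t`, `t'` which are not adjacent, the third
neighbour being in `Uo`: the set `{t, y, t'}`.
`Star3.sol_ab` : adjacent specials `a j`, `b i` of different pairs, `a j` next to `Uo` and the other
neighbour of `b i` of degree three without own neighbours: the set `{a j, b i}`.
-/

set_option autoImplicit false
set_option linter.unusedSectionVars false

namespace Pool.Agent.BLN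

open Finset Pool.Agent.IVT

variable {V : Type} [Fintype V] [DecidableEq V]

namespace Star3

variable {G : SimpleGraph V} [DecidableRel G.Adj] {c : V → Bool} {x : V} {l a b : Fin 3 → V}
  (st : Star3 G c x l a b)
include st

/-- **Two legs.** -/
theorem sol_legs (hG : Deg13 G) (hC : C4Free G) {y z t t' : V} (hy : y ∈ Star3.Uo G c x l a b)
    (hN : Nb G y z t t') (hz : z ∈ Star3.Uo G c x l a b) (ht : t ∉ Star3.Uo G c x l a b)
    (ht' : t' ∉ Star3.Uo G c x l a b) (hs : Simple3 G c x l t) (hs' : Simple3 G c x l t')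
    (hna : ¬ G.Adj t t') : Sol3 G := by
  have n1 := st.Uo_nb hy hN.ay
  have n2 := st.Uo_nb hy hN.az
  have nz := st.Uo_nb hy hN.ax
  have htt : c t = c t' := bool_eq_of_ne n1.2 n2.2
  have hS : ({t, y, t'} : Finset V) ⊆ rest x l := by
    intro w hw
    simp only [mem_insert, mem_singleton] at hw
    rcases hw with rfl | rfl | rfl
    · exact n1.1
    · exact hy.1
    · exact n2.1
  have hyt : y ≠ t := hN.ay.ne
  have hyt' : y ≠ t' := hN.az.ne
  have mt : t ∈ ({t, y, t'} : Finset V) := by simp
  have my : y ∈ ({t, y, t'} : Finset V) := by simp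
  have mt' : t' ∈ ({t, y, t'} : Finset V) := by simp
  have hkk : kk c ({t, y, t'} : Finset V) = if c y = false then 1 else -1 := by
    rw [kk, sum_insert (by simp [hyt.symm, hN.yz]), sum_pair hyt']
    have h3 := n1.2
    have h4 := n2.2
    cases h5 : c y <;> cases h6 : c t <;> cases h7 : c t' <;> simp_all [sg]
  -- specials in the set
  have hsp : ∀ w ∈ ({t, y, t'} : Finset V), ∀ j, (w = a j ∨ w = b j) → c w ≠ c y := by
    intro w hw j hj
    simp only [mem_insert, mem_singleton] at hw
    rcases hw with rfl | rfl | rfl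
    · exact n1.2
    · exact absurd hy (special_not_Uo st hj)
    · exact n2.2
  have hval : Val c a b ({t, y, t'} : Finset V) (c y) := by
    cases hcy : c y
    · right
      have h1 : beta a b ({t, y, t'} : Finset V) = 0 := by
        rw [beta, card_eq_zero, filter_eq_empty_iff]
        rintro j _ ⟨_, h⟩
        have h2 := hsp _ h j (Or.inr rfl)
        rw [hcy, st.cb j fun h3 => st.x_notMem hS (h3 ▸ h)] at h2
        exact h2 rfl
      exact ⟨rfl, by omega, by rw [hkk, h1, if_pos hcy]; rfl⟩
    · left
      have h1 : alpha a b ({t, y, t'} : Finset V) = 0 := by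
        rw [alpha, card_eq_zero, filter_eq_empty_iff]
        rintro j _ ⟨h, _⟩
        have h2 := hsp _ h j (Or.inl rfl)
        rw [hcy, st.ca j fun h3 => st.x_notMem hS (h3 ▸ h)] at h2
        exact h2 rfl
      exact ⟨rfl, by omega, by rw [hkk, h1, if_neg (by rw [hcy]; decide)]; rfl⟩
  refine st.sol_of hS (c y) hval ?_ ?_ ?_ ?_ ?_
  · intro w hw
    simp only [mem_insert, mem_singleton] at hw
    rcases hw with rfl | rfl | rfl
    · refine st.leg_in hG n1.1 mt ht hy.1 my hN.ay.symm (fun h => n1.2 h.symm) fun u _ h2 h3 h4 => ?_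
      simp only [mem_insert, mem_singleton] at h4
      rcases h4 with rfl | rfl | rfl
      · exact G.irrefl h2
      · exact n1.2 h3.symm
      · exact hna h2
    · exact mid_in hy.2.2.1 my n1.1 mt n2.1 mt' hN.yz hN.ay hN.az n1.2 n2.2
    · refine st.leg_in hG n2.1 mt' ht' hy.1 my hN.az.symm (fun h => n2.2 h.symm) fun u _ h2 h3 h4 => ?_
      simp only [mem_insert, mem_singleton] at h4
      rcases h4 with rfl | rfl | rfl
      · exact hna h2.symm
      · exact n2.2 h3.symm
      · exact G.irrefl h2
  · -- at most one flipped neighbour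
    intro v hv hvS w hw w' hw' h1 h2 h3 h4
    have hvy : v ≠ y := fun h => hvS (h ▸ my)
    have key' : G.Adj v t → G.Adj v t' → False := by
      intro h5 h6
      rcases hC v t y t' h5 hN.ay.symm hN.az h6.symm with h7 | h7
      · exact absurd h7 hvy
      · exact absurd h7 hN.yz
    have hcc : c w = c w' := bool_eq_of_ne h3 h4
    simp only [mem_insert, mem_singleton] at hw hw'
    rcases hw with rfl | rfl | rfl <;> rcases hw' with rfl | rfl | rfl
    · rfl
    · exact absurd hcc n1.2
    · exact (key' h1 h2).elim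
    · exact absurd hcc.symm n1.2
    · rfl
    · exact absurd hcc.symm n2.2
    · exact (key' h2 h1).elim
    · exact absurd hcc n2.2
    · rfl
  · -- outside vertices with a flipped neighbour
    intro v hv hvS w hw h1 h2
    have hmain : G.degree v = 3 ∧ ownIn G c (rest x l) v = 0 := by
      simp only [mem_insert, mem_singleton] at hw
      rcases hw with rfl | rfl | rfl
      · exact hs v hv h1.symm fun h => h2 h.symm
      · rcases (hN.adj v).1 h1.symm with rfl | rfl | rfl
        · exact ⟨hz.2.2.1, hz.2.2.2⟩
        · exact absurd mt hvS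
        · exact absurd mt' hvS
      · exact hs' v hv h1.symm fun h => h2 h.symm
    exact ⟨hmain.1, fun w' hw' _ h => ownIn_zero.1 hmain.2 w' hw' h⟩
  · intro j hj ha hb
    have h1 := hsp _ ha j (Or.inl rfl)
    have h2 := hsp _ hb j (Or.inr rfl)
    have h3 := bool_eq_of_ne h1 h2
    rw [st.ca j hj, st.cb j (st.b_ne hj)] at h3
    exact absurd h3 (by decide)
  · intro j hj ha hb w hw h
    -- the exposed special has the colour of the exits
    have hmain : ∀ e, (e = a j ∨ e = b j) → e ∈ rest x l → e ∉ ({t, y, t'} : Finset V) → c e ≠ c y →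
        ¬ G.Adj e w := by
      intro e he heR heS hce h1
      simp only [mem_insert, mem_singleton] at hw
      rcases hw with rfl | rfl | rfl
      · exact st.sp_col heR he n1.1 h1 (bool_eq_of_ne n1.2 hce)
      · rcases (hN.adj e).1 h1.symm with rfl | rfl | rfl
        · exact st.special_not_Uo he hz
        · exact heS mt
        · exact heS mt'
      · exact st.sp_col heR he n2.1 h1 (bool_eq_of_ne n2.2 hce)
    cases hcy : c y
    · rw [hcy] at h
      simp only [Bool.false_eq_true, if_false] at h
      exact hmain _ (Or.inl rfl) (st.a_rest j hj) ha (by rw [st.ca j hj, hcy]; decide) h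
    · rw [hcy] at h
      simp only [if_true] at h
      exact hmain _ (Or.inr rfl) (st.b_rest j (st.b_ne hj)) hb
        (by rw [st.cb j (st.b_ne hj), hcy]; decide) h

/-- **Adjacent specials of different pairs.** -/
theorem sol_ab (hG : Deg13 G) {i j : Fin 3} (hij : i ≠ j) (hi : a i ≠ x) (hj : a j ≠ x)
    (hadj : G.Adj (a j) (b i)) {u z : V} (hu : u ∈ Star3.Uo G c x l a b) (hau : G.Adj (a j) u)
    (hz : z ∈ rest x l) (hbz : G.Adj (b i) z) (hza : z ≠ a j) (hzd : G.degree z = 3)
    (hzo : ownIn G c (rest x l) z = 0) : Sol3 G := by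
  have haR := st.a_rest j hj
  have hbR := st.b_rest i (st.b_ne hi)
  have hca := st.ca j hj
  have hcb := st.cb i (st.b_ne hi)
  have hab : a j ≠ b i := hadj.ne
  have hub : u ≠ b i := (hu.2.1 i).2
  have hS : ({a j, b i} : Finset V) ⊆ rest x l := by
    intro w hw
    simp only [mem_insert, mem_singleton] at hw
    rcases hw with rfl | rfl
    · exact haR
    · exact hbR
  have ma : a j ∈ ({a j, b i} : Finset V) := by simp
  have mb : b i ∈ ({a j, b i} : Finset V) := by simp
  have hbj : b j ∉ ({a j, b i} : Finset V) := by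
    intro h
    simp only [mem_insert, mem_singleton] at h
    rcases h with h | h
    · exact st.a_ne_b' j hj j h.symm
    · exact hij (st.b_inj j i h (st.b_ne hj)).symm
  have haS : ∀ p, a p ∈ ({a j, b i} : Finset V) → p = j := by
    intro p h
    have hp : a p ≠ x := fun h1 => st.x_notMem hS (h1 ▸ h)
    simp only [mem_insert, mem_singleton] at h
    rcases h with h | h
    · exact st.a_inj p j h hp
    · exact absurd h (st.a_ne_b' p hp i)
  have hkk : kk c ({a j, b i} : Finset V) = 0 := by
    rw [kk, sum_pair hab, hca, hcb]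
    simp [sg]
  refine st.sol_of hS true (val_true ma hbj haS hkk) ?_ ?_ ?_ ?_ ?_
  · intro w hw
    simp only [mem_insert, mem_singleton] at hw
    rcases hw with rfl | rfl
    · exact st.cost_lt_of_one haR (Or.inl rfl) hbR hadj
        (flips_ne_of ⟨fun _ => mb, fun _ => ma⟩ (by rw [hca, hcb]; decide))
    · exact st.cost_lt_of_one hbR (Or.inr rfl) haR hadj.symm
        (flips_ne_of ⟨fun _ => ma, fun _ => mb⟩ (by rw [hca, hcb]; decide))
  · intro v hv hvS w hw w' hw' h1 h2 h3 h4
    have hcc : c w = c w' := bool_eq_of_ne h3 h4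
    simp only [mem_insert, mem_singleton] at hw hw'
    rcases hw with rfl | rfl <;> rcases hw' with rfl | rfl
    · rfl
    · rw [hca, hcb] at hcc
      exact absurd hcc (by decide)
    · rw [hca, hcb] at hcc
      exact absurd hcc (by decide)
    · rfl
  · intro v hv hvS w hw h1 h2
    have hmain : G.degree v = 3 ∧ ownIn G c (rest x l) v = 0 := by
      simp only [mem_insert, mem_singleton] at hw
      rcases hw with rfl | rfl
      · rcases st.sp_two haR (Or.inl rfl) hu.1 hbR hub hau hadj hv h1.symm with rfl | rfl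
        · exact ⟨hu.2.2.1, hu.2.2.2⟩
        · exact absurd mb hvS
      · rcases st.sp_two hbR (Or.inr rfl) hz haR hza hbz hadj.symm hv h1.symm with rfl | rfl
        · exact ⟨hzd, hzo⟩
        · exact absurd ma hvS
    exact ⟨hmain.1, fun w' hw' _ h => ownIn_zero.1 hmain.2 w' hw' h⟩
  · intro p hp h1
    rw [haS p h1]
    exact hbj
  · intro p hp h1 h2 w hw h
    simp only [if_true] at h
    have hpR := st.b_rest p (st.b_ne hp)
    simp only [mem_insert, mem_singleton] at hw
    rcases hw with rfl | rfl
    · rcases st.sp_two haR (Or.inl rfl) hu.1 hbR hub hau hadj hpR h.symm with h3 | h3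
      · exact (hu.2.1 p).2 h3.symm
      · exact h2 (h3 ▸ mb)
    · have h3 := st.sp_col hpR (Or.inr rfl) hbR h
      rw [hcb, st.cb p (st.b_ne hp)] at h3
      exact h3 rfl

/-- **Adjacent specials of different pairs**, with the colours exchanged. -/
theorem sol_ab' (hG : Deg13 G) {i j : Fin 3} (hij : i ≠ j) (hi : a i ≠ x) (hj : a j ≠ x)
    (hadj : G.Adj (b j) (a i)) {u z : V} (hu : u ∈ Star3.Uo G c x l a b) (hbu : G.Adj (b j) u)
    (hz : z ∈ rest x l) (haz : G.Adj (a i) z) (hzb : z ≠ b j) (hzd : G.degree z = 3)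
    (hzo : ownIn G c (rest x l) z = 0) : Sol3 G :=
  st.neg.sol_ab hG hij (st.b_ne hi) (st.b_ne hj) hadj (by rw [Uo_neg]; exact hu) hbu hz haz hzb hzd
    (by rw [ownIn_neg]; exact hzo)

end Star3

end Pool.Agent.BLN
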