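import Pool.Agent.BLN.Pth.D1
import Pool.Agent.BLN.Pth.Gadget
import Pool.Agent.BLN.Pth.Legs
import Pool.Agent.BLN.UUof
import Pool.Agent.BLE.Top13

/-!
# No exit paths, and the path lemma

`cc_all` : no frame has an exit path (`CC G m` for all `m`), by strong induction on `m`: exits are simple
(neutral flip), two legs of the last vertex are adjacent, the flip of the whole path is a solution unless
`a i` and the exit have a common neighbour; then the star moves (`Fr.d1_short`) or there is the gadget.
`liveAll` : in the class `Cls13` no start special is next to a live vertex.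
-/

set_option autoImplicit false
set_option linter.unusedSectionVars false

namespace Pool.Agent.BLN

open Finset Pool.Agent.IVT Pool.BLE Star3

variable {V : Type} [Fintype V] [DecidableEq V]
variable {G : SimpleGraph V} [DecidableRel G.Adj] {g : V → Bool} {x : V} {l a b : Fin 3 → V}

theorem AlP_du (g : V → Bool) (x : V) (l a b : Fin 3 → V) (i : Fin 3) :
    AlP G (du g x l) x l b a i = AlP G g x l a b i := by
  funext s t
  exact propext (and_congr isStart_du isExit_du)

/-- a start has a second rest-neighbour -/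
theorem Fr.other (h : Fr G g x l a b) {i : Fin 3} (hi : a i ≠ x) {u : V} (hu : u ∈ rest x l)
    (hau : G.Adj (a i) u) : ∃ q ∈ rest x l, q ≠ u ∧ G.Adj (a i) q := by
  have h1 := h.star.deg_special (h.star.a_mem hi) (Or.inl rfl)
  have h2 : u ∈ (rest x l).filter fun w => G.Adj (a i) w := by simp [hu, hau]
  have h3 : 0 < (((rest x l).filter fun w => G.Adj (a i) w).erase u).card := by
    rw [card_erase_of_mem h2, h1]
    norm_num
  obtain ⟨q, hq⟩ := card_pos.1 h3
  rw [mem_erase, mem_filter] at hq
  exact ⟨q, hq.2.1, hq.1, hq.2.2⟩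

/-- the case `m = 1`: the live vertex would be a centre -/
theorem cc_one (hG : Deg13 G) (hB : NoBal3 G) (hC : C4Free G) : CC G 1 := by
  have H : ∀ (g : V → Bool) (x : V) (l a b : Fin 3 → V), Fr G g x l a b →
    ∀ (i : Fin 3) (v : ℕ → V) (t : V), IsStart G g x l a b i (a i) → IsExit G g x l a b i t →
      G.Adj (a i) (v 1) → UTail G (Live G g x l a b) v 1 t → False := by
    intro g x l a b h i v t hs ht hadj htail
    have hv := htail.mem 1 le_rfl le_rfl
    obtain ⟨q, hqR, hqv, haq⟩ := h.other hs.1 hv.1.1 hadj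
    have hq : q ∈ Uo G g x l a b ∨ q = b i := by
      rcases hs.2.2 q hqR haq with h1 | h1 | h1
      · exact Or.inl h1
      · exact absurd (h1 ▸ haq) (G.irrefl)
      · exact Or.inr h1
    have hcen := h.ls.m1_core hG hB hC hs.1 hv.1 hq hqv.symm hadj haq htail.exit ht.2.2.1 ht.2.1
    obtain ⟨z, hz, hvz⟩ := hv.2
    rcases hcen.leaf hvz with h1 | ⟨m, t', hnb, hm, -⟩
    · have := hz.2.2.1
      omega
    · have h2 := hcen.nbr hvz
      have h3 := h.star.Uo_nb hz hnb.ay
      rw [h.ls.g_rest h3.1] at hm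
      rw [h.ls.g_rest hz.1] at h2
      exact h3.2 (by rw [hm, h2])
  intro g x l a b h i s v t hs ht hadj htail
  rcases hs.2.1 with h1 | h1
  · subst h1
    exact H g x l a b h i v t hs ht hadj htail
  · subst h1
    exact H (du g x l) x l b a h.dual i v t (isStart_du.2 hs) (isExit_du.2 ht) hadj
      (by rw [Live_du]; exact htail)

/-- two legs of the last vertex are adjacent -/
theorem Fr.legs (hG : Deg13 G) (hB : NoBal3 G) (hC : C4Free G) (h : Fr G g x l a b) {i : Fin 3}
    {v : ℕ → V} {m : ℕ} {t : V} (hm : 2 ≤ m) (hIH : CC G (m - 1))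
    (sh : Short G (Live G g x l a b) (AlP G g x l a b i) (a i) v m t) (w : V) (hw : G.Adj (v m) w)
    (hwe : IsExit G g x l a b i w) : w = t ∨ G.Adj t w := by
  by_contra hcon
  push Not at hcon
  have hs := h.simple_exit hG hB hC hm hIH sh
  have hs' := h.simple_exit hG hB hC hm hIH (sh.change_exit ⟨sh.al.1, hwe⟩ hw)
  have hv := (sh.mem sh.pos le_rfl).1
  have hv' := (sh.mem (show 1 ≤ m - 1 by omega) (by omega)).1
  have hadj : G.Adj (v m) (v (m - 1)) := by
    have := sh.adj (show 1 ≤ m - 1 by omega) (by omega)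
    rw [show m - 1 + 1 = m by omega] at this
    exact this.symm
  have hN := nb_of_three3 G hv.2.2.1 hadj sh.exit hw (fun h1 => sh.al.2.2.1 (h1 ▸ hv'))
    (fun h1 => hwe.2.1 (h1 ▸ hv')) hcon.1.symm
  obtain ⟨d, hd, hd'⟩ := h.star.sol_legs hG hC hv hN hv' sh.al.2.2.1 hwe.2.1 hs hs' hcon.2
  exact hB d hd hd'

/-- the step of the induction, for a shortest path from `a i` -/
theorem cc_core (hG : Deg13 G) (hB : NoBal3 G) (hC : C4Free G) {m : ℕ} (hm : 2 ≤ m)
    (IH : ∀ k, 1 ≤ k → k < m → CC G k) (h : Fr G g x l a b) {i : Fin 3} {v : ℕ → V} {t : V}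
    (sh : Short G (Live G g x l a b) (AlP G g x l a b i) (a i) v m t) : False := by
  have st := h.star
  obtain ⟨hst, hex⟩ := sh.al
  have hai : a i ≠ x := hst.1
  have hIH := IH (m - 1) (by omega) (by omega)
  have hsimp := h.simple_exit hG hB hC hm hIH sh
  have pf := PF.of_short hG hB hC h sh (h.legs hG hB hC hm hIH sh)
  have hno : ¬ Sol3 G := fun ⟨d, hd, hd'⟩ => hB d hd hd'
  have hmb : ∀ k, 1 ≤ k → k ≤ m → v k ∈ base (a i) v m := fun k h1 h2 => mem_base.2 (Or.inr ⟨k, h1, h2, rfl⟩)
  by_cases hD : ∃ y ∈ rest x l, y ∉ base (a i) v m ∧ G.Adj y t ∧ g y ≠ g t ∧ G.Adj y (a i)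
  swap
  · push Not at hD
    exact hno (pf.sol st hG hsimp fun y h1 h2 h3 h4 h5 => hD y h1 h2 h3 h4 h5)
  obtain ⟨q, hqR, hqb, hqt, hcq, hqa⟩ := hD
  have hvm := (sh.mem sh.pos le_rfl).1
  rcases hst.2.2 q hqR hqa.symm with hqU | h1 | h1
  · -- the other neighbour `q` of `a i` is in `Uo` and adjacent to the exit
    have hca := st.ca' hai
    have hcq0 : g q = false := by
      have h1 := st.Uo_col hqU _ hqa
      rw [hca] at h1
      cases h2 : g q
      · rfl
      · exact absurd h2.symm h1
    have hct1 : g t = true := by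
      rw [hcq0] at hcq
      cases h2 : g t
      · exact absurd h2.symm hcq
      · rfl
    have hodd : m % 2 = 1 := by
      have h1 := pf.col_t st
      rw [hct1] at h1
      exact of_decide_eq_true h1.symm
    obtain ⟨y, W, gd⟩ := h.d1_short hG hB hC sh (by omega) (IH (m - 2) (by omega) (by omega)) hqU hqa.symm
      (fun h1 => hqb (h1 ▸ hmb 1 le_rfl (by omega))) hqt
    exact Gad.false hG hB hC (cc_one hG hB hC) h gd
  · exact hqb (mem_base.2 (Or.inl h1))
  · -- the other neighbour of `a i` is `b i`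
    subst h1
    have h2 := h.ls.h1t hG hB hC hai hqa.symm (Or.inr rfl) hex.1 hqt
    have h3 : ∃ j, t = a j ∨ t = b j := by
      by_contra h4
      push Not at h4
      exact hex.2.1 ⟨hex.1, h4, h2.2, h2.1⟩
    obtain ⟨j, hj⟩ := h3
    have hjx := st.ne_x_of_special (mem_rest.1 hex.1).1 hj
    have hij : i ≠ j := by
      rintro rfl
      rcases hj with hj | hj
      · exact hex.2.2.1 hj
      · exact hex.2.2.2 hj
    have hta : t = a j := by
      rcases hj with hj | hj
      · exact hj
      · rw [hj, st.cb' hjx, st.cb' hai] at hcq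
        exact absurd rfl hcq
    subst hta
    exact hno (st.sol_ab hG hij hai hjx hqt.symm hvm sh.exit.symm (st.a_mem hai) hqa
      (fun h4 => hij (st.a_inj i j h4 hai)) (st.deg_a i hai) (st.ownIn_special (st.a_mem hai) (Or.inl rfl)))

/-- **No frame has an exit path.** -/
theorem cc_all (hG : Deg13 G) (hB : NoBal3 G) (hC : C4Free G) (m : ℕ) (hm : 1 ≤ m) : CC G m := by
  induction m using Nat.strong_induction_on with
  | _ m IH =>
    by_cases h1 : m = 1
    · subst h1
      exact cc_one hG hB hC
    intro g x l a b h i s v t hs ht hadj htail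
    obtain ⟨s', t', v', m', hm', sh⟩ := exists_short (Al := AlP G g x l a b i) ⟨hs, ht⟩ hadj htail
    by_cases h2 : m' < m
    · exact IH m' h2 sh.pos g x l a b h i s' v' t' sh.al.1 sh.al.2 sh.start sh.tail
    have h3 : m' = m := by omega
    subst h3
    have hIH : ∀ k, 1 ≤ k → k < m' → CC G k := fun k h4 h5 => IH k h5 h4
    rcases sh.al.1.2.1 with h4 | h4
    · subst h4
      exact cc_core hG hB hC (by omega) hIH h sh
    · subst h4
      refine cc_core hG hB hC (by omega) hIH h.dual (i := i) (v := v') (t := t') ?_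
      rw [Live_du, AlP_du]
      exact sh

/-- the region step for a special `a i` -/
theorem Fr.live_a (hcls : Cls13 G) (hB : NoBal3 G) (h : Fr G g x l a b) {i : Fin 3} {u w : V}
    (hs : IsStart G g x l a b i (a i)) (hu : u ∈ Uo G g x l a b) (hsu : G.Adj (a i) u)
    (hw : w ∈ Uo G g x l a b) (huw : G.Adj u w) : False := by
  have st := h.star
  have hG := hcls.deg
  have hai : a i ≠ x := hs.1
  have huL : u ∈ Live G g x l a b := ⟨hu, w, hw, huw⟩
  rcases exit_or_region (G := G) (Live G g x l a b) {t | IsExit G g x l a b i t} huL with h1 | h1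
  · obtain ⟨t, ht, v, m, hv, htail⟩ := h1
    exact cc_all hG hB hcls.c4 m htail.pos g x l a b h i (a i) v t hs ht (hv ▸ hsu) htail
  · obtain ⟨D, huD, hD, hcl⟩ := h1
    have hDU : ∀ y ∈ D, y ∈ Uo G g x l a b := fun y hy => (hD y hy).1
    have hcl' : ∀ y ∈ D, ∀ w, G.Adj y w → w ∈ D ∨ w = a i ∨ w = b i := by
      intro y hy z hyz
      rcases hcl y hy z hyz with h2 | ⟨h2, h3⟩
      · exact Or.inl h2
      right
      by_contra h4
      push Not at h4
      refine h3 ⟨(st.Uo_nb (hDU y hy) hyz).1, fun h5 => h2 ⟨h5, y, hDU y hy, hyz.symm⟩, h4⟩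
    have hoth : ∀ z ∈ rest x l, G.Adj (a i) z → z ∉ D → G.degree z = 3 ∧ ownIn G g (rest x l) z = 0 := by
      intro z hz haz _
      rcases hs.2.2 z hz haz with h2 | h2 | h2
      · exact ⟨h2.2.2.1, h2.2.2.2⟩
      · exact absurd (h2 ▸ haz) G.irrefl
      · rw [h2]
        exact ⟨st.deg_b i (st.b_ne hai), st.ownIn_special (st.b_mem hai) (Or.inr rfl)⟩
    rcases st.region hai hDU hcl' huD hsu.symm hoth with h2 | h2
    · obtain ⟨d, hd, hd'⟩ := h2
      exact hB d hd hd'
    · have hlx := st.l_ne_x
      obtain ⟨j, hj⟩ : ∃ j : Fin 3, j ≠ i := by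
        by_cases h3 : i = 0
        · exact ⟨1, by rw [h3]; decide⟩
        · exact ⟨0, fun h4 => h3 h4.symm⟩
      have haR := st.a_mem hai
      have hbR := st.b_mem hai
      refine hcls.cut_false h2 ?_ (u := x) (v := l j) ?_ ?_ (hlx j).symm
      · have h3 : ({l i, a i} : Finset V) ⊆ insert (l i) (insert (a i) (insert (b i) D)) := by
          intro z hz
          rw [mem_insert, mem_singleton] at hz
          rcases hz with rfl | rfl
          · exact mem_insert_self _ _
          · exact mem_insert_of_mem (mem_insert_self _ _)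
        have h4 := card_le_card h3
        rwa [card_pair (fun h5 => (mem_rest.1 haR).2 i h5.symm)] at h4
      · simp only [mem_insert, not_or]
        exact ⟨(hlx i).symm, fun h3 => hai h3.symm, fun h3 => (mem_rest.1 hbR).1 h3.symm,
          fun h3 => (mem_rest.1 (hDU _ h3).1).1 rfl⟩
      · simp only [mem_insert, not_or]
        exact ⟨fun h3 => hj (st.l_inj h3), fun h3 => (mem_rest.1 haR).2 j h3.symm,
          fun h3 => (mem_rest.1 hbR).2 j h3.symm, fun h3 => (mem_rest.1 (hDU _ h3).1).2 j rfl⟩

/-- **The path lemma.** -/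
theorem liveAll (hcls : Cls13 G) (hB : NoBal3 G) : LiveAll G := by
  intro g x l a b h i s u w hs hu hsu hw huw
  rcases hs.2.1 with h1 | h1
  · subst h1
    exact h.live_a hcls hB hs hu hsu hw huw
  · subst h1
    exact h.dual.live_a hcls hB (isStart_du.2 hs) (by rw [Uo_du]; exact hu) hsu (by rw [Uo_du]; exact hw) huw

end Pool.Agent.BLN
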