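import Pool.Agent.BLN.Pth.Sol

/-!
# The exit path

`PF st i v m t` : the facts about a shortest exit path `a i, v 1, …, v m, t` used for solutions; `base` is
its vertex set without the exit `t`. `PF.sol` : a simple exit and no common neighbour of `a i` and `t`
outside the path: the flip of the whole path is a solution.
-/

set_option autoImplicit false
set_option linter.unusedSectionVars false

namespace Pool.Agent.BLN

open Finset Pool.Agent.IVT

variable {V : Type} [Fintype V] [DecidableEq V]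

/-- start and interior of a path -/
def base (s : V) (v : ℕ → V) (m : ℕ) : Finset V := insert s ((Icc 1 m).image v)

theorem mem_base {s : V} {v : ℕ → V} {m : ℕ} {y : V} :
    y ∈ base s v m ↔ y = s ∨ ∃ k, 1 ≤ k ∧ k ≤ m ∧ y = v k := by
  simp only [base, mem_insert, mem_image, mem_Icc]
  constructor
  · rintro (h | ⟨k, h1, h2⟩)
    · exact Or.inl h
    · exact Or.inr ⟨k, h1.1, h1.2, h2.symm⟩
  · rintro (h | ⟨k, h1, h2, h3⟩)
    · exact Or.inl h
    · exact Or.inr ⟨k, ⟨h1, h2⟩, h3.symm⟩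

/-- facts about an exit path starting at `a i` -/
structure PF (G : SimpleGraph V) [DecidableRel G.Adj] (c : V → Bool) (x : V) (l a b : Fin 3 → V) (i : Fin 3)
    (v : ℕ → V) (m : ℕ) (t : V) : Prop where
  hi : a i ≠ x
  pos : 1 ≤ m
  mem : ∀ k, 1 ≤ k → k ≤ m → v k ∈ Star3.Uo G c x l a b
  adj : ∀ k, 1 ≤ k → k < m → G.Adj (v k) (v (k + 1))
  start : G.Adj (a i) (v 1)
  inj : ∀ j k, 1 ≤ j → j ≤ m → 1 ≤ k → k ≤ m → v j = v k → j = k
  exit : G.Adj (v m) t
  tR : t ∈ rest x l
  tU : t ∉ Star3.Uo G c x l a b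
  ta : t ≠ a i
  tb : t ≠ b i
  one : ∀ y ∈ rest x l, y ∉ base (a i) v m → ∀ s ∈ base (a i) v m, ∀ s' ∈ base (a i) v m, G.Adj y s →
    G.Adj y s' → s = s'
  nbv : ∀ k, 1 ≤ k → k ≤ m → ∀ w, G.Adj (v k) w → w ∉ base (a i) v m → w ∈ Star3.Uo G c x l a b ∨ w = b i ∨
    w = t ∨ (∃ j, (t = a j ∧ w = b j) ∨ (t = b j ∧ w = a j)) ∨ (k = m ∧ G.Adj t w ∧ c w = c t)
  nba : ∀ w ∈ rest x l, G.Adj (a i) w → w ∉ base (a i) v m → w ∈ Star3.Uo G c x l a b ∨ w = b i
  out : ∀ y ∈ rest x l, y ∉ base (a i) v m → G.Adj y t → c y ≠ c t → ∀ k, 1 ≤ k → k ≤ m → ¬ G.Adj y (v k)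

theorem sum_alt (m : ℕ) : ∑ k ∈ Icc 1 m, sg (decide (k % 2 = 0)) = if m % 2 = 1 then -1 else 0 := by
  induction m with
  | zero => simp
  | succ m ih =>
    rw [sum_Icc_succ_top (by omega), ih]
    rcases Nat.mod_two_eq_zero_or_one m with h | h
    · have h1 : (m + 1) % 2 = 1 := by omega
      simp [h, h1, sg]
    · have h1 : (m + 1) % 2 = 0 := by omega
      simp [h, h1, sg]

section Val

variable {G : SimpleGraph V} [DecidableRel G.Adj] {c : V → Bool} {x : V} {l a b : Fin 3 → V}

theorem val_true {S : Finset V} {i : Fin 3} (ha : a i ∈ S) (hb : b i ∉ S) (hu : ∀ j, a j ∈ S → j = i)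
    (hk : kk c S = 0) : Val c a b S true := by
  have h1 : alpha a b S = 1 := by
    unfold alpha
    rw [card_eq_one]
    refine ⟨i, ?_⟩
    ext j
    simp only [mem_filter, mem_univ, true_and, mem_singleton]
    constructor
    · rintro ⟨h, _⟩
      exact hu j h
    · rintro rfl
      exact ⟨ha, hb⟩
  exact Or.inl ⟨rfl, h1.le, by rw [hk, h1]; rfl⟩

theorem val_false {S : Finset V} (hb : ∀ j, b j ∉ S) (hk : kk c S = 1) : Val c a b S false := by
  have h1 : beta a b S = 0 := by
    unfold beta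
    rw [card_eq_zero, filter_eq_empty_iff]
    rintro j _ ⟨_, h⟩
    exact hb j h
  exact Or.inr ⟨rfl, by omega, by rw [hk, h1]; rfl⟩

end Val

namespace PF

variable {G : SimpleGraph V} [DecidableRel G.Adj] {c : V → Bool} {x : V} {l a b : Fin 3 → V} {i : Fin 3}
  {v : ℕ → V} {m : ℕ} {t : V} (st : Star3 G c x l a b) (pf : PF G c x l a b i v m t)
include st pf

theorem col {k : ℕ} (h1 : 1 ≤ k) (h2 : k ≤ m) : c (v k) = decide (k % 2 = 0) := by
  induction k with
  | zero => omega
  | succ k ih =>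
    by_cases hk : k = 0
    · subst hk
      have h3 := st.Uo_col (pf.mem 1 le_rfl pf.pos) _ pf.start.symm
      rw [st.ca' pf.hi] at h3
      cases h4 : c (v (0 + 1))
      · rfl
      · exact absurd h4.symm h3
    · have h3 := ih (by omega) (by omega)
      have h4 := st.Uo_col (pf.mem k (by omega) (by omega)) _ (pf.adj k (by omega) (by omega))
      rw [h3] at h4
      rcases Nat.mod_two_eq_zero_or_one k with h5 | h5
      · have h6 : (k + 1) % 2 = 1 := by omega
        simp only [h5, h6, decide_true] at h4 ⊢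
        simpa using h4
      · have h6 : (k + 1) % 2 = 0 := by omega
        simp only [h5, h6, decide_true] at h4 ⊢
        simpa using h4

theorem col_t : c t = decide (m % 2 = 1) := by
  have h3 := st.Uo_col (pf.mem m pf.pos le_rfl) _ pf.exit
  rw [pf.col st pf.pos le_rfl] at h3
  rcases Nat.mod_two_eq_zero_or_one m with h5 | h5
  · rw [h5] at h3 ⊢
    simpa using h3
  · rw [h5] at h3 ⊢
    simpa using h3

theorem rest_v {k : ℕ} (h1 : 1 ≤ k) (h2 : k ≤ m) : v k ∈ rest x l := (pf.mem k h1 h2).1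

theorem a_not : a i ∉ Star3.Uo G c x l a b := Star3.special_not_Uo st (Or.inl rfl)

theorem a_ne_v {k : ℕ} (h1 : 1 ≤ k) (h2 : k ≤ m) : a i ≠ v k := fun h => pf.a_not st (h ▸ pf.mem k h1 h2)

theorem t_ne_v {k : ℕ} (h1 : 1 ≤ k) (h2 : k ≤ m) : t ≠ v k := fun h => pf.tU (h ▸ pf.mem k h1 h2)

theorem t_not_base : t ∉ base (a i) v m := by
  rw [mem_base]
  rintro (h | ⟨k, h1, h2, h3⟩)
  · exact pf.ta h
  · exact pf.t_ne_v st h1 h2 h3

theorem base_sub : base (a i) v m ⊆ rest x l := by
  intro y hy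
  rw [mem_base] at hy
  rcases hy with rfl | ⟨k, h1, h2, rfl⟩
  · exact st.a_mem pf.hi
  · exact pf.rest_v st h1 h2

theorem kk_base : kk c (base (a i) v m) = if m % 2 = 1 then 0 else 1 := by
  unfold base
  have h1 : a i ∉ (Icc 1 m).image v := by
    intro h
    rw [mem_image] at h
    obtain ⟨k, hk, h2⟩ := h
    rw [mem_Icc] at hk
    exact pf.a_ne_v st hk.1 hk.2 h2.symm
  rw [kk, sum_insert h1, sum_image]
  · have h2 : ∑ k ∈ Icc 1 m, sg (c (v k)) = ∑ k ∈ Icc 1 m, sg (decide (k % 2 = 0)) := by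
      refine sum_congr rfl fun k hk => ?_
      rw [mem_Icc] at hk
      rw [pf.col st hk.1 hk.2]
    rw [h2, sum_alt, st.ca' pf.hi]
    rcases Nat.mod_two_eq_zero_or_one m with h5 | h5 <;> simp [h5, sg]
  · intro j hj k hk h
    rw [mem_coe, mem_Icc] at hj hk
    exact pf.inj j k hj.1 hj.2 hk.1 hk.2 h

theorem kk_t : kk c (insert t (base (a i) v m)) = if m % 2 = 1 then 1 else 0 := by
  rw [kk, sum_insert (pf.t_not_base st)]
  have h := pf.kk_base st
  unfold kk at h
  rw [h, pf.col_t st]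
  rcases Nat.mod_two_eq_zero_or_one m with h5 | h5 <;> simp [h5, sg]

/-- specials in the base -/
theorem sp_base {j : Fin 3} {s : V} (hs : s = a j ∨ s = b j) (h : s ∈ base (a i) v m) : s = a i := by
  rw [mem_base] at h
  rcases h with h | ⟨k, h1, h2, h3⟩
  · exact h
  · exact absurd (h3 ▸ pf.mem k h1 h2) (Star3.special_not_Uo st hs)

/-- the costs of the flipped base vertices -/
theorem in_base {S : Finset V} (hS : insert t (base (a i) v m) ⊆ S) {y : V} (hy : y ∈ base (a i) v m) :
    2 * cost G c x l S y < G.degree y := by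
  have hb : ∀ z, z ∈ base (a i) v m → z ∈ S := fun z hz => hS (mem_insert_of_mem hz)
  rw [mem_base] at hy
  rcases hy with rfl | ⟨k, h1, h2, rfl⟩
  · refine st.cost_lt_of_one (st.a_mem pf.hi) (Or.inl rfl) (pf.rest_v st le_rfl pf.pos) pf.start
      (flips_ne_of ⟨fun _ => hb _ (mem_base.2 (Or.inr ⟨1, le_rfl, pf.pos, rfl⟩)),
        fun _ => hb _ (mem_base.2 (Or.inl rfl))⟩ ?_)
    exact fun h => st.Uo_col (pf.mem 1 le_rfl pf.pos) _ pf.start.symm h.symm
  · have hU := pf.mem k h1 h2
    have hvS : v k ∈ S := hb _ (mem_base.2 (Or.inr ⟨k, h1, h2, rfl⟩))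
    -- the vertex before
    obtain ⟨y, hyR, hyS, hya, hy1⟩ : ∃ y, y ∈ rest x l ∧ y ∈ S ∧ G.Adj (v k) y ∧
        (y = a i ∨ ∃ j, 1 ≤ j ∧ j < k ∧ y = v j) := by
      by_cases hk : k = 1
      · subst hk
        exact ⟨a i, st.a_mem pf.hi, hb _ (mem_base.2 (Or.inl rfl)), pf.start.symm, Or.inl rfl⟩
      · have h3 := pf.adj (k - 1) (by omega) (by omega)
        rw [show k - 1 + 1 = k by omega] at h3
        exact ⟨v (k - 1), pf.rest_v st (by omega) (by omega), hb _ (mem_base.2 (Or.inr ⟨k - 1, by omega, by omega, rfl⟩)),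
          h3.symm, Or.inr ⟨k - 1, by omega, by omega, rfl⟩⟩
    -- the vertex after
    obtain ⟨z, hzR, hzS, hza, hz1⟩ : ∃ z, z ∈ rest x l ∧ z ∈ S ∧ G.Adj (v k) z ∧
        (z = t ∨ ∃ j, k < j ∧ j ≤ m ∧ z = v j) := by
      by_cases hk : k = m
      · subst hk
        exact ⟨t, pf.tR, hS (mem_insert_self _ _), pf.exit, Or.inl rfl⟩
      · exact ⟨v (k + 1), pf.rest_v st (by omega) (by omega), hb _ (mem_base.2 (Or.inr ⟨k + 1, by omega, by omega, rfl⟩)),
          pf.adj k h1 (by omega), Or.inr ⟨k + 1, by omega, by omega, rfl⟩⟩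
    refine Star3.mid_in hU.2.2.1 hvS hyR hyS hzR hzS ?_ hya hza (st.Uo_col hU _ hya) (st.Uo_col hU _ hza)
    rintro rfl
    rcases hy1 with h3 | ⟨j, h3, h4, h5⟩
    · rcases hz1 with h6 | ⟨j', h6, h7, h8⟩
      · exact pf.ta (h6.symm.trans h3)
      · exact pf.a_ne_v st (by omega) h7 (h3.symm.trans h8)
    · rcases hz1 with h6 | ⟨j', h6, h7, h8⟩
      · exact pf.t_ne_v st h3 (by omega) (h6.symm.trans h5)
      · have := pf.inj j j' h3 (by omega) (by omega) h7 (h5.symm.trans h8)
        omega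

theorem in_t (hG : Deg13 G) {S : Finset V} (hS : insert t (base (a i) v m) ⊆ S)
    (hm : ∀ w ∈ rest x l, G.Adj t w → c w = c t → w ∉ S) : 2 * cost G c x l S t < G.degree t :=
  st.leg_in hG pf.tR (hS (mem_insert_self _ _)) pf.tU (pf.rest_v st pf.pos le_rfl)
    (hS (mem_insert_of_mem (mem_base.2 (Or.inr ⟨m, pf.pos, le_rfl, rfl⟩)))) pf.exit.symm
    (fun h => st.Uo_col (pf.mem m pf.pos le_rfl) _ pf.exit h.symm) hm

/-- mates of the exit are not in the base -/
theorem mate_not {w : V} (hw : w ∈ rest x l) (h : G.Adj t w) (hc : c w = c t) : w ∉ base (a i) v m := by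
  rw [mem_base]
  rintro (h1 | ⟨k, h1, h2, h3⟩)
  · exact st.sp_col hw (Or.inl h1) pf.tR h.symm hc.symm
  · subst h3
    exact st.Uo_col (pf.mem k h1 h2) _ h.symm hc.symm

/-- the touched outer neighbours of the base -/
theorem own_base (hG : Deg13 G) {y s : V} (hy : y ∈ rest x l) (hyS : y ∉ insert t (base (a i) v m))
    (hs : s ∈ base (a i) v m) (h : G.Adj y s) :
    G.degree y = 3 ∧ ∀ w' ∈ rest x l, w' ≠ t → G.Adj y w' → c w' ≠ c y := by
  rw [mem_insert, not_or] at hyS
  have hsp : ∀ j, (y = a j ∨ y = b j) → G.degree y = 3 ∧ ∀ w' ∈ rest x l, w' ≠ t → G.Adj y w' → c w' ≠ c y :=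
    fun j hj => ⟨st.special_deg hy hj, fun w' hw' _ h' => st.sp_col hy hj hw' h'⟩
  have hUo : y ∈ Star3.Uo G c x l a b → G.degree y = 3 ∧ ∀ w' ∈ rest x l, w' ≠ t → G.Adj y w' → c w' ≠ c y :=
    fun hU => ⟨hU.2.2.1, fun w' hw' _ h' => st.Uo_col hU w' h'⟩
  have hs' := hs
  rw [mem_base] at hs
  rcases hs with rfl | ⟨k, h1, h2, rfl⟩
  · rcases pf.nba y hy h.symm hyS.2 with h3 | h3
    · exact hUo h3
    · exact hsp i (Or.inr h3)
  · rcases pf.nbv k h1 h2 y h.symm hyS.2 with h3 | h3 | h3 | ⟨j, h3⟩ | h3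
    · exact hUo h3
    · exact hsp i (Or.inr h3)
    · exact absurd h3 hyS.1
    · rcases h3 with h3 | h3
      · exact hsp j (Or.inr h3.2)
      · exact hsp j (Or.inl h3.2)
    · have hd : G.degree y = 3 := deg3_of_two G hG h h3.2.1.symm (pf.t_ne_v st h1 h2).symm
      refine ⟨hd, fun w' hw' hne h' hc => ?_⟩
      exact hne (st.own_le_one hd.le hy hw' pf.tR h' h3.2.1.symm hc h3.2.2.symm)

/-- specials of pairs not met by the path do not touch the base -/
theorem ex_base {j : Fin 3} (hj : a j ≠ x) (ha : a j ∉ insert t (base (a i) v m))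
    (hb : b j ∉ insert t (base (a i) v m)) {s w : V} (hs : s = a j ∨ s = b j) (hw : w ∈ base (a i) v m) :
    ¬ G.Adj s w := by
  intro h
  have hji : j ≠ i := by
    rintro rfl
    exact ha (mem_insert_of_mem (mem_base.2 (Or.inl rfl)))
  have hbj := st.b_ne hj
  have hsR : s ∈ rest x l := by
    rcases hs with rfl | rfl
    · exact st.a_mem hj
    · exact st.b_mem hj
  have hsx : s ≠ x := (mem_rest.1 hsR).1
  have hsS : s ∉ insert t (base (a i) v m) := by
    rcases hs with rfl | rfl
    · exact ha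
    · exact hb
  have hsb : s ≠ b i := fun h1 => hji (st.leaf_unique hsx hs (Or.inr h1))
  rw [mem_insert, not_or] at hsS ha hb
  rw [mem_base] at hw
  rcases hw with rfl | ⟨k, h1, h2, rfl⟩
  · rcases pf.nba s hsR h.symm hsS.2 with h3 | h3
    · exact Star3.special_not_Uo st hs h3
    · exact hsb h3
  · rcases pf.nbv k h1 h2 s h.symm hsS.2 with h3 | h3 | h3 | ⟨j', h3⟩ | h3
    · exact Star3.special_not_Uo st hs h3
    · exact hsb h3
    · exact hsS.1 h3
    · have h4 : j = j' := by
        rcases h3 with h3 | h3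
        · exact st.leaf_unique hsx hs (Or.inr h3.2)
        · exact st.leaf_unique hsx hs (Or.inl h3.2)
      subst h4
      rcases h3 with h3 | h3
      · exact ha.1 h3.1.symm
      · exact hb.1 h3.1.symm
    · exact st.sp_col hsR hs pf.tR h3.2.1.symm h3.2.2.symm

/-- **The whole path.** -/
theorem sol (hG : Deg13 G) (hs : Simple3 G c x l t)
    (hD : ∀ y ∈ rest x l, y ∉ base (a i) v m → G.Adj y t → c y ≠ c t → ¬ G.Adj y (a i)) : Sol3 G := by
  have htS := pf.t_not_base st
  have hsub : insert t (base (a i) v m) ⊆ rest x l := by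
    intro y hy
    rcases mem_insert.1 hy with rfl | hy
    · exact pf.tR
    · exact pf.base_sub st hy
  have hbi : b i ∉ insert t (base (a i) v m) := by
    intro h
    rcases mem_insert.1 h with h | h
    · exact pf.tb h.symm
    · exact st.a_ne_b' i pf.hi i (pf.sp_base st (Or.inr rfl) h).symm
  have hct := pf.col_t st
  have key : ∀ ξ, ξ = decide (m % 2 = 0) → Val c a b (insert t (base (a i) v m)) ξ → Sol3 G := by
    intro ξ hξ hval
    refine st.sol_of hsub ξ hval ?_ ?_ ?_ ?_ ?_
    · intro y hy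
      rcases mem_insert.1 hy with rfl | hy
      · refine pf.in_t st hG subset_rfl fun w hw h1 h2 h3 => ?_
        rcases mem_insert.1 h3 with h3 | h3
        · exact h1.ne h3.symm
        · exact pf.mate_not st hw h1 h2 h3
      · exact pf.in_base st subset_rfl hy
    · intro y hy hyS w hw w' hw' h h' hc hc'
      rw [mem_insert, not_or] at hyS
      have hcase : ∀ s ∈ base (a i) v m, G.Adj y s → G.Adj y t → c t ≠ c y → False := by
        intro s hs h1 h2 h3
        rw [mem_base] at hs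
        rcases hs with rfl | ⟨k, h4, h5, rfl⟩
        · exact hD y hy hyS.2 h2 h3.symm h1
        · exact pf.out y hy hyS.2 h2 h3.symm k h4 h5 h1
      rcases mem_insert.1 hw with h1 | h1
      · rcases mem_insert.1 hw' with h2 | h2
        · rw [h1, h2]
        · exact (hcase w' h2 h' (h1 ▸ h) (h1 ▸ hc)).elim
      · rcases mem_insert.1 hw' with h2 | h2
        · exact (hcase w h1 h (h2 ▸ h') (h2 ▸ hc')).elim
        · exact pf.one y hy hyS.2 w h1 w' h2 h h'
    · intro y hy hyS w hw h hc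
      rcases mem_insert.1 hw with rfl | hw
      · obtain ⟨h1, h2⟩ := hs y hy h.symm (fun h1 => hc h1.symm)
        exact ⟨h1, fun w' hw' _ h' => ownIn_zero.1 h2 w' hw' h'⟩
      · obtain ⟨h1, h2⟩ := pf.own_base st hG hy hyS hw h
        exact ⟨h1, fun w' hw' hwS h' => h2 w' hw' (fun h3 => hwS (h3 ▸ mem_insert_self _ _)) h'⟩
    · intro j hj haj hbj
      rcases mem_insert.1 haj with h1 | h1
      · rcases mem_insert.1 hbj with h2 | h2
        · exact st.a_ne_b' j hj j (h1.trans h2.symm)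
        · exact st.a_ne_b' i pf.hi j (pf.sp_base st (Or.inr rfl) h2).symm
      · have h2 : j = i := st.a_inj j i (pf.sp_base st (Or.inl rfl) h1) hj
        subst h2
        exact hbi hbj
    · intro j hj haj hbj w hw h
      have hsR : ∀ s, (s = a j ∨ s = b j) → s ∈ rest x l := by
        rintro s (rfl | rfl)
        · exact st.a_mem hj
        · exact st.b_mem hj
      rcases mem_insert.1 hw with rfl | hw
      · -- the exit has the colour of the exposed special
        split_ifs at h with h1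
        · have h2 := st.sp_col (hsR _ (Or.inr rfl)) (Or.inr rfl) pf.tR h
          rw [hct, st.cb' hj] at h2
          rw [hξ] at h1
          have h3 : m % 2 = 0 := of_decide_eq_true h1
          simp [h3] at h2
        · have h2 := st.sp_col (hsR _ (Or.inl rfl)) (Or.inl rfl) pf.tR h
          rw [hct, st.ca' hj] at h2
          rw [hξ] at h1
          have h3 : m % 2 = 1 := by
            have h4 : ¬ m % 2 = 0 := fun h4 => h1 (decide_eq_true h4)
            omega
          simp [h3] at h2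
      · refine pf.ex_base st hj haj hbj (s := if ξ = true then b j else a j) ?_ hw h
        split_ifs
        · exact Or.inr rfl
        · exact Or.inl rfl
  have hkk := pf.kk_t st
  rcases Nat.mod_two_eq_zero_or_one m with h5 | h5
  · refine key true (by simp [h5]) (val_true (mem_insert_of_mem (mem_base.2 (Or.inl rfl))) hbi ?_ ?_)
    · intro j hj
      have hjx : a j ≠ x := (mem_rest.1 (hsub hj)).1
      rcases mem_insert.1 hj with h1 | h1
      · have h2 := st.ca' hjx
        rw [h1, hct] at h2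
        simp [h5] at h2
      · exact st.a_inj j i (pf.sp_base st (Or.inl rfl) h1) hjx
    · rw [hkk, if_neg (by omega)]
  · refine key false (by simp [h5]) (val_false ?_ ?_)
    · intro j hj
      have hjx : b j ≠ x := (mem_rest.1 (hsub hj)).1
      have hjx' : a j ≠ x := fun h => hjx ((st.a_eq_iff j).1 h)
      rcases mem_insert.1 hj with h1 | h1
      · have h2 := st.cb' hjx'
        rw [h1, hct] at h2
        simp [h5] at h2
      · exact st.a_ne_b' i pf.hi j (pf.sp_base st (Or.inr rfl) h1).symm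
    · rw [hkk, if_pos h5]

end PF

end Pool.Agent.BLN
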