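import Pool.Agent.BLN.Pth.Region
import Pool.Agent.BLN.Move

/-!
# A criterion for solutions

`Sol3 G` : there is a balanced valid colouring. `Star3.sol_of` : the flip of a set `S` which contains no
pair completely, does not touch the exposed specials, and touches every outside vertex at most once, outside
vertices with own neighbours outside `S` not at all, gives a solution. Small sets: `sol_K`, `sol_ab`,
`sol_legs`.
-/

set_option autoImplicit false
set_option linter.unusedSectionVars false

namespace Pool.Agent.BLN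

open Finset Pool.Agent.IVT

variable {V : Type} [Fintype V] [DecidableEq V]

/-- there is a balanced valid colouring -/
def Sol3 (G : SimpleGraph V) [DecidableRel G.Adj] : Prop := ∃ d : V → Bool, Valid3 G d ∧ sgn true d = 0

section

variable {G : SimpleGraph V} [DecidableRel G.Adj] {c : V → Bool} {x : V} {l a b : Fin 3 → V}

theorem flips_in {S : Finset V} {v : V} (h : v ∈ S) : flips S c v = !c v := by simp [flips, h]

theorem flips_out {S : Finset V} {v : V} (h : v ∉ S) : flips S c v = c v := by simp [flips, h]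

/-- both ends flipped, or none -/
theorem flips_ne_of {S : Finset V} {v w : V} (h : v ∈ S ↔ w ∈ S) (hc : c w ≠ c v) :
    flips S c w ≠ flips S c v := by
  by_cases h1 : v ∈ S
  · rw [flips_in h1, flips_in (h.1 h1)]
    intro h2
    exact hc (by simpa using h2)
  · rw [flips_out h1, flips_out (fun h2 => h1 (h.2 h2))]
    exact hc

theorem flips_ne_of' {S : Finset V} {v w : V} (h : v ∈ S) (hw : w ∉ S) (hc : c w = c v) :
    flips S c w ≠ flips S c v := by
  rw [flips_in h, flips_out hw, hc]
  cases c v <;> simp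

/-- outer neighbours of `t` of the other colour have degree three and no own neighbours -/
def Simple3 (G : SimpleGraph V) [DecidableRel G.Adj] (c : V → Bool) (x : V) (l : Fin 3 → V) (t : V) : Prop :=
  ∀ z ∈ rest x l, G.Adj t z → c z ≠ c t → G.degree z = 3 ∧ ownIn G c (rest x l) z = 0

theorem ownIn_zero {R : Finset V} {v : V} :
    ownIn G c R v = 0 ↔ ∀ w ∈ R, G.Adj v w → c w ≠ c v := by
  rw [ownIn, card_eq_zero, filter_eq_empty_iff]
  constructor
  · intro h w hw h1 h2
    exact h hw ⟨h1, h2⟩
  · intro h w hw h1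
    exact h w hw h1.1 h1.2

theorem ownIn_pos {R : Finset V} {v : V} (h : ownIn G c R v ≠ 0) : ∃ w ∈ R, G.Adj v w ∧ c w = c v := by
  rw [ownIn] at h
  obtain ⟨w, hw⟩ := card_pos.1 (Nat.pos_of_ne_zero h)
  rw [mem_filter] at hw
  exact ⟨w, hw.1, hw.2⟩

end

namespace Star3

variable {G : SimpleGraph V} [DecidableRel G.Adj] {c : V → Bool} {x : V} {l a b : Fin 3 → V}
  (st : Star3 G c x l a b)
include st

theorem own_le_one {v w w' : V} (hd : G.degree v ≤ 3) (hv : v ∈ rest x l) (hw : w ∈ rest x l)
    (hw' : w' ∈ rest x l) (h : G.Adj v w) (h' : G.Adj v w') (hc : c w = c v) (hc' : c w' = c v) : w = w' := by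
  by_contra hne
  have h1 := st.own v hv
  have h2 : ({w, w'} : Finset V) ⊆ (rest x l).filter fun u => G.Adj v u ∧ c u = c v := by
    intro z hz
    rw [mem_insert, mem_singleton] at hz
    rw [mem_filter]
    rcases hz with rfl | rfl
    · exact ⟨hw, h, hc⟩
    · exact ⟨hw', h', hc'⟩
  have h3 := card_le_card h2
  rw [card_pair hne] at h3
  omega

/-- **Solution criterion.** -/
theorem sol_of {S : Finset V} (hS : S ⊆ rest x l) (ξ : Bool) (hval : Val c a b S ξ)
    (hin : ∀ v ∈ S, 2 * cost G c x l S v < G.degree v)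
    (hout : ∀ v ∈ rest x l, v ∉ S → ∀ w ∈ S, ∀ w' ∈ S, G.Adj v w → G.Adj v w' → c w ≠ c v → c w' ≠ c v →
      w = w')
    (hown : ∀ v ∈ rest x l, v ∉ S → ∀ w ∈ S, G.Adj v w → c w ≠ c v →
      G.degree v = 3 ∧ ∀ w' ∈ rest x l, w' ∉ S → G.Adj v w' → c w' ≠ c v)
    (hpair : ∀ j, a j ≠ x → a j ∈ S → b j ∉ S)
    (hex : ∀ j, a j ≠ x → a j ∉ S → b j ∉ S → ∀ w ∈ S, ¬ G.Adj (if ξ = true then b j else a j) w) :
    Sol3 G := by
  refine ⟨_, st.table_local hS ξ hval hin ?_ ?_⟩
  · intro v hv hvS _
    by_cases h1 : ∃ w ∈ S, G.Adj v w ∧ c w ≠ c v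
    · obtain ⟨w, hw, h2, h3⟩ := h1
      obtain ⟨h4, h5⟩ := hown v hv hvS w hw h2 h3
      have h6 : cost G c x l S v ≤ 1 := by
        rw [cost_eq, ownIn, card_le_one]
        intro u hu u' hu'
        rw [mem_filter, flips_out hvS] at hu hu'
        have h7 : ∀ u, u ∈ rest x l ∧ G.Adj v u ∧ flips S c u = c v → u ∈ S ∧ c u ≠ c v := by
          intro u hu
          by_cases h8 : u ∈ S
          · refine ⟨h8, fun h9 => ?_⟩
            have h10 := hu.2.2
            rw [flips_in h8, h9] at h10
            cases h11 : c v <;> simp [h11] at h10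
          · exact absurd (by rw [← hu.2.2, flips_out h8]) (h5 u hu.1 h8 hu.2.1)
        exact hout v hv hvS u (h7 u hu).1 u' (h7 u' hu').1 hu.2.1 hu'.2.1 (h7 u hu).2 (h7 u' hu').2
      omega
    · push Not at h1
      have h2 : cost G c x l S v ≤ ownIn G c (rest x l) v := by
        rw [cost_eq, ownIn, ownIn]
        refine card_le_card fun u hu => ?_
        rw [mem_filter, flips_out hvS] at hu
        rw [mem_filter]
        refine ⟨hu.1, hu.2.1, ?_⟩
        by_cases h8 : u ∈ S
        · exact h1 u h8 hu.2.1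
        · rw [← hu.2.2, flips_out h8]
      have h3 := st.ownIn_lt hv
      omega
  · intro j hj hjS hto
    exfalso
    have haS : a j ∉ S := fun h => hpair j hj h (hjS.1 h)
    have hbS : b j ∉ S := fun h => haS (hjS.2 h)
    have he : expo a b S ξ j = if ξ = true then b j else a j := by
      unfold expo
      cases ξ <;> simp [haS]
    rw [he] at hto
    rcases hto with h | ⟨w, hw, h⟩
    · split_ifs at h
      · exact hbS h
      · exact haS h
    · exact hex j hj haS hbS w hw h

/-- cost of a terminal flipped with one neighbour of the other colour and without its mate -/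
theorem leg_in (hG : Deg13 G) {S : Finset V} {t y : V} (htR : t ∈ rest x l) (htS : t ∈ S)
    (htU : t ∉ Uo G c x l a b) (hyR : y ∈ rest x l) (hyS : y ∈ S) (h : G.Adj t y) (hc : c y ≠ c t)
    (hm : ∀ w ∈ rest x l, G.Adj t w → c w = c t → w ∉ S) : 2 * cost G c x l S t < G.degree t := by
  have h1 : flips S c y ≠ flips S c t := flips_ne_of ⟨fun _ => hyS, fun _ => htS⟩ hc
  by_cases hsp : ∃ i, t = a i ∨ t = b i
  · obtain ⟨i, hi⟩ := hsp
    exact st.cost_lt_of_one htR hi hyR h h1
  push Not at hsp
  rcases hG t with hd | hd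
  · exact cost_lt_of_pendant hd hyR h h1
  · have h2 : ownIn G c (rest x l) t ≠ 0 := fun h3 => htU ⟨htR, hsp, hd, h3⟩
    obtain ⟨w, hw, h3, h4⟩ := ownIn_pos h2
    have h5 : y ≠ w := by
      rintro rfl
      exact hc h4
    exact cost_lt_of_two hd hyR hw h5 h h3 h1 (flips_ne_of' htS (hm w hw h3 h4) h4)

omit st in
/-- cost of a flipped vertex of degree three with two flipped neighbours of the other colour -/
theorem mid_in {S : Finset V} {v y z : V} (hd : G.degree v = 3) (hvS : v ∈ S) (hyR : y ∈ rest x l)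
    (hyS : y ∈ S) (hzR : z ∈ rest x l) (hzS : z ∈ S) (hyz : y ≠ z) (h : G.Adj v y) (h' : G.Adj v z)
    (hc : c y ≠ c v) (hc' : c z ≠ c v) : 2 * cost G c x l S v < G.degree v :=
  cost_lt_of_two hd hyR hzR hyz h h' (flips_ne_of ⟨fun _ => hyS, fun _ => hvS⟩ hc)
    (flips_ne_of ⟨fun _ => hzS, fun _ => hvS⟩ hc')

theorem special_not_Uo {v : V} {i : Fin 3} (hi : v = a i ∨ v = b i) : v ∉ Uo G c x l a b := by
  intro h
  rcases hi with h1 | h1
  · exact (h.2.1 i).1 h1
  · exact (h.2.1 i).2 h1

theorem a_mem {i : Fin 3} (hi : a i ≠ x) : a i ∈ rest x l := st.a_rest i hi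

theorem b_mem {i : Fin 3} (hi : a i ≠ x) : b i ∈ rest x l := st.b_rest i (st.b_ne hi)

theorem ca' {i : Fin 3} (hi : a i ≠ x) : c (a i) = true := st.ca i hi

theorem cb' {i : Fin 3} (hi : a i ≠ x) : c (b i) = false := st.cb i (st.b_ne hi)

end Star3

end Pool.Agent.BLN
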